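import Pool.Agent.Helper19.TW.Steps

/-!
# The base of a tower
-/

set_option autoImplicit false
set_option linter.unusedSectionVars false

namespace Pool.Agent.Helper19.TW

open Pool.Agent.Helper28.BPack

/-- A Boolean packing of a partial order with greatest element `one`, in the format of the
frozen statement. -/
def BooleanPacking (P : Type) [PartialOrder P] (one : P) : Prop :=
  ∃ (t : ℕ) (n : Fin t → ℕ) (φ : ∀ i : Fin t, Set (Fin (n i)) → P),
    (∀ i, Function.Injective (φ i)) ∧
    (∀ i (a b : Set (Fin (n i))), a ⋖ b → φ i a ⋖ φ i b) ∧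
    (∀ i, Order.height one ≤ Order.height (φ i ⊥) + Order.height (φ i ⊤)) ∧
    (∀ x : P, ∃! p : (Σ i : Fin t, Set (Fin (n i))), φ p.1 p.2 = x)

section image

variable {K : Type} [Lattice K] [BoundedOrder K] [Finite K] [IsUpperModularLattice K]

/-- Values of a cover-preserving injective map from a Boolean lattice. -/
theorem exists_atoms (hK : ∀ x : K, ∃ s : Finset K, (∀ a ∈ s, IsAtom a) ∧ s.sup id = x)
    {n : ℕ} (φ : Set (Fin n) → K) (hinj : Function.Injective φ)
    (hcov : ∀ a b : Set (Fin n), a ⋖ b → φ a ⋖ φ b) :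
    ∃ a : Fin n → K, (∀ i, IsAtom (a i)) ∧
      ∀ B : Finset (Fin n), φ (B : Set (Fin n)) = φ ∅ ⊔ B.sup a ∧
        rk (φ (B : Set (Fin n))) = rk (φ ∅) + B.card := by
  classical
  have hins : ∀ (B : Finset (Fin n)) (i : Fin n), i ∉ B →
      φ (B : Set (Fin n)) ⋖ φ ((insert i B : Finset (Fin n)) : Set (Fin n)) := by
    intro B i hi
    apply hcov
    rw [Finset.coe_insert]
    exact Set.covBy_insert (by simpa using hi)
  have hrk : ∀ B : Finset (Fin n), rk (φ (B : Set (Fin n))) = rk (φ ∅) + B.card := by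
    intro B
    induction B using Finset.induction_on with
    | empty => simp
    | insert i B hi ih =>
      rw [rk_covBy (hins B i hi), ih, Finset.card_insert_of_notMem hi]
      ring
  have hmono : ∀ B C : Finset (Fin n), B ⊆ C → φ (B : Set (Fin n)) ≤ φ (C : Set (Fin n)) := by
    intro B C hBC
    have key : ∀ D : Finset (Fin n), φ (B : Set (Fin n)) ≤ φ ((B ∪ D : Finset (Fin n)) : Set (Fin n)) := by
      intro D
      induction D using Finset.induction_on with
      | empty => simp
      | insert i D _ ih =>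
        by_cases hi : i ∈ B ∪ D
        · have : B ∪ insert i D = B ∪ D := by
            rw [Finset.union_insert, Finset.insert_eq_of_mem hi]
          rw [this]; exact ih
        · rw [Finset.union_insert]
          exact ih.trans (hins _ i hi).le
    have := key C
    rwa [Finset.union_eq_right.mpr hBC] at this
  have hat1 : ∀ i : Fin n, ∃ a, IsAtom a ∧ φ (({i} : Finset (Fin n)) : Set (Fin n)) = φ ∅ ⊔ a := by
    intro i
    have h1 : φ ∅ ⋖ φ (({i} : Finset (Fin n)) : Set (Fin n)) := by
      have := hins ∅ i (Finset.notMem_empty i)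
      simpa using this
    obtain ⟨s, hs, hsx⟩ := hK (φ (({i} : Finset (Fin n)) : Set (Fin n)))
    have h2 : ∃ a ∈ s, ¬ a ≤ φ ∅ := by
      by_contra hc
      push Not at hc
      have h3 : φ (({i} : Finset (Fin n)) : Set (Fin n)) ≤ φ ∅ := by
        rw [← hsx]
        exact Finset.sup_le hc
      exact absurd h1.lt (not_lt_of_ge h3)
    obtain ⟨a, ha, han⟩ := h2
    refine ⟨a, hs a ha, ?_⟩
    have h4 : φ ∅ < φ ∅ ⊔ a := lt_of_le_of_ne le_sup_left (fun h => han (h ▸ le_sup_right))
    have h5 : φ ∅ ⊔ a ≤ φ (({i} : Finset (Fin n)) : Set (Fin n)) :=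
      sup_le h1.le (hsx ▸ Finset.le_sup (f := id) ha)
    rcases h5.lt_or_eq with h6 | h6
    · exact absurd h6 (h1.2 h4)
    · exact h6.symm
  choose a ha hφa using hat1
  have hle : ∀ B : Finset (Fin n), φ ∅ ⊔ B.sup a ≤ φ (B : Set (Fin n)) := by
    intro B
    apply sup_le
    · have := hmono ∅ B (Finset.empty_subset B)
      simpa using this
    · apply Finset.sup_le
      intro i hi
      have h1 := hmono {i} B (Finset.singleton_subset_iff.mpr hi)
      rw [hφa i] at h1
      exact le_sup_right.trans h1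
  have hmain : ∀ (m : ℕ) (B : Finset (Fin n)), B.card = m →
      φ (B : Set (Fin n)) = φ ∅ ⊔ B.sup a := by
    intro m
    induction m using Nat.strong_induction_on with
    | _ m ih =>
      intro B hB
      rcases Nat.lt_or_ge 1 B.card with h1 | h1
      · obtain ⟨i, hi, k, hk, hik⟩ := Finset.one_lt_card.mp h1
        have hci : (B.erase i).card < m := by rw [Finset.card_erase_of_mem hi]; omega
        have hck : (B.erase k).card < m := by rw [Finset.card_erase_of_mem hk]; omega
        have e1 := ih _ hci (B.erase i) rfl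
        have e2 := ih _ hck (B.erase k) rfl
        apply Eq.symm
        apply eq_of_le_of_rk (hle B)
        by_contra hc
        have r1 : ∀ x ∈ B, φ ((B.erase x : Finset (Fin n)) : Set (Fin n)) =
            φ ∅ ⊔ (B.erase x).sup a →
            φ ((B.erase x : Finset (Fin n)) : Set (Fin n)) = φ ∅ ⊔ B.sup a := by
          intro x hx hex
          apply eq_of_le_of_rk
          · rw [hex]
            exact sup_le_sup_left (Finset.sup_mono (Finset.erase_subset x B)) _
          · rw [hrk, Finset.card_erase_of_mem hx]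
            rw [hrk] at hc
            omega
        have h2 := (r1 i hi e1).trans (r1 k hk e2).symm
        have h3 := hinj h2
        have h4 : B.erase i = B.erase k := by exact_mod_cast h3
        have h5 : k ∈ B.erase i := Finset.mem_erase.mpr ⟨fun h => hik h.symm, hk⟩
        rw [h4] at h5
        exact (Finset.notMem_erase k B) h5
      · have h2 : B = ∅ ∨ ∃ i, B = {i} := by
          rcases Nat.eq_or_lt_of_le h1 with h | h
          · right; exact Finset.card_eq_one.mp h
          · left; exact Finset.card_eq_zero.mp (by omega)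
        rcases h2 with rfl | ⟨i, rfl⟩
        · simp
        · rw [hφa i, Finset.sup_singleton]
  exact ⟨a, ha, fun B => ⟨hmain _ B rfl, hrk B⟩⟩

variable {L : Type} [Lattice L] [BoundedOrder L] [Finite L] [IsUpperModularLattice L]

theorem map_le (j : K → L) (hjs : ∀ x y, j (x ⊔ y) = j x ⊔ j y) (hji : Function.Injective j)
    {x y : K} : j x ≤ j y ↔ x ≤ y := by
  constructor
  · intro h
    have h1 : j (x ⊔ y) = j y := by rw [hjs, sup_eq_right.mpr h]
    exact sup_eq_right.mp (hji h1)
  · intro h
    have h1 : j (x ⊔ y) = j y := by rw [sup_eq_right.mpr h]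
    rw [hjs] at h1
    exact sup_eq_right.mp h1

theorem map_sup (j : K → L) (hj0 : j ⊥ = ⊥) (hjs : ∀ x y, j (x ⊔ y) = j x ⊔ j y) {ι : Type}
    (s : Finset ι) (f : ι → K) : j (s.sup f) = s.sup (fun i => j (f i)) := by
  classical
  induction s using Finset.induction_on with
  | empty => simpa using hj0
  | insert i s _ ih => rw [Finset.sup_insert, Finset.sup_insert, hjs, ih]

theorem rk_map (hK : ∀ x : K, ∃ s : Finset K, (∀ a ∈ s, IsAtom a) ∧ s.sup id = x)
    (j : K → L) (hj0 : j ⊥ = ⊥) (hjs : ∀ x y, j (x ⊔ y) = j x ⊔ j y)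
    (hji : Function.Injective j) (hja : ∀ b, IsAtom b → IsAtom (j b)) (z : K) :
    rk (j z) = rk z := by
  have : ∀ (m : ℕ) (z : K), rk z = m → rk (j z) = rk z := by
    intro m
    induction m with
    | zero =>
      intro z hz
      have : z = ⊥ := by
        by_contra h
        have := rk_lt (bot_lt_iff_ne_bot.mpr h)
        omega
      rw [this, hj0, rk_bot, rk_bot]
    | succ m ih =>
      intro z hz
      have hz0 : (⊥ : K) < z := by
        rw [bot_lt_iff_ne_bot]
        rintro rfl
        rw [rk_bot] at hz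
        omega
      obtain ⟨w, -, hw⟩ := exists_le_covBy_of_lt hz0
      obtain ⟨s, hs, hsz⟩ := hK z
      have h2 : ∃ a ∈ s, ¬ a ≤ w := by
        by_contra hc
        push Not at hc
        have h3 : z ≤ w := by
          rw [← hsz]
          exact Finset.sup_le hc
        exact absurd hw.lt (not_lt_of_ge h3)
      obtain ⟨a, ha, han⟩ := h2
      have h4 : w < w ⊔ a := lt_of_le_of_ne le_sup_left (fun h => han (h ▸ le_sup_right))
      have h5 : w ⊔ a ≤ z := sup_le hw.le (hsz ▸ Finset.le_sup (f := id) ha)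
      have h6 : w ⊔ a = z := by
        rcases h5.lt_or_eq with h6 | h6
        · exact absurd h6 (hw.2 h4)
        · exact h6
      have h7 := rk_covBy hw
      have h8 : ¬ j a ≤ j w := fun h => han ((map_le j hjs hji).mp h)
      have h9 := ih w (by omega)
      rw [← h6, hjs, rk_sup_atom (hja a (hs a ha)) h8, h9, h6]
      omega
  exact this _ z rfl

theorem Pk.base (hK : ∀ x : K, ∃ s : Finset K, (∀ a ∈ s, IsAtom a) ∧ s.sup id = x)
    (hP : BooleanPacking K ⊤) (j : K → L) (hj0 : j ⊥ = ⊥)
    (hjs : ∀ x y, j (x ⊔ y) = j x ⊔ j y) (hji : Function.Injective j) (A : Finset L)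
    (hA : ∀ a, a ∈ A ↔ ∃ b, IsAtom b ∧ j b = a) (hAt : ∀ a ∈ A, IsAtom a) : Pk A := by
  classical
  obtain ⟨t, n, φ, hinj, hcov, hht, huniq⟩ := hP
  have hja : ∀ b, IsAtom b → IsAtom (j b) := fun b hb => hAt _ ((hA _).mpr ⟨b, hb, rfl⟩)
  have hrk := rk_map hK j hj0 hjs hji hja
  choose a ha hval using fun i => exists_atoms hK (φ i) (hinj i) (hcov i)
  -- joins of elements of `A` are the images
  have hJ : ∀ w : K, Jn A (j w) := by
    intro w
    obtain ⟨s, hs, rfl⟩ := hK w
    refine ⟨s.image j, ?_, ?_⟩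
    · intro y hy
      obtain ⟨b, hb, rfl⟩ := Finset.mem_image.mp hy
      exact (hA _).mpr ⟨b, hs b hb, rfl⟩
    · rw [map_sup j hj0 hjs, Finset.sup_image]
      rfl
  have hJ' : ∀ z : L, Jn A z → ∃ w, j w = z := by
    rintro z ⟨S, hS, rfl⟩
    induction S using Finset.induction_on with
    | empty => exact ⟨⊥, by simpa using hj0⟩
    | insert y S _ ih =>
      obtain ⟨w, hw⟩ := ih ((Finset.subset_insert y S).trans hS)
      obtain ⟨b, -, hb⟩ := (hA y).mp (hS (Finset.mem_insert_self y S))
      exact ⟨b ⊔ w, by rw [hjs, hb, hw, Finset.sup_insert, id]⟩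
  -- the pieces
  have hain : ∀ i, Function.Injective (a i) := by
    intro i k l hkl
    have h1 : φ i (({k} : Finset (Fin (n i))) : Set (Fin (n i))) =
        φ i (({l} : Finset (Fin (n i))) : Set (Fin (n i))) := by
      rw [(hval i _).1, (hval i _).1, Finset.sup_singleton, Finset.sup_singleton, hkl]
    have h2 := hinj i h1
    have h3 : ({k} : Finset (Fin (n i))) = {l} := by exact_mod_cast h2
    exact Finset.singleton_inj.mp h3
  let g : Fin t → L × Finset L := fun i =>
    (j (φ i ∅), Finset.univ.image (fun k => j (a i k)))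
  have hgval : ∀ i (B : Finset (Fin (n i))),
      jn (g i).1 (B.image (fun k => j (a i k))) = j (φ i (B : Set (Fin (n i)))) := by
    intro i B
    rw [(hval i B).1, hjs, map_sup j hj0 hjs, jn, Finset.sup_image]
    rfl
  have hgEl : ∀ i z, El (g i) z ↔ ∃ B : Finset (Fin (n i)), j (φ i (B : Set (Fin (n i)))) = z := by
    intro i z
    constructor
    · rintro ⟨S, hS, rfl⟩
      refine ⟨Finset.univ.filter (fun k => j (a i k) ∈ S), ?_⟩
      rw [← hgval]
      congr 1
      ext y
      simp only [Finset.mem_image, Finset.mem_filter, Finset.mem_univ, true_and]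
      constructor
      · rintro ⟨k, hk, rfl⟩
        exact hk
      · intro hy
        obtain ⟨k, -, rfl⟩ := Finset.mem_image.mp (hS hy)
        exact ⟨k, hy, rfl⟩
    · rintro ⟨B, rfl⟩
      exact ⟨B.image (fun k => j (a i k)), Finset.image_subset_image (Finset.subset_univ _),
        hgval i B⟩
  have hgcard : ∀ i, (g i).2.card = n i := by
    intro i
    change (Finset.univ.image (fun k => j (a i k))).card = n i
    rw [Finset.card_image_of_injective _ (fun k l hkl => hain i (hji hkl)), Finset.card_univ,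
      Fintype.card_fin]
  have hgtop : ∀ i, jn (g i).1 (g i).2 = j (φ i ⊤) := by
    intro i
    have h1 := hgval i Finset.univ
    rw [Finset.coe_univ] at h1
    exact h1
  have htop : A.sup id = j ⊤ := by
    apply le_antisymm
    · apply Finset.sup_le
      intro y hy
      obtain ⟨b, -, rfl⟩ := (hA y).mp hy
      exact (map_le j hjs hji).mpr le_top
    · exact (hJ ⊤).le
  refine ⟨Finset.univ.image g, ⟨?_, ?_, ?_⟩, ?_⟩
  · intro q hq
    obtain ⟨i, -, rfl⟩ := Finset.mem_image.mp hq
    constructor
    · intro y hy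
      obtain ⟨k, -, rfl⟩ := Finset.mem_image.mp hy
      exact hja _ (ha i k)
    · rw [hgtop, hgcard, hrk]
      change rk (φ i ⊤) = rk (j (φ i ∅)) + n i
      rw [hrk]
      have h1 := (hval i Finset.univ).2
      rw [Finset.coe_univ, Finset.card_univ, Fintype.card_fin] at h1
      exact h1
  · intro z
    constructor
    · intro hz
      obtain ⟨w, rfl⟩ := hJ' z hz
      obtain ⟨⟨i, B⟩, hB, -⟩ := huniq w
      refine ⟨g i, Finset.mem_image_of_mem _ (Finset.mem_univ i), ?_⟩
      rw [hgEl]
      refine ⟨Finset.univ.filter (fun k => k ∈ B), ?_⟩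
      have h1 : ((Finset.univ.filter (fun k => k ∈ B) : Finset (Fin (n i))) :
          Set (Fin (n i))) = B := by ext k; simp
      rw [h1]
      exact congrArg j hB
    · rintro ⟨q, hq, hz⟩
      obtain ⟨i, -, rfl⟩ := Finset.mem_image.mp hq
      obtain ⟨B, rfl⟩ := (hgEl i z).mp hz
      exact hJ _
  · intro q hq q' hq' z hz hz'
    obtain ⟨i, -, rfl⟩ := Finset.mem_image.mp hq
    obtain ⟨i', -, rfl⟩ := Finset.mem_image.mp hq'
    obtain ⟨B, hB⟩ := (hgEl i z).mp hz
    obtain ⟨B', hB'⟩ := (hgEl i' z).mp hz'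
    have h1 : φ i (B : Set (Fin (n i))) = φ i' (B' : Set (Fin (n i'))) := hji (hB.trans hB'.symm)
    obtain ⟨p0, -, hp0⟩ := huniq (φ i (B : Set (Fin (n i))))
    have h2 := hp0 ⟨i, (B : Set (Fin (n i)))⟩ rfl
    have h3 := hp0 ⟨i', (B' : Set (Fin (n i')))⟩ h1.symm
    have h4 : i = i' := congrArg Sigma.fst (h2.trans h3.symm)
    rw [h4]
  · intro q hq
    obtain ⟨i, -, rfl⟩ := Finset.mem_image.mp hq
    have h0 : rk (g i).1 = rk (φ i ⊥) := hrk _
    rw [htop, hgtop, h0, hrk, hrk]
    have h1 := hht i
    rw [← coe_rk, ← coe_rk, ← coe_rk] at h1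
    exact_mod_cast h1

end image

end Pool.Agent.Helper19.TW
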