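import Pool.Agent.Helper19.TW.Base

/-!
# Bond lattices of chordal graphs: the levels
-/

set_option autoImplicit false
set_option linter.unusedSectionVars false

namespace Pool.Agent.Helper19.TW

open Pool.Agent.Helper28.BPack

variable {L : Type} [Lattice L] [BoundedOrder L] [Finite L] [IsUpperModularLattice L]

/-- The edges of a connected chordal graph with the vertices `0, ..., n` as atoms: `W i` is the
set of the neighbours of `i` that are smaller than `i`, a clique, and `e i w` is the edge. -/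
structure CG (n : ℕ) (W : ℕ → Finset ℕ) (e : ℕ → ℕ → L) : Prop where
  top : rk (⊤ : L) = n
  ne : ∀ i, 1 ≤ i → i ≤ n → (W i).Nonempty
  at1 : ∀ i, ∀ w ∈ W i, w < i ∧ IsAtom (e i w)
  cl : ∀ i, ∀ w ∈ W i, ∀ w' ∈ W i, w < w' → w ∈ W w' ∧
    e i w ⊔ e w' w = e i w ⊔ e i w' ∧ e i w' ⊔ e w' w = e i w ⊔ e i w'
  all : ∀ a, IsAtom a → ∃ i ≤ n, ∃ w ∈ W i, e i w = a

/-- The span of the edges between the vertices `0, ..., i`. -/
def Lv (W : ℕ → Finset ℕ) (e : ℕ → ℕ → L) (i : ℕ) : L :=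
  (Finset.range (i + 1)).sup (fun j => (W j).sup (e j))

/-- Adjacent or equal. -/
def Ad (W : ℕ → Finset ℕ) (u v : ℕ) : Prop := u = v ∨ min u v ∈ W (max u v)

/-- The edge between two adjacent vertices. -/
def Ed (e : ℕ → ℕ → L) (u v : ℕ) : L := e (max u v) (min u v)

/-- Adjacent vertices that are connected in `h`. -/
def Cn (e : ℕ → ℕ → L) (h : L) (u v : ℕ) : Prop := u = v ∨ Ed e u v ≤ h

theorem Ad.symm {W : ℕ → Finset ℕ} {u v : ℕ} (h : Ad W u v) : Ad W v u := by
  rcases h with h | h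
  · exact Or.inl h.symm
  · right
    rwa [min_comm, max_comm]

theorem Cn.symm {e : ℕ → ℕ → L} {h : L} {u v : ℕ} (hc : Cn e h u v) : Cn e h v u := by
  rcases hc with hc | hc
  · exact Or.inl hc.symm
  · right
    unfold Ed at hc ⊢
    rwa [min_comm, max_comm]

theorem Cn.mono {e : ℕ → ℕ → L} {h h' : L} {u v : ℕ} (hc : Cn e h u v) (hh : h ≤ h') :
    Cn e h' u v := by
  rcases hc with hc | hc
  · exact Or.inl hc
  · exact Or.inr (hc.trans hh)

theorem Cn.refl (e : ℕ → ℕ → L) (h : L) (u : ℕ) : Cn e h u u := Or.inl rfl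

namespace CG

variable {n : ℕ} {W : ℕ → Finset ℕ} {e : ℕ → ℕ → L}

theorem edge_le_Lv {i j w : ℕ} (hj : j ≤ i) (hw : w ∈ W j) : e j w ≤ Lv W e i := by
  have h1 : (W j).sup (e j) ≤ Lv W e i :=
    Finset.le_sup (f := fun j => (W j).sup (e j)) (Finset.mem_range.mpr (by omega))
  exact (Finset.le_sup (f := e j) hw).trans h1

theorem Lv_mono {i j : ℕ} (h : i ≤ j) : Lv W e i ≤ Lv W e j :=
  Finset.sup_mono (Finset.range_mono (by omega))

theorem Ed_le_Lv {i u v : ℕ} (h : Ad W u v) (hne : u ≠ v) (hu : u ≤ i) (hv : v ≤ i) :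
    Ed e u v ≤ Lv W e i := by
  rcases h with h | h
  · exact absurd h hne
  · exact edge_le_Lv (max_le hu hv) h

/-- Three pairwise adjacent vertices. -/
theorem tri (hG : CG n W e) {u v w : ℕ} (huv : Ad W u v) (huw : Ad W u w) (hvw : Ad W v w)
    (h1 : u ≠ v) (h2 : u ≠ w) (h3 : v ≠ w) : Ed e u w ≤ Ed e u v ⊔ Ed e v w := by
  have key : ∀ a b c : ℕ, a < b → b < c → a ∈ W c → b ∈ W c →
      e c a ≤ e c b ⊔ e b a ∧ e c b ≤ e c a ⊔ e b a ∧ e b a ≤ e c a ⊔ e c b := by
    intro a b c hab hbc ha hb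
    obtain ⟨-, k1, k2⟩ := hG.cl c a ha b hb hab
    refine ⟨?_, ?_, ?_⟩
    · rw [k2]; exact le_sup_left
    · rw [k1]; exact le_sup_right
    · rw [← k1]; exact le_sup_right
  have m1 : min u v ∈ W (max u v) := huv.resolve_left h1
  have m2 : min u w ∈ W (max u w) := huw.resolve_left h2
  have m3 : min v w ∈ W (max v w) := hvw.resolve_left h3
  unfold Ed
  rcases lt_or_gt_of_ne h1 with a1 | a1 <;> rcases lt_or_gt_of_ne h2 with a2 | a2 <;>
    rcases lt_or_gt_of_ne h3 with a3 | a3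
  · -- u < v < w
    rw [min_eq_left a1.le, max_eq_right a1.le] at m1 ⊢
    rw [min_eq_left a2.le, max_eq_right a2.le] at m2 ⊢
    rw [min_eq_left a3.le, max_eq_right a3.le] at m3 ⊢
    obtain ⟨k1, -, -⟩ := key u v w a1 a3 m2 m3
    rw [sup_comm]
    exact k1
  · -- u < w < v
    rw [min_eq_left a1.le, max_eq_right a1.le] at m1 ⊢
    rw [min_eq_left a2.le, max_eq_right a2.le] at m2 ⊢
    rw [min_eq_right a3.le, max_eq_left a3.le] at m3 ⊢
    obtain ⟨-, -, k3⟩ := key u w v a2 a3 m1 m3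
    exact k3
  · omega
  · -- w < u < v
    rw [min_eq_left a1.le, max_eq_right a1.le] at m1 ⊢
    rw [min_eq_right a2.le, max_eq_left a2.le] at m2 ⊢
    rw [min_eq_right a3.le, max_eq_left a3.le] at m3 ⊢
    obtain ⟨-, -, k3⟩ := key w u v a2 a1 m3 m1
    rw [sup_comm]
    exact k3
  · -- v < u < w
    rw [min_eq_right a1.le, max_eq_left a1.le] at m1 ⊢
    rw [min_eq_left a2.le, max_eq_right a2.le] at m2 ⊢
    rw [min_eq_left a3.le, max_eq_right a3.le] at m3 ⊢
    obtain ⟨-, k2, -⟩ := key v u w a1 a2 m3 m2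
    rw [sup_comm]
    exact k2
  · omega
  · -- v < w < u
    rw [min_eq_right a1.le, max_eq_left a1.le] at m1 ⊢
    rw [min_eq_right a2.le, max_eq_left a2.le] at m2 ⊢
    rw [min_eq_left a3.le, max_eq_right a3.le] at m3 ⊢
    obtain ⟨-, k2, -⟩ := key v w u a3 a2 m1 m2
    exact k2
  · -- w < v < u
    rw [min_eq_right a1.le, max_eq_left a1.le] at m1 ⊢
    rw [min_eq_right a2.le, max_eq_left a2.le] at m2 ⊢
    rw [min_eq_right a3.le, max_eq_left a3.le] at m3 ⊢
    obtain ⟨k1, -, -⟩ := key w v u a3 a1 m2 m1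
    exact k1

theorem Cn_trans (hG : CG n W e) {h : L} {u v w : ℕ} (huv : Ad W u v) (huw : Ad W u w)
    (hvw : Ad W v w) (c1 : Cn e h u v) (c2 : Cn e h v w) : Cn e h u w := by
  by_cases h1 : u = v
  · rw [h1]; exact c2
  by_cases h3 : v = w
  · rw [← h3]; exact c1
  by_cases h2 : u = w
  · exact Or.inl h2
  · right
    exact (hG.tri huv huw hvw h1 h2 h3).trans (sup_le (c1.resolve_left h1) (c2.resolve_left h3))

/-- Two earlier neighbours of a vertex are adjacent or equal. -/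
theorem Ad_of_mem (hG : CG n W e) {i w w' : ℕ} (hw : w ∈ W i) (hw' : w' ∈ W i) : Ad W w w' := by
  rcases lt_trichotomy w w' with h | h | h
  · right
    rw [min_eq_left h.le, max_eq_right h.le]
    exact (hG.cl i w hw w' hw' h).1
  · exact Or.inl h
  · right
    rw [min_eq_right h.le, max_eq_left h.le]
    exact (hG.cl i w' hw' w hw h).1

theorem Ad_self (hG : CG n W e) {i w : ℕ} (hw : w ∈ W i) : Ad W i w := by
  right
  have := (hG.at1 i w hw).1
  rwa [min_eq_right this.le, max_eq_left this.le]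

theorem Ed_self (hG : CG n W e) {i w : ℕ} (hw : w ∈ W i) : Ed e i w = e i w := by
  have := (hG.at1 i w hw).1
  unfold Ed
  rw [min_eq_right this.le, max_eq_left this.le]

theorem mem_of_Ad (hG : CG n W e) {i w : ℕ} (h : Ad W i w) (hlt : w < i) : w ∈ W i := by
  rcases h with h | h
  · omega
  · rwa [min_eq_right hlt.le, max_eq_left hlt.le] at h

/-- The last level is generated by one of its edges. -/
theorem Lv_succ (hG : CG n W e) {i w : ℕ} (hw : w ∈ W (i + 1)) :
    Lv W e (i + 1) = Lv W e i ⊔ e (i + 1) w := by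
  apply le_antisymm
  · apply Finset.sup_le
    intro j hj
    apply Finset.sup_le
    intro w' hw'
    have hj' : j ≤ i + 1 := by
      have := Finset.mem_range.mp hj
      omega
    rcases Nat.lt_or_ge j (i + 1) with h | h
    · exact (edge_le_Lv (Nat.lt_succ_iff.mp h) hw').trans le_sup_left
    · have hji : j = i + 1 := le_antisymm hj' h
      subst hji
      by_cases hww : w' = w
      · rw [hww]; exact le_sup_right
      · have h1 := hG.tri (hG.Ad_self hw) (hG.Ad_self hw') (hG.Ad_of_mem hw hw')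
          (by have := (hG.at1 _ _ hw).1; omega) (by have := (hG.at1 _ _ hw').1; omega)
          (fun h => hww h.symm)
        rw [hG.Ed_self hw, hG.Ed_self hw'] at h1
        refine h1.trans (sup_le le_sup_right ?_)
        refine (Ed_le_Lv (i := i) (hG.Ad_of_mem hw hw') (fun h => hww h.symm) ?_ ?_).trans
          le_sup_left
        · have := (hG.at1 _ _ hw).1; omega
        · have := (hG.at1 _ _ hw').1; omega
  · exact sup_le (Lv_mono (by omega)) (edge_le_Lv le_rfl hw)

theorem Lv_zero (hG : CG n W e) : Lv W e 0 = ⊥ := by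
  unfold Lv
  have h : W 0 = ∅ := by
    rw [Finset.eq_empty_iff_forall_notMem]
    intro w hw
    have := (hG.at1 0 w hw).1
    omega
  simp [h]

theorem Lv_top (hG : CG n W e)
    (hat : ∀ x : L, ∃ s : Finset L, (∀ a ∈ s, IsAtom a) ∧ s.sup id = x) : Lv W e n = ⊤ := by
  apply le_antisymm le_top
  obtain ⟨s, hs, hst⟩ := hat ⊤
  rw [← hst]
  apply Finset.sup_le
  intro a ha
  obtain ⟨i, hi, w, hw, rfl⟩ := hG.all a (hs a ha)
  exact edge_le_Lv hi hw

theorem rk_Lv (hG : CG n W e)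
    (hat : ∀ x : L, ∃ s : Finset L, (∀ a ∈ s, IsAtom a) ∧ s.sup id = x) :
    ∀ i ≤ n, rk (Lv W e i) = i := by
  have h1 : ∀ i ≤ n, rk (Lv W e i) ≤ i := by
    intro i
    induction i with
    | zero =>
      intro _
      rw [hG.Lv_zero, rk_bot]
    | succ i ih =>
      intro hi
      obtain ⟨w, hw⟩ := hG.ne (i + 1) (by omega) hi
      rw [hG.Lv_succ hw]
      have h2 := rk_sup_atom_le (x := Lv W e i) (hG.at1 _ _ hw).2
      have h3 := ih (by omega)
      omega
  have h2 : ∀ k ≤ n, rk (⊤ : L) ≤ rk (Lv W e (n - k)) + k := by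
    intro k
    induction k with
    | zero =>
      intro _
      rw [Nat.sub_zero, hG.Lv_top hat]
      omega
    | succ k ih =>
      intro hk
      have h3 := ih (by omega)
      have h4 : n - k = (n - (k + 1)) + 1 := by omega
      rw [h4] at h3
      obtain ⟨w, hw⟩ := hG.ne (n - (k + 1) + 1) (by omega) (by omega)
      rw [hG.Lv_succ hw] at h3
      have h5 := rk_sup_atom_le (x := Lv W e (n - (k + 1))) (hG.at1 _ _ hw).2
      omega
  intro i hi
  have h3 := h1 i hi
  have h4 := h2 (n - i) (by omega)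
  rw [hG.top, Nat.sub_sub_self hi] at h4
  omega

theorem not_le_Lv (hG : CG n W e)
    (hat : ∀ x : L, ∃ s : Finset L, (∀ a ∈ s, IsAtom a) ∧ s.sup id = x) {i w : ℕ}
    (hi : i + 1 ≤ n) (hw : w ∈ W (i + 1)) : ¬ e (i + 1) w ≤ Lv W e i := by
  intro hle
  have h1 := hG.Lv_succ hw
  rw [sup_eq_left.mpr hle] at h1
  have h2 := hG.rk_Lv hat (i + 1) hi
  have h3 := hG.rk_Lv hat i (by omega)
  rw [h1] at h2
  omega

/-- Elements of a level that are not new. -/
theorem le_of_le_sup (hG : CG n W e)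
    (hat : ∀ x : L, ∃ s : Finset L, (∀ a ∈ s, IsAtom a) ∧ s.sup id = x) {i w : ℕ}
    (hi : i + 1 ≤ n) (hw : w ∈ W (i + 1)) {h y : L} (hh : h ≤ Lv W e i) (hy : y ≤ Lv W e i)
    (hle : y ≤ h ⊔ e (i + 1) w) : y ≤ h := by
  have h1 : ¬ e (i + 1) w ≤ h := fun hc => hG.not_le_Lv hat hi hw (hc.trans hh)
  have h2 := covBy_sup_atom (hG.at1 _ _ hw).2 h1
  by_contra hc
  have h3 : h < h ⊔ y := lt_of_le_of_ne le_sup_left (fun hh => hc (hh ▸ le_sup_right))
  have h4 : h ⊔ y ≤ h ⊔ e (i + 1) w := sup_le le_sup_left hle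
  rcases h4.lt_or_eq with h5 | h5
  · exact h2.2 h3 h5
  · exact hG.not_le_Lv hat hi hw ((h5 ▸ le_sup_right : e (i + 1) w ≤ h ⊔ y).trans (sup_le hh hy))

/-- The connection relation over a new element. -/
theorem Cn_sup (hG : CG n W e)
    (hat : ∀ x : L, ∃ s : Finset L, (∀ a ∈ s, IsAtom a) ∧ s.sup id = x) {i w : ℕ}
    (hi : i + 1 ≤ n) (hw : w ∈ W (i + 1)) {h : L} (hh : h ≤ Lv W e i) {u v : ℕ}
    (huv : Ad W u v) (hu : u ≤ i) (hv : v ≤ i) :
    Cn e (h ⊔ e (i + 1) w) u v ↔ Cn e h u v := by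
  constructor
  · rintro (hc | hc)
    · exact Or.inl hc
    · by_cases hne : u = v
      · exact Or.inl hne
      · exact Or.inr (hG.le_of_le_sup hat hi hw hh (Ed_le_Lv huv hne hu hv) hc)
  · exact fun hc => hc.mono le_sup_left

theorem Cn_sup_new (hG : CG n W e)
    (hat : ∀ x : L, ∃ s : Finset L, (∀ a ∈ s, IsAtom a) ∧ s.sup id = x) {i w : ℕ}
    (hi : i + 1 ≤ n) (hw : w ∈ W (i + 1)) {h : L} (hh : h ≤ Lv W e i) {u : ℕ}
    (hu : u ∈ W (i + 1)) : Cn e (h ⊔ e (i + 1) w) (i + 1) u ↔ Cn e h w u := by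
  have hui := (hG.at1 _ _ hu).1
  have hwi := (hG.at1 _ _ hw).1
  by_cases huw : w = u
  · subst huw
    constructor
    · exact fun _ => Cn.refl e h w
    · intro _
      right
      rw [hG.Ed_self hw]
      exact le_sup_right
  have hA := hG.Ad_of_mem hw hu
  constructor
  · rintro (hc | hc)
    · omega
    · right
      apply hG.le_of_le_sup hat hi hw hh (Ed_le_Lv hA huw (by omega) (by omega))
      have h1 := hG.tri (hG.Ad_self hw).symm hA (hG.Ad_self hu) (by omega) huw (by omega)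
      refine h1.trans (sup_le ?_ hc)
      have h2 : Ed e w (i + 1) = Ed e (i + 1) w := by
        unfold Ed
        rw [min_comm, max_comm]
      rw [h2, hG.Ed_self hw]
      exact le_sup_right
  · rintro (hc | hc)
    · exact absurd hc huw
    · right
      have h1 := hG.tri (hG.Ad_self hw) (hG.Ad_self hu) hA (by omega) (by omega) huw
      refine h1.trans (sup_le ?_ (hc.trans le_sup_left))
      rw [hG.Ed_self hw]
      exact le_sup_right

/-- Equality of new elements. -/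
theorem sup_eq_iff (hG : CG n W e)
    (hat : ∀ x : L, ∃ s : Finset L, (∀ a ∈ s, IsAtom a) ∧ s.sup id = x) {i w w' : ℕ}
    (hi : i + 1 ≤ n) (hw : w ∈ W (i + 1)) (hw' : w' ∈ W (i + 1)) {h h' : L}
    (hh : h ≤ Lv W e i) (hh' : h' ≤ Lv W e i) :
    h ⊔ e (i + 1) w = h' ⊔ e (i + 1) w' ↔ h = h' ∧ Cn e h w w' := by
  constructor
  · intro heq
    have e1 : h = h' := by
      apply le_antisymm
      · exact hG.le_of_le_sup hat hi hw' hh' hh (heq ▸ le_sup_left)
      · exact hG.le_of_le_sup hat hi hw hh hh' (heq.symm ▸ le_sup_left)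
    refine ⟨e1, ?_⟩
    apply (hG.Cn_sup_new hat hi hw hh hw').mp
    right
    rw [hG.Ed_self hw', heq]
    exact le_sup_right
  · rintro ⟨rfl, hc⟩
    have h1 := (hG.Cn_sup_new hat hi hw hh hw').mpr hc
    have h2 := (hG.Cn_sup_new hat hi hw' hh hw).mpr hc.symm
    have n1 := (hG.at1 _ _ hw).1
    have n2 := (hG.at1 _ _ hw').1
    have h1 := h1.resolve_left (by omega)
    have h2 := h2.resolve_left (by omega)
    rw [hG.Ed_self hw'] at h1
    rw [hG.Ed_self hw] at h2
    exact le_antisymm (sup_le le_sup_left h2) (sup_le le_sup_left h1)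

/-- The elements of a level. -/
theorem exists_of_le (hG : CG n W e)
    (hat : ∀ x : L, ∃ s : Finset L, (∀ a ∈ s, IsAtom a) ∧ s.sup id = x) {i : ℕ}
    (hi : i + 1 ≤ n) {z : L} (hz : z ≤ Lv W e (i + 1)) (hzn : ¬ z ≤ Lv W e i) :
    ∃ w ∈ W (i + 1), ∃ h ≤ Lv W e i, z = h ⊔ e (i + 1) w := by
  obtain ⟨s, hs, hsz⟩ := hat z
  have hlev : ∀ a ∈ s, ¬ a ≤ Lv W e i → ∃ w ∈ W (i + 1), e (i + 1) w = a := by
    intro a ha hna
    obtain ⟨j, hj, w, hw, rfl⟩ := hG.all a (hs a ha)
    have haz : e j w ≤ Lv W e (i + 1) := (hsz ▸ Finset.le_sup (f := id) ha : e j w ≤ z).trans hz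
    rcases lt_trichotomy j (i + 1) with h | h | h
    · exact absurd (edge_le_Lv (Nat.lt_succ_iff.mp h) hw) hna
    · subst h
      exact ⟨w, hw, rfl⟩
    · exfalso
      obtain ⟨k, rfl⟩ : ∃ k, j = k + 1 := ⟨j - 1, by omega⟩
      exact hG.not_le_Lv hat hj hw (haz.trans (Lv_mono (by omega)))
  have hex : ∃ a ∈ s, ¬ a ≤ Lv W e i := by
    by_contra hc
    apply hzn
    rw [← hsz]
    apply Finset.sup_le
    intro a ha
    by_contra h
    exact hc ⟨a, ha, h⟩
  obtain ⟨a, ha, hna⟩ := hex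
  obtain ⟨w, hw, rfl⟩ := hlev a ha hna
  have haz : e (i + 1) w ≤ z := hsz ▸ Finset.le_sup (f := id) ha
  refine ⟨w, hw, z ⊓ Lv W e i, inf_le_right, ?_⟩
  apply le_antisymm
  · nth_rewrite 1 [← hsz]
    apply Finset.sup_le
    intro b hb
    have hbz : b ≤ z := hsz ▸ Finset.le_sup (f := id) hb
    by_cases hbL : b ≤ Lv W e i
    · exact (le_inf hbz hbL).trans le_sup_left
    · obtain ⟨w', hw', rfl⟩ := hlev b hb hbL
      by_cases hww : w = w'
      · rw [← hww]; exact le_sup_right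
      · have n1 := (hG.at1 _ _ hw).1
        have n2 := (hG.at1 _ _ hw').1
        have hA := hG.Ad_of_mem hw hw'
        have h1 := hG.tri (hG.Ad_self hw).symm hA (hG.Ad_self hw') (by omega) hww (by omega)
        have h2 : Ed e w (i + 1) = Ed e (i + 1) w := by
          unfold Ed
          rw [min_comm, max_comm]
        rw [h2, hG.Ed_self hw, hG.Ed_self hw'] at h1
        have h3 : Ed e w w' ≤ z ⊓ Lv W e i :=
          le_inf (h1.trans (sup_le haz hbz)) (Ed_le_Lv hA hww (by omega) (by omega))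
        have h4 := hG.tri (hG.Ad_self hw) (hG.Ad_self hw') hA (by omega) (by omega) hww
        rw [hG.Ed_self hw, hG.Ed_self hw'] at h4
        exact h4.trans (sup_le le_sup_right (h3.trans le_sup_left))
  · exact sup_le inf_le_left haz

end CG

end Pool.Agent.Helper19.TW
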