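import Pool.Agent.Helper19.TW.Steps

/-!
# Peeling
-/

set_option autoImplicit false
set_option linter.unusedSectionVars false

namespace Pool.Agent.Helper19.TW

open Pool.Agent.Helper28.BPack

variable {L : Type} [Lattice L] [BoundedOrder L] [Finite L] [IsUpperModularLattice L]

/-- Adding an atom when the new elements of small rank are packed. -/
theorem Pk.general [DecidableEq L] {A : Finset L} {p : L} (h : Pk A)
    (hpA : p ≤ A.sup id) (P : Finset (L × Finset L)) (Z : L → Prop) (hP : Fam P Z)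
    (hr : ∀ q ∈ P, rk (A.sup id) ≤ rk q.1 + rk (jn q.1 q.2))
    (hnew : ∀ z, Z z → ¬ Jn A z ∧ ∃ w, Jn A w ∧ z = w ⊔ p)
    (hsmall : ∀ w, Jn A w → ¬ Jn A (w ⊔ p) → 2 * rk (w ⊔ p) < rk (A.sup id) → Z (w ⊔ p)) :
    Pk (insert p A) := by
  classical
  have := Fintype.ofFinite L
  obtain ⟨Q, hQ, hq⟩ := h
  let X : Finset L := Finset.univ.filter (fun z => ¬ Jn A z ∧ ¬ Z z ∧ ∃ w, Jn A w ∧ z = w ⊔ p)
  have hX : ∀ z ∈ X, rk (A.sup id) ≤ rk z + rk z := by
    intro z hz
    obtain ⟨h1, h2, w, hw, rfl⟩ := (Finset.mem_filter.mp hz).2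
    by_contra hc
    exact h2 (hsmall w hw h1 (by omega))
  have htopeq : rk ((insert p A).sup id) = rk (A.sup id) := by
    rw [Finset.sup_insert, id, sup_eq_right.mpr hpA]
  have hall := (hQ.union hP (fun z h1 h2 => (hnew z h2).1 h1)).union (Fam.singles X) (by
    rintro z (h1 | h1) hz
    · exact (Finset.mem_filter.mp hz).2.1 h1
    · exact (Finset.mem_filter.mp hz).2.2.1 h1)
  refine ⟨_, hall.congr ?_, ?_⟩
  · intro z
    rw [jn_insert_iff]
    constructor
    · rintro ((h1 | h1) | hz)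
      · exact Or.inl h1
      · exact Or.inr (hnew z h1).2
      · exact Or.inr (Finset.mem_filter.mp hz).2.2.2
    · rintro (h1 | ⟨w, hw, rfl⟩)
      · exact Or.inl (Or.inl h1)
      · by_cases hj : Jn A (w ⊔ p)
        · exact Or.inl (Or.inl hj)
        · by_cases hc : Z (w ⊔ p)
          · exact Or.inl (Or.inr hc)
          · exact Or.inr (Finset.mem_filter.mpr ⟨Finset.mem_univ _, hj, hc, w, hw, rfl⟩)
  · intro q' hq'
    rw [htopeq]
    rcases Finset.mem_union.mp hq' with hq' | hq'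
    · rcases Finset.mem_union.mp hq' with hq' | hq'
      · exact hq q' hq'
      · exact hr q' hq'
    · obtain ⟨z, hz, rfl⟩ := Finset.mem_image.mp hq'
      change rk (A.sup id) ≤ rk z + rk (jn z ∅)
      rw [jn_empty]
      exact hX z hz

/-- Adding an atom with few new elements of small rank. -/
theorem Pk.peel [DecidableEq L] {A : Finset L} {p : L} (h : Pk A) (hp : IsAtom p)
    (hpA : p ≤ A.sup id) (E : Finset L) (hEA : E ⊆ A) (hEat : ∀ a ∈ E, IsAtom a)
    (hEr : rk (E.sup id) = E.card) (hEc : rk (A.sup id) ≤ E.card + 2)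
    (hnew : ∀ S ⊆ E, ¬ Jn A (S.sup id ⊔ p))
    (hsmall : ∀ w, Jn A w → ¬ Jn A (w ⊔ p) → 2 * rk (w ⊔ p) < rk (A.sup id) →
      ∃ S ⊆ E, w ⊔ p = S.sup id ⊔ p) : Pk (insert p A) := by
  classical
  have hjn : ∀ S : Finset L, jn p S = S.sup id ⊔ p := fun S => by rw [jn, sup_comm]
  have hpE : ¬ p ≤ E.sup id := by
    intro hle
    apply hnew E (Finset.Subset.refl _)
    rw [sup_eq_left.mpr hle]
    exact ⟨E, hEA, rfl⟩
  have hr1 : rk p = 1 := by
    have h1 := rk_covBy hp.bot_covBy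
    rw [rk_bot] at h1
    omega
  have hrt : rk (jn p E) = E.card + 1 := by
    rw [hjn, rk_sup_atom hp hpE, hEr]
  have hPG : PG (p, E) := ⟨hEat, by
    change rk (jn p E) = rk p + E.card
    omega⟩
  refine h.general hpA {(p, E)} (El (p, E)) (Fam.single hPG) ?_ ?_ ?_
  · intro q hq
    rw [Finset.mem_singleton.mp hq]
    change rk (A.sup id) ≤ rk p + rk (jn p E)
    omega
  · rintro z ⟨S, hS, rfl⟩
    change S ⊆ E at hS
    change ¬ Jn A (jn p S) ∧ ∃ w, Jn A w ∧ jn p S = w ⊔ p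
    rw [hjn]
    exact ⟨hnew S hS, S.sup id, ⟨S, hS.trans hEA, rfl⟩, rfl⟩
  · intro w hw h1 h2
    obtain ⟨S, hS, h3⟩ := hsmall w hw h1 h2
    exact ⟨S, hS, by rw [hjn, h3]⟩

end Pool.Agent.Helper19.TW
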