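import Mathlib

/-!
# Partitions of matroid complexes into intervals
-/

set_option autoImplicit false
set_option linter.unusedSectionVars false

namespace Pool.Agent.Helper19.TW

/-- The independent sets of a matroid are a disjoint union of intervals with bases as tops. -/
theorem exists_intervals {α : Type} [DecidableEq α] (E : Finset α) : ∀ (I : Finset α → Prop),
    (∀ S T, S ⊆ E → T ⊆ S → I S → I T) →
    (∀ S T, S ⊆ E → T ⊆ E → I S → I T → S.card < T.card → ∃ a ∈ T, a ∉ S ∧ I (insert a S)) →
    ∃ P : Finset (Finset α × Finset α),
      (∀ p ∈ P, p.1 ⊆ p.2 ∧ p.2 ⊆ E ∧ I p.2 ∧ ∀ S ⊆ E, I S → S.card ≤ p.2.card) ∧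
      (∀ S ⊆ E, I S → ∃ p ∈ P, p.1 ⊆ S ∧ S ⊆ p.2) ∧
      (∀ p ∈ P, ∀ q ∈ P, ∀ S, p.1 ⊆ S → S ⊆ p.2 → q.1 ⊆ S → S ⊆ q.2 → p = q) := by
  induction E using Finset.induction_on with
  | empty =>
    intro I _ _
    by_cases h : I ∅
    · refine ⟨{(∅, ∅)}, ?_, ?_, ?_⟩
      · intro p hp
        rw [Finset.mem_singleton.mp hp]
        refine ⟨Finset.Subset.refl _, Finset.Subset.refl _, h, ?_⟩
        intro S hS _
        rw [Finset.subset_empty.mp hS]
      · intro S hS _
        exact ⟨(∅, ∅), Finset.mem_singleton_self _, Finset.empty_subset S, hS⟩
      · intro p hp q hq _ _ _ _ _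
        rw [Finset.mem_singleton.mp hp, Finset.mem_singleton.mp hq]
    · refine ⟨∅, fun p hp => absurd hp (Finset.notMem_empty p), ?_,
        fun p hp => absurd hp (Finset.notMem_empty p)⟩
      intro S hS hI
      rw [Finset.subset_empty.mp hS] at hI
      exact absurd hI h
  | insert e E he ih =>
    intro I hd ha
    have hE : E ⊆ insert e E := Finset.subset_insert e E
    -- the deletion
    obtain ⟨P₁, h1a, h1b, h1c⟩ := ih I
      (fun S T hS hT hI => hd S T (hS.trans hE) hT hI)
      (fun S T hS hT hI hJ hc => ha S T (hS.trans hE) (hT.trans hE) hI hJ hc)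
    by_cases hl : ∃ S ⊆ E, I (insert e S)
    · by_cases hcl : ∀ S ⊆ E, I S → I (insert e S)
      · -- coloop
        refine ⟨P₁.image (fun p => (p.1, insert e p.2)), ?_, ?_, ?_⟩
        · intro p' hp'
          obtain ⟨p, hp, rfl⟩ := Finset.mem_image.mp hp'
          obtain ⟨k1, k2, k3, k4⟩ := h1a p hp
          refine ⟨k1.trans (Finset.subset_insert e _), Finset.insert_subset_insert e k2,
            hcl _ k2 k3, ?_⟩
          intro S hS hI
          have hep : e ∉ p.2 := fun h => he (k2 h)
          change S.card ≤ (insert e p.2).card
          rw [Finset.card_insert_of_notMem hep]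
          have h5 : S.erase e ⊆ E := by
            intro y hy
            rcases Finset.mem_insert.mp (hS (Finset.mem_of_mem_erase hy)) with h | h
            · exact absurd h (Finset.ne_of_mem_erase hy)
            · exact h
          have h6 := k4 (S.erase e) h5 (hd S _ hS (Finset.erase_subset e S) hI)
          have h7 := Finset.card_erase_add_one (s := S) (a := e)
          by_cases hes : e ∈ S
          · have := h7 hes
            omega
          · rw [Finset.erase_eq_of_notMem hes] at h6
            omega
        · intro S hS hI
          have h5 : S.erase e ⊆ E := by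
            intro y hy
            rcases Finset.mem_insert.mp (hS (Finset.mem_of_mem_erase hy)) with h | h
            · exact absurd h (Finset.ne_of_mem_erase hy)
            · exact h
          obtain ⟨p, hp, k1, k2⟩ := h1b (S.erase e) h5 (hd S _ hS (Finset.erase_subset e S) hI)
          refine ⟨_, Finset.mem_image_of_mem _ hp, k1.trans (Finset.erase_subset e S), ?_⟩
          intro y hy
          by_cases hye : y = e
          · rw [hye]; exact Finset.mem_insert_self e _
          · exact Finset.mem_insert_of_mem (k2 (Finset.mem_erase.mpr ⟨hye, hy⟩))
        · intro p' hp' q' hq' S k1 k2 k3 k4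
          obtain ⟨p, hp, rfl⟩ := Finset.mem_image.mp hp'
          obtain ⟨q, hq, rfl⟩ := Finset.mem_image.mp hq'
          have hep : e ∉ p.1 := fun h => he ((h1a p hp).2.1 ((h1a p hp).1 h))
          have heq : e ∉ q.1 := fun h => he ((h1a q hq).2.1 ((h1a q hq).1 h))
          have h := h1c p hp q hq (S.erase e) ?_ ?_ ?_ ?_
          · rw [h]
          · intro y hy
            exact Finset.mem_erase.mpr ⟨fun h => hep (h ▸ hy), k1 hy⟩
          · intro y hy
            rcases Finset.mem_insert.mp (k2 (Finset.mem_of_mem_erase hy)) with h | h
            · exact absurd h (Finset.ne_of_mem_erase hy)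
            · exact h
          · intro y hy
            exact Finset.mem_erase.mpr ⟨fun h => heq (h ▸ hy), k3 hy⟩
          · intro y hy
            rcases Finset.mem_insert.mp (k4 (Finset.mem_of_mem_erase hy)) with h | h
            · exact absurd h (Finset.ne_of_mem_erase hy)
            · exact h
      · -- neither loop nor coloop
        simp only [not_forall] at hcl
        obtain ⟨S₀, hS₀E, hS₀, hS₀n⟩ := hcl
        obtain ⟨S₁, hS₁E, hS₁⟩ := hl
        have hn : ∀ S ⊆ E, e ∉ S := fun S hS h => he (hS h)
        -- the contraction
        obtain ⟨P₂, h2a, h2b, h2c⟩ := ih (fun S => I (insert e S))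
          (fun S T hS hT hI => hd (insert e S) (insert e T) (Finset.insert_subset_insert e hS)
            (Finset.insert_subset_insert e hT) hI)
          (by
            intro S T hS hT hI hJ hc
            obtain ⟨a, ha1, ha2, ha3⟩ := ha (insert e S) (insert e T)
              (Finset.insert_subset_insert e hS) (Finset.insert_subset_insert e hT) hI hJ (by
                rw [Finset.card_insert_of_notMem (hn S hS),
                  Finset.card_insert_of_notMem (hn T hT)]
                omega)
            rw [Finset.mem_insert, not_or] at ha2
            refine ⟨a, ?_, ha2.2, ?_⟩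
            · rcases Finset.mem_insert.mp ha1 with h | h
              · exact absurd h ha2.1
              · exact h
            · rwa [Finset.insert_comm])
        -- extension of an independent set of the deletion to a basis of the deletion
        have hext : ∀ (k : ℕ) (T B : Finset α), T ⊆ E → B ⊆ E → I T → I B → B.card ≤ T.card + k →
            ∃ B' : Finset α, T ⊆ B' ∧ B' ⊆ E ∧ I B' ∧ B.card ≤ B'.card := by
          intro k
          induction k with
          | zero =>
            intro T B hT hB hIT hIB hc
            exact ⟨T, Finset.Subset.refl T, hT, hIT, by omega⟩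
          | succ k ihk =>
            intro T B hT hB hIT hIB hc
            by_cases hlt : T.card < B.card
            · obtain ⟨a, ha1, ha2, ha3⟩ := ha T B (hT.trans hE) (hB.trans hE) hIT hIB hlt
              obtain ⟨B', h1, h2, h3, h4⟩ := ihk (insert a T) B
                (Finset.insert_subset (hB ha1) hT) hB ha3 hIB (by
                  rw [Finset.card_insert_of_notMem ha2]
                  omega)
              exact ⟨B', (Finset.subset_insert a T).trans h1, h2, h3, h4⟩
            · exact ⟨T, Finset.Subset.refl T, hT, hIT, by omega⟩
        -- bases of the deletion are bases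
        have hdel : ∀ B ⊆ E, I B → (∀ S ⊆ E, I S → S.card ≤ B.card) →
            ∀ S ⊆ insert e E, I S → S.card ≤ B.card := by
          intro B hB hIB hmax S hS hIS
          by_contra hc'
          have hc := not_le.mp hc'
          obtain ⟨B', h1, h2, h3, h4⟩ := hext B.card S₀ B hS₀E hB hS₀ hIB (by omega)
          have h5 : B'.card = B.card := le_antisymm (hmax B' h2 h3) h4
          obtain ⟨a, ha1, ha2, ha3⟩ := ha B' S (h2.trans hE) hS h3 hIS (by omega)
          rcases Finset.mem_insert.mp (hS ha1) with h | h
          · rw [h] at ha3
            exact hS₀n (hd _ _ (Finset.insert_subset_insert e h2)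
              (Finset.insert_subset_insert e h1) ha3)
          · have h6 := hmax (insert a B') (Finset.insert_subset h h2) ha3
            rw [Finset.card_insert_of_notMem ha2] at h6
            omega
        have hcon : ∀ B ⊆ E, I (insert e B) → (∀ S ⊆ E, I (insert e S) → S.card ≤ B.card) →
            ∀ S ⊆ insert e E, I S → S.card ≤ (insert e B).card := by
          intro B hB hIB hmax S hS hIS
          by_contra hc'
          have hc := not_le.mp hc'
          obtain ⟨a, ha1, ha2, ha3⟩ := ha (insert e B) S (Finset.insert_subset_insert e hB) hS
            hIB hIS hc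
          rw [Finset.mem_insert, not_or] at ha2
          have haE : a ∈ E := by
            rcases Finset.mem_insert.mp (hS ha1) with h | h
            · exact absurd h ha2.1
            · exact h
          rw [Finset.insert_comm] at ha3
          have h6 := hmax (insert a B) (Finset.insert_subset haE hB) ha3
          rw [Finset.card_insert_of_notMem ha2.2] at h6
          omega
        refine ⟨P₁ ∪ P₂.image (fun p => (insert e p.1, insert e p.2)), ?_, ?_, ?_⟩
        · intro p' hp'
          rcases Finset.mem_union.mp hp' with hp | hp'
          · obtain ⟨k1, k2, k3, k4⟩ := h1a p' hp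
            exact ⟨k1, k2.trans hE, k3, hdel _ k2 k3 k4⟩
          · obtain ⟨p, hp, rfl⟩ := Finset.mem_image.mp hp'
            obtain ⟨k1, k2, k3, k4⟩ := h2a p hp
            exact ⟨Finset.insert_subset_insert e k1, Finset.insert_subset_insert e k2, k3,
              hcon _ k2 k3 k4⟩
        · intro S hS hI
          by_cases hes : e ∈ S
          · have h5 : S.erase e ⊆ E := by
              intro y hy
              rcases Finset.mem_insert.mp (hS (Finset.mem_of_mem_erase hy)) with h | h
              · exact absurd h (Finset.ne_of_mem_erase hy)
              · exact h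
            obtain ⟨p, hp, k1, k2⟩ := h2b (S.erase e) h5 (by
              change I (insert e (S.erase e))
              rwa [Finset.insert_erase hes])
            refine ⟨_, Finset.mem_union_right _ (Finset.mem_image_of_mem _ hp), ?_, ?_⟩
            · exact Finset.insert_subset hes (k1.trans (Finset.erase_subset e S))
            · rw [← Finset.insert_erase hes]
              exact Finset.insert_subset_insert e k2
          · have h5 : S ⊆ E := by
              intro y hy
              rcases Finset.mem_insert.mp (hS hy) with h | h
              · exact absurd (h ▸ hy) hes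
              · exact h
            obtain ⟨p, hp, k1, k2⟩ := h1b S h5 hI
            exact ⟨p, Finset.mem_union_left _ hp, k1, k2⟩
        · intro p' hp' q' hq' S k1 k2 k3 k4
          rcases Finset.mem_union.mp hp' with hp | hp <;>
            rcases Finset.mem_union.mp hq' with hq | hq
          · exact h1c p' hp q' hq S k1 k2 k3 k4
          · exfalso
            obtain ⟨q, hq, rfl⟩ := Finset.mem_image.mp hq
            exact he ((h1a p' hp).2.1 (k2 (k3 (Finset.mem_insert_self e q.1))))
          · exfalso
            obtain ⟨p, hp, rfl⟩ := Finset.mem_image.mp hp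
            exact he ((h1a q' hq).2.1 (k4 (k1 (Finset.mem_insert_self e p.1))))
          · obtain ⟨p, hp2, rfl⟩ := Finset.mem_image.mp hp
            obtain ⟨q, hq2, rfl⟩ := Finset.mem_image.mp hq
            have hep : e ∉ p.1 := fun h => he ((h2a p hp2).2.1 ((h2a p hp2).1 h))
            have heq : e ∉ q.1 := fun h => he ((h2a q hq2).2.1 ((h2a q hq2).1 h))
            have h := h2c p hp2 q hq2 (S.erase e) ?_ ?_ ?_ ?_
            · rw [h]
            · intro y hy
              exact Finset.mem_erase.mpr ⟨fun h => hep (h ▸ hy), k1 (Finset.mem_insert_of_mem hy)⟩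
            · intro y hy
              rcases Finset.mem_insert.mp (k2 (Finset.mem_of_mem_erase hy)) with h | h
              · exact absurd h (Finset.ne_of_mem_erase hy)
              · exact h
            · intro y hy
              exact Finset.mem_erase.mpr ⟨fun h => heq (h ▸ hy), k3 (Finset.mem_insert_of_mem hy)⟩
            · intro y hy
              rcases Finset.mem_insert.mp (k4 (Finset.mem_of_mem_erase hy)) with h | h
              · exact absurd h (Finset.ne_of_mem_erase hy)
              · exact h
    · -- loop
      have hl := fun S (h1 : S ⊆ E) (h2 : I (insert e S)) => hl ⟨S, h1, h2⟩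
      have hsub : ∀ S ⊆ insert e E, I S → S ⊆ E := by
        intro S hS hI y hy
        rcases Finset.mem_insert.mp (hS hy) with h | h
        · exfalso
          apply hl (S.erase e)
          · intro w hw
            rcases Finset.mem_insert.mp (hS (Finset.mem_of_mem_erase hw)) with h' | h'
            · exact absurd h' (Finset.ne_of_mem_erase hw)
            · exact h'
          · rw [Finset.insert_erase (h ▸ hy)]
            exact hI
        · exact h
      refine ⟨P₁, ?_, ?_, h1c⟩
      · intro p hp
        obtain ⟨k1, k2, k3, k4⟩ := h1a p hp
        exact ⟨k1, k2.trans hE, k3, fun S hS hI => k4 S (hsub S hS hI) hI⟩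
      · intro S hS hI
        exact h1b S (hsub S hS hI) hI

end Pool.Agent.Helper19.TW
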