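import Pool.Agent.Helper19.TW.Peel
import Pool.Agent.Helper19.TW.Mat

/-!
# One-element extensions with unique covers
-/

set_option autoImplicit false
set_option linter.unusedSectionVars false

namespace Pool.Agent.Helper19.TW

open Pool.Agent.Helper28.BPack

variable {L : Type} [Lattice L] [BoundedOrder L] [Finite L] [IsUpperModularLattice L]

theorem new_inj {A : Finset L} {p : L} (hp : IsAtom p) {u v : L} (hu : Jn A u) (hv : Jn A v)
    (hnu : ¬ Jn A (u ⊔ p)) (huv : u ⊔ p = v ⊔ p) : u = v := by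
  have key : ∀ u v : L, Jn A u → Jn A v → ¬ Jn A (u ⊔ p) → u ⊔ p = v ⊔ p → v ≤ u := by
    intro u v hu hv hnu huv
    have hpu : ¬ p ≤ u := fun h => hnu (by rwa [sup_eq_left.mpr h])
    by_contra hc
    have h2 := covBy_sup_atom hp hpu
    have h3 : u < u ⊔ v := lt_of_le_of_ne le_sup_left (fun hh => hc (hh ▸ le_sup_right))
    have h4 : u ⊔ v ≤ u ⊔ p := sup_le le_sup_left (huv ▸ le_sup_left)
    rcases h4.lt_or_eq with h5 | h5
    · exact h2.2 h3 h5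
    · exact hnu (h5 ▸ hu.sup hv)
  exact le_antisymm (key v u hv hu (huv ▸ hnu) huv.symm) (key u v hu hv hnu huv)

/-- The new elements over a piece. -/
theorem uniq_piece [DecidableEq L] {A : Finset L} {p : L} (hp : IsAtom p)
    (huniq : ∀ w z z', Jn A w → ¬ Jn A (w ⊔ p) → Jn A z → Jn A z' → (w ⊔ p) ⋖ z →
      (w ⊔ p) ⋖ z' → z = z') {q : L × Finset L} (hq : PG q) (hJ : ∀ z, El q z → Jn A z) :
    ∃ G : Finset (L × Finset L),
      Fam G (fun z => ∃ S ⊆ q.2, ¬ Jn A (jn q.1 S ⊔ p) ∧ z = jn q.1 S ⊔ p) ∧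
      ∀ g ∈ G, rk q.1 + 1 ≤ rk g.1 ∧ rk (jn q.1 q.2) ≤ rk (jn g.1 g.2) + 1 := by
  classical
  obtain ⟨x, E⟩ := q
  have hJ' : ∀ S ⊆ E, Jn A (jn x S) := fun S hS => hJ _ ⟨S, hS, rfl⟩
  have hpn : ∀ S ⊆ E, ¬ Jn A (jn x S ⊔ p) → ¬ p ≤ jn x S := by
    intro S hS hI hle
    rw [sup_eq_left.mpr hle] at hI
    exact hI (hJ' S hS)
  have hrk : ∀ S ⊆ E, ¬ Jn A (jn x S ⊔ p) → rk (jn x S ⊔ p) = rk x + S.card + 1 := by
    intro S hS hI
    rw [rk_sup_atom hp (hpn S hS hI)]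
    have := hq.sub hS
    change rk (jn x S) = rk x + S.card at this
    rw [this]
  have hins : ∀ (a : L) (S : Finset L), jn x (insert a S) ⊔ p = (jn x S ⊔ p) ⊔ a := by
    intro a S
    rw [jn_insert', sup_right_comm]
  -- covers of a new element
  have hcov : ∀ S ⊆ E, ¬ Jn A (jn x S ⊔ p) → ∀ a ∈ E, Jn A (jn x (insert a S) ⊔ p) →
      (jn x S ⊔ p) ⋖ (jn x (insert a S) ⊔ p) := by
    intro S hS hI a haE hj
    rw [hins] at hj ⊢
    apply covBy_sup_atom (hq.1 a haE)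
    intro hle
    rw [sup_eq_left.mpr hle] at hj
    exact hI hj
  -- all covers agree
  have hall : ∀ S ⊆ E, ¬ Jn A (jn x S ⊔ p) → ∀ T ⊆ E, (∀ a ∈ T, a ∉ S →
      Jn A (jn x (insert a S) ⊔ p)) → T ⊆ S ∨
      ∃ z, Jn A z ∧ rk z = rk x + S.card + 2 ∧ jn x S ⊔ p ≤ z ∧ ∀ a ∈ T, a ≤ z := by
    intro S hS hI T hT hbad
    by_cases hTS : T ⊆ S
    · exact Or.inl hTS
    · right
      obtain ⟨a₀, ha₀T, ha₀S⟩ := Finset.not_subset.mp hTS
      have hc0 := hcov S hS hI a₀ (hT ha₀T) (hbad a₀ ha₀T ha₀S)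
      refine ⟨_, hbad a₀ ha₀T ha₀S, ?_, hc0.le, ?_⟩
      · rw [rk_covBy hc0, hrk S hS hI]
      · intro a haT
        by_cases haS : a ∈ S
        · exact ((mem_le_jn x haS).trans le_sup_left).trans hc0.le
        · have hc1 := hcov S hS hI a (hT haT) (hbad a haT haS)
          have h := huniq (jn x S) _ _ (hJ' S hS) hI (hbad a₀ ha₀T ha₀S) (hbad a haT haS) hc0 hc1
          rw [h]
          exact (mem_le_jn x (Finset.mem_insert_self a S)).trans le_sup_left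
  obtain ⟨P, hPa, hPb, hPc⟩ := exists_intervals E (fun S => ¬ Jn A (jn x S ⊔ p))
    (by
      intro S T hS hTS hI hj
      apply hI
      have h1 : jn x S ⊔ p = (jn x T ⊔ p) ⊔ jn x S := by
        rw [sup_right_comm, sup_eq_right.mpr (jn_mono x hTS)]
      rw [h1]
      exact hj.sup (hJ' S hS))
    (by
      intro S T hS hT hI hIT hc
      by_contra hno
      have hbad : ∀ a ∈ T, a ∉ S → Jn A (jn x (insert a S) ⊔ p) := by
        intro a ha1 ha2
        by_contra h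
        exact hno ⟨a, ha1, ha2, h⟩
      rcases hall S hS hI T hT hbad with h | ⟨z, hz, hrz, hSz, hTz⟩
      · have := Finset.card_le_card h
        omega
      · have h1 : jn x T ⊔ p ≤ z := by
          refine sup_le (sup_le ?_ ?_) (le_sup_right.trans hSz)
          · exact ((le_jn x S).trans le_sup_left).trans hSz
          · exact Finset.sup_le hTz
        have h2 : jn x T ⊔ p = z := by
          apply eq_of_le_of_rk h1
          rw [hrz, hrk T hT hIT]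
          omega
        exact hIT (h2 ▸ hz))
  -- the tops are large
  have hbig : ∀ pr ∈ P, E.card ≤ pr.2.card + 2 := by
    intro pr hpr
    obtain ⟨-, k2, k3, k4⟩ := hPa pr hpr
    have hbad : ∀ a ∈ E, a ∉ pr.2 → Jn A (jn x (insert a pr.2) ⊔ p) := by
      intro a ha1 ha2
      by_contra h
      have h1 := k4 (insert a pr.2) (Finset.insert_subset ha1 k2) h
      rw [Finset.card_insert_of_notMem ha2] at h1
      omega
    rcases hall pr.2 k2 k3 E (Finset.Subset.refl E) hbad with h | ⟨z, hz, hrz, hSz, hTz⟩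
    · have := Finset.card_le_card h
      omega
    · have h1 : jn x E ≤ z := by
        refine sup_le ?_ (Finset.sup_le hTz)
        exact ((le_jn x pr.2).trans le_sup_left).trans hSz
      have h2 := rk_mono h1
      have h3 : rk (jn x E) = rk x + E.card := hq.2
      omega
  -- the pieces
  let g : Finset L × Finset L → L × Finset L := fun pr => (jn x pr.1 ⊔ p, pr.2 \ pr.1)
  have hgj : ∀ (R S : Finset L), jn (jn x R ⊔ p) S = jn x (R ∪ S) ⊔ p := by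
    intro R S
    rw [jn_sup, jn_jn]
  have hEl : ∀ pr ∈ P, ∀ z, El (g pr) z ↔ ∃ S, pr.1 ⊆ S ∧ S ⊆ pr.2 ∧ z = jn x S ⊔ p := by
    intro pr hpr z
    obtain ⟨k1, k2, k3, k4⟩ := hPa pr hpr
    constructor
    · rintro ⟨S, hS, rfl⟩
      change S ⊆ pr.2 \ pr.1 at hS
      exact ⟨pr.1 ∪ S, Finset.subset_union_left,
        Finset.union_subset k1 (hS.trans Finset.sdiff_subset), hgj pr.1 S⟩
    · rintro ⟨S, hS1, hS2, rfl⟩
      refine ⟨S \ pr.1, Finset.sdiff_subset_sdiff hS2 (Finset.Subset.refl _), ?_⟩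
      change jn (jn x pr.1 ⊔ p) (S \ pr.1) = jn x S ⊔ p
      rw [hgj, Finset.union_sdiff_of_subset hS1]
  have hdn : ∀ pr ∈ P, ∀ S ⊆ pr.2, S ⊆ E ∧ ¬ Jn A (jn x S ⊔ p) := by
    intro pr hpr S hS
    obtain ⟨k1, k2, k3, k4⟩ := hPa pr hpr
    refine ⟨hS.trans k2, fun hj => k3 ?_⟩
    have h1 : jn x pr.2 ⊔ p = (jn x S ⊔ p) ⊔ jn x pr.2 := by
      rw [sup_right_comm, sup_eq_right.mpr (jn_mono x hS)]
    change Jn A (jn x pr.2 ⊔ p)
    rw [h1]
    exact hj.sup (hJ' pr.2 k2)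
  have hPG : ∀ pr ∈ P, PG (g pr) ∧ rk (g pr).1 = rk x + pr.1.card + 1 ∧
      rk (jn (g pr).1 (g pr).2) = rk x + pr.2.card + 1 := by
    intro pr hpr
    obtain ⟨k1, k2, k3, k4⟩ := hPa pr hpr
    have e1 : rk (g pr).1 = rk x + pr.1.card + 1 :=
      hrk pr.1 (k1.trans k2) (hdn pr hpr pr.1 k1).2
    have e2 : rk (jn (g pr).1 (g pr).2) = rk x + pr.2.card + 1 := by
      change rk (jn (jn x pr.1 ⊔ p) (pr.2 \ pr.1)) = _
      rw [hgj, Finset.union_sdiff_of_subset k1]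
      exact hrk pr.2 k2 k3
    refine ⟨⟨?_, ?_⟩, e1, e2⟩
    · intro a ha
      exact hq.1 a (k2 (Finset.mem_sdiff.mp ha).1)
    · rw [e1, e2]
      change _ = rk x + pr.1.card + 1 + (pr.2 \ pr.1).card
      rw [Finset.card_sdiff_of_subset k1]
      have := Finset.card_le_card k1
      omega
  have hinj : ∀ S ⊆ E, ∀ T ⊆ E, ¬ Jn A (jn x S ⊔ p) → jn x S ⊔ p = jn x T ⊔ p → S = T := by
    intro S hS T hT hI h
    exact hq.inj hS hT (new_inj hp (hJ' S hS) (hJ' T hT) hI h)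
  refine ⟨P.image g, ⟨?_, ?_, ?_⟩, ?_⟩
  · intro q' hq'
    obtain ⟨pr, hpr, rfl⟩ := Finset.mem_image.mp hq'
    exact (hPG pr hpr).1
  · intro z
    constructor
    · rintro ⟨S, hS, hI, rfl⟩
      obtain ⟨pr, hpr, h1, h2⟩ := hPb S hS hI
      exact ⟨g pr, Finset.mem_image_of_mem _ hpr, (hEl pr hpr _).mpr ⟨S, h1, h2, rfl⟩⟩
    · rintro ⟨q', hq', hz⟩
      obtain ⟨pr, hpr, rfl⟩ := Finset.mem_image.mp hq'
      obtain ⟨S, h1, h2, rfl⟩ := (hEl pr hpr z).mp hz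
      exact ⟨S, (hdn pr hpr S h2).1, (hdn pr hpr S h2).2, rfl⟩
  · intro q₁ hq₁ q₂ hq₂ z hz₁ hz₂
    obtain ⟨p₁, hp₁, rfl⟩ := Finset.mem_image.mp hq₁
    obtain ⟨p₂, hp₂, rfl⟩ := Finset.mem_image.mp hq₂
    obtain ⟨S₁, a1, a2, e₁⟩ := (hEl p₁ hp₁ z).mp hz₁
    obtain ⟨S₂, b1, b2, e₂⟩ := (hEl p₂ hp₂ z).mp hz₂
    have h := hinj S₁ (hdn p₁ hp₁ S₁ a2).1 S₂ (hdn p₂ hp₂ S₂ b2).1 (hdn p₁ hp₁ S₁ a2).2
      (e₁.symm.trans e₂)
    subst h
    rw [hPc p₁ hp₁ p₂ hp₂ S₁ a1 a2 b1 b2]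
  · intro g' hg'
    obtain ⟨pr, hpr, rfl⟩ := Finset.mem_image.mp hg'
    obtain ⟨-, e1, e2⟩ := hPG pr hpr
    have h1 := hbig pr hpr
    have h3 : rk (jn x E) = rk x + E.card := hq.2
    rw [e1, e2]
    change rk x + 1 ≤ _ ∧ rk (jn x E) ≤ _
    omega

/-- One-element extensions in which every new element is covered by at most one old element. -/
theorem Pk.uniq [DecidableEq L] {A : Finset L} {p : L} (h : Pk A) (hp : IsAtom p)
    (huniq : ∀ w z z', Jn A w → ¬ Jn A (w ⊔ p) → Jn A z → Jn A z' → (w ⊔ p) ⋖ z →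
      (w ⊔ p) ⋖ z' → z = z') : Pk (insert p A) := by
  classical
  by_cases hpA : p ≤ A.sup id
  · obtain ⟨Q, hQ, hq⟩ := id h
    have hG := fun (q : L × Finset L) (hqQ : q ∈ Q) => uniq_piece hp huniq (hQ.pg q hqQ)
      (fun z hz => (hQ.cov z).mpr ⟨q, hqQ, hz⟩)
    choose! G hGF hGr using hG
    have hfam := Fam.biUnion Q G _ hGF (by
      rintro q hqQ q' hq'Q z ⟨S, hS, hI, rfl⟩ ⟨S', hS', hI', he⟩
      have h1 : jn q.1 S = jn q'.1 S' := new_inj hp ((hQ.cov _).mpr ⟨q, hqQ, S, hS, rfl⟩)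
        ((hQ.cov _).mpr ⟨q', hq'Q, S', hS', rfl⟩) hI he
      exact hQ.dis q hqQ q' hq'Q _ ⟨S, hS, rfl⟩ ⟨S', hS', h1.symm⟩)
    refine h.general hpA _ _ hfam ?_ ?_ ?_
    · intro g hg
      obtain ⟨q, hqQ, hgq⟩ := Finset.mem_biUnion.mp hg
      have h1 := hGr q hqQ g hgq
      have h2 := hq q hqQ
      omega
    · rintro z ⟨q, hqQ, S, hS, hI, rfl⟩
      exact ⟨hI, jn q.1 S, (hQ.cov _).mpr ⟨q, hqQ, S, hS, rfl⟩, rfl⟩
    · intro w hw hn _
      obtain ⟨q, hqQ, S, hS, rfl⟩ := (hQ.cov w).mp hw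
      exact ⟨q, hqQ, S, hS, hn, rfl⟩
  · exact h.coloop hp hpA

end Pool.Agent.Helper19.TW
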