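import Pool.Agent.Helper19.TW.Base
import Pool.Agent.Helper19.TW.Peel
import Pool.Agent.Helper19.TW.Uniq
import Pool.Agent.Helper50.TW.Trunc
import Pool.Agent.Helper28.BPack.Frame
import Pool.Agent.Helper72.MB.Pack

/-!
# Transport, modular lattices, jointed frames, towers
-/

set_option autoImplicit false
set_option linter.unusedSectionVars false

namespace Pool.Agent.Helper19.TW

open Pool.Agent.Helper28.BPack

/-- Boolean packings are invariant under isomorphism. -/
theorem BooleanPacking.of_iso {P P' : Type} [PartialOrder P] [PartialOrder P'] (e : P ≃o P')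
    {one : P} (h : BooleanPacking P one) : BooleanPacking P' (e one) := by
  obtain ⟨t, n, φ, h1, h2, h3, h4⟩ := h
  refine ⟨t, n, fun i S => e (φ i S), ?_, ?_, ?_, ?_⟩
  · intro i S T hST
    exact h1 i (e.injective hST)
  · intro i a b hab
    exact (apply_covBy_apply_iff e).mpr (h2 i a b hab)
  · intro i
    change Order.height (e one) ≤ Order.height (e (φ i ⊥)) + Order.height (e (φ i ⊤))
    rw [Order.height_orderIso, Order.height_orderIso, Order.height_orderIso]
    exact h3 i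
  · intro x
    obtain ⟨p, hp, hu⟩ := h4 (e.symm x)
    refine ⟨p, ?_, ?_⟩
    · change e (φ p.1 p.2) = x
      rw [hp, OrderIso.apply_symm_apply]
    · intro q hq
      apply hu
      change e (φ q.1 q.2) = x at hq
      rw [← hq, OrderIso.symm_apply_apply]

/-- From families of pieces to packings of truncations. -/
theorem pk_trunc {L : Type} [Lattice L] [BoundedOrder L] [Fintype L] [IsUpperModularLattice L]
    (hat : ∀ x : L, ∃ s : Finset L, (∀ a ∈ s, IsAtom a) ∧ s.sup id = x)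
    {A : Finset L} (h : Pk A) (hA : ∀ a, IsAtom a → a ∈ A) (r : ℕ) (hr : 1 ≤ r) :
    BooleanPacking {x : L // Order.height x < (r : ℕ∞) ∨ x = ⊤} ⟨⊤, Or.inr rfl⟩ := by
  obtain ⟨Q, hQ, hq⟩ := h
  have hJ : ∀ z : L, Jn A z := by
    intro z
    obtain ⟨s, hs, hsz⟩ := hat z
    exact ⟨s, fun a ha => hA a (hs a ha), hsz⟩
  have htop : A.sup id = ⊤ := le_antisymm le_top (hJ ⊤).le
  rw [htop] at hq
  have hQ' : Fam Q (fun _ => True) := hQ.congr (fun z => ⟨fun _ => trivial, fun _ => hJ z⟩)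
  exact Pool.Agent.Helper50.TW.trunc_packing Q hQ' hq r hr

/-- From families of pieces to packings. -/
theorem pk_packing {L : Type} [Lattice L] [BoundedOrder L] [Fintype L] [IsUpperModularLattice L]
    (hat : ∀ x : L, ∃ s : Finset L, (∀ a ∈ s, IsAtom a) ∧ s.sup id = x)
    {A : Finset L} (h : Pk A) (hA : ∀ a, IsAtom a → a ∈ A) : BooleanPacking L ⊤ := by
  have h1 := pk_trunc hat h hA (rk (⊤ : L) + 1) (by omega)
  have hall : ∀ x : L, Order.height x < ((rk (⊤ : L) + 1 : ℕ) : ℕ∞) ∨ x = ⊤ := by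
    intro x
    left
    rw [← coe_rk]
    have h2 : rk x ≤ rk (⊤ : L) := rk_mono le_top
    exact_mod_cast Nat.lt_succ_of_le h2
  let e : {x : L // Order.height x < ((rk (⊤ : L) + 1 : ℕ) : ℕ∞) ∨ x = ⊤} ≃o L :=
    { toFun := fun x => x.1
      invFun := fun x => ⟨x, hall x⟩
      left_inv := fun x => rfl
      right_inv := fun x => rfl
      map_rel_iff' := Iff.rfl }
  exact h1.of_iso e

/-- From packings to families of pieces. -/
theorem pk_of_packing {L : Type} [Lattice L] [BoundedOrder L] [Fintype L]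
    [IsUpperModularLattice L]
    (hat : ∀ x : L, ∃ s : Finset L, (∀ a ∈ s, IsAtom a) ∧ s.sup id = x)
    (h : BooleanPacking L ⊤) (A : Finset L) (hA : ∀ a, a ∈ A ↔ IsAtom a) : Pk A := by
  refine Pk.base hat h id rfl (fun _ _ => rfl) Function.injective_id A ?_ ?_
  · intro a
    rw [hA]
    exact ⟨fun h => ⟨a, h, rfl⟩, fun ⟨b, hb, hab⟩ => hab ▸ hb⟩
  · exact fun a ha => (hA a).mp ha

/-- The class is closed under truncation. -/
theorem trunc_closed {L : Type} [Lattice L] [BoundedOrder L] [Fintype L]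
    [IsUpperModularLattice L]
    (hat : ∀ x : L, ∃ s : Finset L, (∀ a ∈ s, IsAtom a) ∧ s.sup id = x)
    (h : BooleanPacking L ⊤) (r : ℕ) (hr : 1 ≤ r) :
    BooleanPacking {x : L // Order.height x < (r : ℕ∞) ∨ x = ⊤} ⟨⊤, Or.inr rfl⟩ := by
  classical
  exact pk_trunc hat (pk_of_packing hat h (Finset.univ.filter IsAtom) (by simp)) (by simp) r hr

/-- One-element extensions. -/
theorem ext_closed {K L : Type} [Lattice K] [BoundedOrder K] [Fintype K]
    [IsUpperModularLattice K] [Lattice L] [BoundedOrder L] [Fintype L]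
    [IsUpperModularLattice L]
    (hK : ∀ x : K, ∃ s : Finset K, (∀ a ∈ s, IsAtom a) ∧ s.sup id = x)
    (hL : ∀ x : L, ∃ s : Finset L, (∀ a ∈ s, IsAtom a) ∧ s.sup id = x)
    (hP : BooleanPacking K ⊤) (p : L) (hp : IsAtom p) (j : K → L) (hj0 : j ⊥ = ⊥)
    (hjs : ∀ x y, j (x ⊔ y) = j x ⊔ j y) (hji : Function.Injective j)
    (hj : ∀ a, (∃ b, IsAtom b ∧ j b = a) ↔ IsAtom a ∧ a ≠ p)
    (h : (∀ v : L, (∀ z, j z ≠ v) → ∀ z z', v ⋖ j z → v ⋖ j z' → z = z') ∨
      (p ≤ j ⊤ ∧ ∃ F : L,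
        (∀ w, Order.height (j w) + 2 ≤ Order.height (F ⊔ j w) →
          ¬ p ≤ j w ∧ ∀ z, j z ≠ j w ⊔ p) ∧
        (∀ w, ¬ p ≤ j w → Order.height (F ⊔ j w) ≤ Order.height (j w) + 1 →
          2 * (Order.height (j w) + 1) < Order.height (⊤ : L) → ∃ z, j z = j w ⊔ p)) ∨
      (p ≤ j ⊤ ∧ ∃ E : Finset K, (∀ a ∈ E, IsAtom a) ∧ Order.height (E.sup id) = E.card ∧
        Order.height (⊤ : L) ≤ E.card + 2 ∧
        (∀ S ⊆ E, ∀ z, j z ≠ j (S.sup id) ⊔ p) ∧
        (∀ w, (∀ z, j z ≠ j w ⊔ p) → 2 * Order.height (j w ⊔ p) < Order.height (⊤ : L) →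
          ∃ S ⊆ E, j w ⊔ p = j (S.sup id) ⊔ p))) :
    BooleanPacking L ⊤ := by
  classical
  let A : Finset L := Finset.univ.filter (fun a => IsAtom a ∧ a ≠ p)
  have hA : ∀ a, a ∈ A ↔ ∃ b, IsAtom b ∧ j b = a := by
    intro a
    rw [hj]
    simp [A]
  have hAt : ∀ a ∈ A, IsAtom a := fun a ha => (Finset.mem_filter.mp ha).2.1
  have hPk : Pk A := Pk.base hK hP j hj0 hjs hji A hA hAt
  have hJ : ∀ w : K, Jn A (j w) := by
    intro w
    obtain ⟨s, hs, rfl⟩ := hK w
    refine ⟨s.image j, ?_, ?_⟩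
    · intro y hy
      obtain ⟨b, hb, rfl⟩ := Finset.mem_image.mp hy
      exact (hA _).mpr ⟨b, hs b hb, rfl⟩
    · rw [map_sup j hj0 hjs, Finset.sup_image]
      rfl
  have hJ' : ∀ z : L, Jn A z → ∃ w, j w = z := by
    rintro z ⟨S, hS, rfl⟩
    induction S using Finset.induction_on with
    | empty => exact ⟨⊥, by simpa using hj0⟩
    | insert y S _ ih =>
      obtain ⟨w, hw⟩ := ih ((Finset.subset_insert y S).trans hS)
      obtain ⟨b, -, hb⟩ := (hA y).mp (hS (Finset.mem_insert_self y S))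
      exact ⟨b ⊔ w, by rw [hjs, hb, hw, Finset.sup_insert, id]⟩
  have htop : A.sup id = j ⊤ := by
    apply le_antisymm
    · apply Finset.sup_le
      intro y hy
      obtain ⟨b, -, rfl⟩ := (hA y).mp hy
      exact (map_le j hjs hji).mpr le_top
    · exact (hJ ⊤).le
  have hall : ∀ a, IsAtom a → a ∈ insert p A := by
    intro a ha
    by_cases hap : a = p
    · rw [hap]; exact Finset.mem_insert_self p A
    · exact Finset.mem_insert_of_mem (Finset.mem_filter.mpr ⟨Finset.mem_univ a, ha, hap⟩)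
  have hjt : p ≤ j ⊤ → j ⊤ = ⊤ := by
    intro hpt
    apply le_antisymm le_top
    obtain ⟨s, hs, hst⟩ := hL ⊤
    rw [← hst]
    apply Finset.sup_le
    intro a ha
    rcases Finset.mem_insert.mp (hall a (hs a ha)) with h | h
    · rw [h]; exact hpt
    · rw [← htop]; exact Finset.le_sup (f := id) h
  apply pk_packing hL (A := insert p A) _ hall
  rcases h with h | ⟨hpt, F, h1, h2⟩ | ⟨hpt, E, hE1, hE2, hE3, hE4, hE5⟩
  · apply hPk.uniq hp
    intro w z z' _ hn hz hz' c c'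
    obtain ⟨u, rfl⟩ := hJ' z hz
    obtain ⟨u', rfl⟩ := hJ' z' hz'
    rw [h (w ⊔ p) (fun y hy => hn (hy ▸ hJ y)) u u' c c']
  · have hjt := hjt hpt
    apply hPk.step hp (by rwa [htop]) (F := F)
    · intro z hz hc
      obtain ⟨w, rfl⟩ := hJ' z hz
      have h3 := h1 w (by rw [← coe_rk, ← coe_rk]; exact_mod_cast hc)
      refine ⟨h3.1, fun hj3 => ?_⟩
      obtain ⟨v, hv⟩ := hJ' _ hj3
      exact h3.2 v hv
    · intro z hz hpz hc hs
      obtain ⟨w, rfl⟩ := hJ' z hz
      obtain ⟨v, hv⟩ := h2 w hpz (by rw [← coe_rk, ← coe_rk]; exact_mod_cast hc) (by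
        rw [htop, hjt] at hs
        rw [← coe_rk, ← coe_rk]
        exact_mod_cast hs)
      rw [← hv]
      exact hJ v
  · have hjt := hjt hpt
    have hja : ∀ b, IsAtom b → IsAtom (j b) := fun b hb => hAt _ ((hA _).mpr ⟨b, hb, rfl⟩)
    have hrk := rk_map hK j hj0 hjs hji hja
    have hsup : ∀ S : Finset K, (S.image j).sup id = j (S.sup id) := by
      intro S
      rw [map_sup j hj0 hjs, Finset.sup_image]
      rfl
    have hcard : (E.image j).card = E.card := Finset.card_image_of_injective _ hji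
    have hsub : ∀ T ⊆ E.image j, ∃ S ⊆ E, S.image j = T := by
      intro T hT
      exact Finset.subset_image_iff.mp hT
    apply hPk.peel hp (by rwa [htop]) (E.image j)
    · intro y hy
      obtain ⟨b, hb, rfl⟩ := Finset.mem_image.mp hy
      exact (hA _).mpr ⟨b, hE1 b hb, rfl⟩
    · intro y hy
      obtain ⟨b, hb, rfl⟩ := Finset.mem_image.mp hy
      exact hja b (hE1 b hb)
    · rw [hsup, hrk, hcard]
      rw [← coe_rk] at hE2
      exact_mod_cast hE2
    · rw [htop, hjt, hcard]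
      rw [← coe_rk] at hE3
      exact_mod_cast hE3
    · intro T hT hj3
      obtain ⟨S, hS, rfl⟩ := hsub T hT
      rw [hsup] at hj3
      obtain ⟨v, hv⟩ := hJ' _ hj3
      exact hE4 S hS v hv
    · intro z hz hn hs
      obtain ⟨w, rfl⟩ := hJ' z hz
      obtain ⟨S, hS, h3⟩ := hE5 w (fun v hv => hn (hv ▸ hJ v)) (by
        rw [htop, hjt] at hs
        rw [← coe_rk, ← coe_rk]
        exact_mod_cast hs)
      exact ⟨S.image j, Finset.image_subset_image hS, by rw [hsup, h3]⟩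

/-- Frame matroids with joints. -/
theorem frame_packing {L : Type} [Lattice L] [BoundedOrder L] [Fintype L]
    [IsUpperModularLattice L]
    (hat : ∀ x : L, ∃ s : Finset L, (∀ a ∈ s, IsAtom a) ∧ s.sup id = x)
    (B : Finset L) (hB : ∀ b ∈ B, IsAtom b) (hc : Order.height (⊤ : L) = B.card)
    (ht : B.sup id = ⊤) (hp : ∀ p : L, IsAtom p → ∃ b ∈ B, ∃ b' ∈ B, p ≤ b ⊔ b') :
    BooleanPacking L ⊤ := by
  have h1 : IsBase (⊥ : L) B := by
    refine ⟨hB, ?_, ?_⟩
    · rw [rk_bot, zero_add]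
      rw [← coe_rk] at hc
      exact_mod_cast hc
    · rw [bot_sup_eq, ht]
  refine (hasPack_frame hat h1 ?_).to_packing
  intro p hpa
  obtain ⟨b, hb, b', hb', h2⟩ := hp p hpa
  exact ⟨b, hb, b', hb', by rwa [bot_sup_eq]⟩

end Pool.Agent.Helper19.TW
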