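import Pool.Agent.Helper19.TW.ChA
import Pool.Agent.Helper19.TW.Iso

/-!
# Bond lattices of chordal graphs: the pieces
-/

set_option autoImplicit false
set_option linter.unusedSectionVars false

namespace Pool.Agent.Helper19.TW

open Pool.Agent.Helper28.BPack

variable {L : Type} [Lattice L] [BoundedOrder L] [Finite L] [IsUpperModularLattice L]

/-- Cliques are chains over a piece, with respect to the depth `ρ`. -/
def Iv (W : ℕ → Finset ℕ) (e : ℕ → ℕ → L) (i : ℕ) (q : L × Finset L) (ρ : ℕ → ℕ) : Prop :=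
  ∀ u v w : ℕ, u ≤ i → v ≤ i → w ≤ i → Ad W u v → Ad W u w → Ad W v w → ρ u ≤ ρ v → ρ v ≤ ρ w →
    Cn e (jn q.1 q.2) u v → Cn e (jn q.1 q.2) v w →
      ∀ S ⊆ q.2, Cn e (jn q.1 S) u w → Cn e (jn q.1 S) u v

namespace CG

variable {n : ℕ} {W : ℕ → Finset ℕ} {e : ℕ → ℕ → L}

/-- The new vertex takes the place of `a`. -/
def sg (i a u : ℕ) : ℕ := if u = i then a else u

theorem sg_le {i a u : ℕ} (ha : a ≤ i) (hu : u ≤ i + 1) : sg (i + 1) a u ≤ i := by
  unfold sg
  split_ifs with h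
  · exact ha
  · omega

theorem Ad_sg (hG : CG n W e) {i a u v : ℕ} (ha : a ∈ W (i + 1)) (hu : u ≤ i + 1)
    (hv : v ≤ i + 1) (h : Ad W u v) : Ad W (sg (i + 1) a u) (sg (i + 1) a v) := by
  unfold sg
  split_ifs with h1 h2 h2
  · exact Or.inl rfl
  · subst h1
    exact hG.Ad_of_mem ha (hG.mem_of_Ad h (by omega))
  · subst h2
    exact hG.Ad_of_mem (hG.mem_of_Ad h.symm (by omega)) ha
  · exact h

theorem Cn_sg (hG : CG n W e)
    (hat : ∀ x : L, ∃ s : Finset L, (∀ a ∈ s, IsAtom a) ∧ s.sup id = x) {i a : ℕ}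
    (hi : i + 1 ≤ n) (ha : a ∈ W (i + 1)) {h : L} (hh : h ≤ Lv W e i) {u v : ℕ}
    (huv : Ad W u v) (hu : u ≤ i + 1) (hv : v ≤ i + 1) :
    Cn e (h ⊔ e (i + 1) a) u v ↔ Cn e h (sg (i + 1) a u) (sg (i + 1) a v) := by
  unfold sg
  split_ifs with h1 h2 h2
  · subst h1
    subst h2
    exact ⟨fun _ => Cn.refl e h a, fun _ => Cn.refl e _ _⟩
  · subst h1
    exact hG.Cn_sup_new hat hi ha hh (hG.mem_of_Ad huv (by omega))
  · subst h2
    have h3 := hG.Cn_sup_new hat hi ha hh (hG.mem_of_Ad huv.symm (by omega))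
    exact ⟨fun hc => (h3.mp hc.symm).symm, fun hc => (h3.mpr hc.symm).symm⟩
  · exact hG.Cn_sup hat hi ha hh huv (by omega) (by omega)

/-- The invariant for the pieces above a new atom. -/
theorem Iv_new (hG : CG n W e) [DecidableEq L]
    (hat : ∀ x : L, ∃ s : Finset L, (∀ a ∈ s, IsAtom a) ∧ s.sup id = x) {i a : ℕ}
    (hi : i + 1 ≤ n) (ha : a ∈ W (i + 1)) {x : L} {E : Finset L} {ρ : ℕ → ℕ}
    (hE : jn x E ≤ Lv W e i) (hI : Iv W e i (x, E) ρ) {A E' : Finset L} (hA : A ⊆ E)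
    (hE' : E' ⊆ E) :
    Iv W e (i + 1) (jn x A ⊔ e (i + 1) a, E') (Function.update ρ (i + 1) (ρ a)) := by
  have hai := (hG.at1 _ _ ha).1
  have hρ : ∀ u, Function.update ρ (i + 1) (ρ a) u = ρ (sg (i + 1) a u) := by
    intro u
    unfold sg
    split_ifs with h
    · rw [h, Function.update_self]
    · rw [Function.update_of_ne h]
  have hj : ∀ S : Finset L, jn (jn x A ⊔ e (i + 1) a) S = jn x (A ∪ S) ⊔ e (i + 1) a := by
    intro S
    rw [jn_sup, jn_jn]
  have hle : ∀ S ⊆ E, jn x S ≤ Lv W e i := fun S hS => (jn_mono x hS).trans hE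
  have hAE : A ∪ E' ⊆ E := Finset.union_subset hA hE'
  intro u v w hu hv hw huv huw hvw h1 h2 c1 c2 S hS c3
  change Cn e (jn (jn x A ⊔ e (i + 1) a) E') u v at c1
  change Cn e (jn (jn x A ⊔ e (i + 1) a) E') v w at c2
  change Cn e (jn (jn x A ⊔ e (i + 1) a) S) u w at c3
  change S ⊆ E' at hS
  change Cn e (jn (jn x A ⊔ e (i + 1) a) S) u v
  have hAS : A ∪ S ⊆ E := Finset.union_subset hA (hS.trans hE')
  rw [hρ, hρ] at h1 h2
  rw [hj] at c1 c2 c3 ⊢
  rw [hG.Cn_sg hat hi ha (hle _ hAE) huv hu hv] at c1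
  rw [hG.Cn_sg hat hi ha (hle _ hAE) hvw hv hw] at c2
  rw [hG.Cn_sg hat hi ha (hle _ hAS) huw hu hw] at c3
  rw [hG.Cn_sg hat hi ha (hle _ hAS) huv hu hv]
  exact hI _ _ _ (sg_le (by omega) hu) (sg_le (by omega) hv) (sg_le (by omega) hw)
    (hG.Ad_sg ha hu hv huv) (hG.Ad_sg ha hu hw huw) (hG.Ad_sg ha hv hw hvw) h1 h2
    (c1.mono (jn_mono x hAE)) (c2.mono (jn_mono x hAE)) _ hAS c3

/-- The invariant for the doubled piece. -/
theorem Iv_ins (hG : CG n W e) [DecidableEq L]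
    (hat : ∀ x : L, ∃ s : Finset L, (∀ a ∈ s, IsAtom a) ∧ s.sup id = x) {i a N : ℕ}
    (hi : i + 1 ≤ n) (ha : a ∈ W (i + 1)) {x : L} {E : Finset L} {ρ : ℕ → ℕ}
    (hE : jn x E ≤ Lv W e i) (hI : Iv W e i (x, E) ρ)
    (hmax : ∀ w ∈ W (i + 1), ρ w ≤ ρ a) (hN : ∀ u ≤ i, ρ u < N) :
    Iv W e (i + 1) (x, insert (e (i + 1) a) E) (Function.update ρ (i + 1) N) := by
  have hai := (hG.at1 _ _ ha).1
  have hle : ∀ S ⊆ E, jn x S ≤ Lv W e i := fun S hS => (jn_mono x hS).trans hE
  have hins : ∀ S : Finset L, jn x (insert (e (i + 1) a) S) = jn x S ⊔ e (i + 1) a :=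
    fun S => jn_insert' x _ S
  -- old vertices
  have hold : ∀ u v, u ≤ i → v ≤ i → Ad W u v → ∀ S ⊆ insert (e (i + 1) a) E,
      (Cn e (jn x S) u v ↔ Cn e (jn x (S.erase (e (i + 1) a))) u v) := by
    intro u v hu hv huv S hS
    by_cases h : e (i + 1) a ∈ S
    · have h1 : jn x S = jn x (S.erase (e (i + 1) a)) ⊔ e (i + 1) a := by
        rw [← hins, Finset.insert_erase h]
      have h2 : S.erase (e (i + 1) a) ⊆ E := by
        intro y hy
        rcases Finset.mem_insert.mp (hS (Finset.mem_of_mem_erase hy)) with h' | h'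
        · exact absurd h' (Finset.ne_of_mem_erase hy)
        · exact h'
      rw [h1]
      exact hG.Cn_sup hat hi ha (hle _ h2) huv hu hv
    · rw [Finset.erase_eq_of_notMem h]
  have hEe : (insert (e (i + 1) a) E).erase (e (i + 1) a) ⊆ E := by
    intro y hy
    rcases Finset.mem_insert.mp (Finset.mem_of_mem_erase hy) with h' | h'
    · exact absurd h' (Finset.ne_of_mem_erase hy)
    · exact h'
  intro u v w hu hv hw huv huw hvw h1 h2 c1 c2 S hS c3
  change Cn e (jn x (insert (e (i + 1) a) E)) u v at c1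
  change Cn e (jn x (insert (e (i + 1) a) E)) v w at c2
  change Cn e (jn x S) u w at c3
  change S ⊆ insert (e (i + 1) a) E at hS
  change Cn e (jn x S) u v
  have hSe : S.erase (e (i + 1) a) ⊆ E := by
    intro y hy
    rcases Finset.mem_insert.mp (hS (Finset.mem_of_mem_erase hy)) with h' | h'
    · exact absurd h' (Finset.ne_of_mem_erase hy)
    · exact h'
  by_cases hui : u = i + 1
  · by_cases hvi : v = i + 1
    · rw [hui, hvi]
      exact Cn.refl e _ _
    · exfalso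
      rw [hui, Function.update_self, Function.update_of_ne hvi] at h1
      have := hN v (by omega)
      omega
  · by_cases hvi : v = i + 1
    · by_cases hwi : w = i + 1
      · rw [hvi, ← hwi]
        exact c3
      · exfalso
        rw [hvi, Function.update_self, Function.update_of_ne hwi] at h2
        have := hN w (by omega)
        omega
    · rw [Function.update_of_ne hui, Function.update_of_ne hvi] at h1
      have c1' : Cn e (jn x E) u v :=
        ((hold u v (by omega) (by omega) huv _ (Finset.Subset.refl _)).mp c1).mono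
          (jn_mono x hEe)
      by_cases hwi : w = i + 1
      · subst hwi
        have huW := hG.mem_of_Ad huw.symm (by omega)
        have hvW := hG.mem_of_Ad hvw.symm (by omega)
        have c2' : Cn e (jn x E) a v := by
          have h3 := c2.symm
          rw [hins] at h3
          exact (hG.Cn_sup_new hat hi ha hE hvW).mp h3
        by_cases heS : e (i + 1) a ∈ S
        · have h4 : jn x S = jn x (S.erase (e (i + 1) a)) ⊔ e (i + 1) a := by
            rw [← hins, Finset.insert_erase heS]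
          have c3' : Cn e (jn x (S.erase (e (i + 1) a))) a u := by
            have h3 := c3.symm
            rw [h4] at h3
            exact (hG.Cn_sup_new hat hi ha (hle _ hSe) huW).mp h3
          have h5 := hI u v a (by omega) (by omega) (by omega) huv (hG.Ad_of_mem huW ha)
            (hG.Ad_of_mem hvW ha) h1 (hmax v hvW) c1' c2'.symm _ hSe c3'.symm
          exact h5.mono (jn_mono x (Finset.erase_subset _ _))
        · exfalso
          have hSE : S ⊆ E := by
            intro y hy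
            rcases Finset.mem_insert.mp (hS hy) with h' | h'
            · exact absurd (h' ▸ hy) heS
            · exact h'
          rcases c3.symm with h3 | h3
          · exact hui h3.symm
          · rw [hG.Ed_self huW] at h3
            exact hG.not_le_Lv hat hi huW (h3.trans (hle S hSE))
      · rw [Function.update_of_ne hvi, Function.update_of_ne hwi] at h2
        have c2' : Cn e (jn x E) v w :=
          ((hold v w (by omega) (by omega) hvw _ (Finset.Subset.refl _)).mp c2).mono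
            (jn_mono x hEe)
        have c3' := (hold u w (by omega) (by omega) huw S hS).mp c3
        exact (hI u v w (by omega) (by omega) (by omega) huv huw hvw h1 h2 c1' c2' _ hSe c3').mono
          (jn_mono x (Finset.erase_subset _ _))

/-- The new elements with the deepest vertex `w`. -/
theorem piece_one (hG : CG n W e)
    (hat : ∀ x : L, ∃ s : Finset L, (∀ a ∈ s, IsAtom a) ∧ s.sup id = x) {i w : ℕ}
    (hi : i + 1 ≤ n) (hw : w ∈ W (i + 1)) {x : L} {E : Finset L} {ρ : ℕ → ℕ} (hP : PG (x, E))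
    (hE : jn x E ≤ Lv W e i) (hI : Iv W e i (x, E) ρ) (κ : ℕ → ℕ ×ₗ ℕ)
    (hκ : ∀ u, κ u = toLex (ρ u, u)) :
    ∃ G : Finset (L × Finset L),
      Fam G (fun z => ∃ S ⊆ E, z = jn x S ⊔ e (i + 1) w ∧
        ∀ w' ∈ W (i + 1), κ w < κ w' → ¬ Cn e (jn x S) w w') ∧
      ∀ g ∈ G, rk x + rk (jn x E) + 1 ≤ rk g.1 + rk (jn g.1 g.2) ∧
        ∃ ρ', Iv W e (i + 1) g ρ' := by
  classical
  have hwa := (hG.at1 _ _ hw).2
  have hwi := (hG.at1 _ _ hw).1
  have hle : ∀ S ⊆ E, jn x S ≤ Lv W e i := fun S hS => (jn_mono x hS).trans hE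
  have hnot : ∀ z ≤ Lv W e i, ¬ e (i + 1) w ≤ z := fun z hz h =>
    hG.not_le_Lv hat hi hw (h.trans hz)
  have hxL : x ≤ Lv W e i := (le_jn x E).trans hE
  by_cases hT : ∃ w' ∈ W (i + 1), κ w < κ w' ∧ Cn e (jn x E) w w'
  · -- the next deeper vertex
    obtain ⟨v, hv, hmin⟩ := Finset.exists_min_image
      ((W (i + 1)).filter (fun w' => κ w < κ w' ∧ Cn e (jn x E) w w')) κ (by
        obtain ⟨w', h1, h2, h3⟩ := hT
        exact ⟨w', Finset.mem_filter.mpr ⟨h1, h2, h3⟩⟩)
    obtain ⟨hvW, hvk, hvc⟩ := Finset.mem_filter.mp hv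
    have hwv : w ≠ v := by
      rintro rfl
      exact lt_irrefl _ hvk
    have hvi := (hG.at1 _ _ hvW).1
    have hAwv := hG.Ad_of_mem hw hvW
    have hcE : Ed e w v ≤ jn x E := hvc.resolve_left hwv
    have hca : IsAtom (Ed e w v) := (hG.at1 _ _ (hAwv.resolve_left hwv)).2
    have hcL : Ed e w v ≤ Lv W e i := hcE.trans hE
    have hCd : ∀ z ≤ Lv W e i, (Cd (e (i + 1) w ⊔ Ed e w v) z ↔ ¬ Ed e w v ≤ z) := by
      intro z hz
      unfold Cd
      have h1 : e (i + 1) w ⊔ Ed e w v ⊔ z = (z ⊔ Ed e w v) ⊔ e (i + 1) w := by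
        rw [sup_assoc, sup_comm (Ed e w v) z, sup_comm]
      rw [h1, rk_sup_atom hwa (hnot _ (sup_le hz hcL))]
      constructor
      · intro h2 h3
        rw [sup_eq_left.mpr h3] at h2
        omega
      · intro h2
        rw [rk_sup_atom hca h2]
    have hdeep : ∀ S ⊆ E, ((∀ w' ∈ W (i + 1), κ w < κ w' → ¬ Cn e (jn x S) w w') ↔
        ¬ Ed e w v ≤ jn x S) := by
      intro S hS
      constructor
      · intro h1 h2
        exact h1 v hvW hvk (Or.inr h2)
      · intro h1 w' hw' hk hc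
        have hcE' : Cn e (jn x E) w w' := hc.mono (jn_mono x hS)
        have h2 := hmin w' (Finset.mem_filter.mpr ⟨hw', hk, hcE'⟩)
        have hw'i := (hG.at1 _ _ hw').1
        have k1 : ρ w ≤ ρ v := by
          have := hvk.le
          rw [hκ, hκ, Prod.Lex.toLex_le_toLex] at this
          rcases this with h | ⟨h, -⟩
          · exact h.le
          · exact h.le
        have k2 : ρ v ≤ ρ w' := by
          rw [hκ, hκ, Prod.Lex.toLex_le_toLex] at h2
          rcases h2 with h | ⟨h, -⟩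
          · exact h.le
          · exact h.le
        have h3 := hI w v w' (by omega) (by omega) (by omega) hAwv (hG.Ad_of_mem hw hw')
          (hG.Ad_of_mem hvW hw') k1 k2 hvc
          (hG.Cn_trans hAwv.symm (hG.Ad_of_mem hvW hw') (hG.Ad_of_mem hw hw') hvc.symm hcE')
          S hS hc
        exact h1 (h3.resolve_left hwv)
    obtain ⟨Q1, hQ1, hq1⟩ := cut (e (i + 1) w ⊔ Ed e w v) E x hP
    have hQL : ∀ z, El (x, E) z → z ≤ Lv W e i := fun z hz => hz.le.trans hE
    have hsh := hQ1.shift hwa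
      (fun q hq h => by
        have h1 : El (x, E) (jn q.1 q.2) := ((hQ1.cov _).mpr ⟨q, hq, El.top q⟩).1
        exact hnot _ (hQL _ h1) h)
      (fun z z' hz hz' h =>
        ((hG.sup_eq_iff hat hi hw hw (hQL _ hz.1) (hQL _ hz'.1)).mp h).1)
    refine ⟨_, hsh.congr ?_, ?_⟩
    · intro z
      constructor
      · rintro ⟨y, ⟨⟨S, hS, rfl⟩, hc⟩, rfl⟩
        refine ⟨S, hS, rfl, ?_⟩
        rw [hdeep S hS]
        exact (hCd _ (hle S hS)).mp hc
      · rintro ⟨S, hS, rfl, hd⟩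
        rw [hdeep S hS] at hd
        exact ⟨jn x S, ⟨⟨S, hS, rfl⟩, (hCd _ (hle S hS)).mpr hd⟩, rfl⟩
    · intro g hg
      obtain ⟨q, hq, rfl⟩ := Finset.mem_image.mp hg
      obtain ⟨k1, k2, k3⟩ := hq1 q hq
      obtain ⟨A, hA, hAx⟩ := ((hQ1.cov _).mpr ⟨q, hq, El.bot q⟩).1
      have hqt : El (x, E) (jn q.1 q.2) := ((hQ1.cov _).mpr ⟨q, hq, El.top q⟩).1
      have hqb : El (x, E) q.1 := ((hQ1.cov _).mpr ⟨q, hq, El.bot q⟩).1
      refine ⟨?_, ?_⟩
      · change _ ≤ rk (q.1 ⊔ e (i + 1) w) + rk (jn (q.1 ⊔ e (i + 1) w) q.2)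
        rw [jn_sup, rk_sup_atom hwa (hnot _ (hQL _ hqb)), rk_sup_atom hwa (hnot _ (hQL _ hqt))]
        have h1 := rk_mono k1
        have h2 : rk (e (i + 1) w ⊔ Ed e w v ⊔ jn x E) = rk (jn x E) + 1 := by
          have h3 : e (i + 1) w ⊔ Ed e w v ⊔ jn x E = jn x E ⊔ e (i + 1) w := by
            rw [sup_assoc, sup_eq_right.mpr hcE, sup_comm]
          rw [h3, rk_sup_atom hwa (hnot _ hE)]
        omega
      · refine ⟨Function.update ρ (i + 1) (ρ w), ?_⟩
        change Iv W e (i + 1) (q.1 ⊔ e (i + 1) w, q.2) _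
        change jn x A = q.1 at hAx
        rw [← hAx]
        exact hG.Iv_new hat hi hw hE hI hA k2
  · -- the deepest vertex of its class
    refine ⟨{(x ⊔ e (i + 1) w, E)}, (Fam.single (PG.add hP hwa (hnot _ hE))).congr ?_, ?_⟩
    · intro z
      constructor
      · intro hz
        obtain ⟨y, hy, rfl⟩ := el_sup hz
        obtain ⟨S, hS, rfl⟩ := hy
        refine ⟨S, hS, rfl, ?_⟩
        intro w' hw' hk hc
        exact hT ⟨w', hw', hk, hc.mono (jn_mono x hS)⟩
      · rintro ⟨S, hS, rfl, -⟩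
        exact el_sup' ⟨S, hS, rfl⟩
    · intro g hg
      rw [Finset.mem_singleton.mp hg]
      refine ⟨?_, ?_⟩
      · change _ ≤ rk (x ⊔ e (i + 1) w) + rk (jn (x ⊔ e (i + 1) w) E)
        rw [jn_sup, rk_sup_atom hwa (hnot _ hxL), rk_sup_atom hwa (hnot _ hE)]
        omega
      · refine ⟨Function.update ρ (i + 1) (ρ w), ?_⟩
        have h := hG.Iv_new hat hi hw hE hI (A := ∅) (Finset.empty_subset E)
          (Finset.Subset.refl E)
        rwa [jn_empty] at h

/-- All elements over a piece. -/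
theorem piece_all (hG : CG n W e)
    (hat : ∀ x : L, ∃ s : Finset L, (∀ a ∈ s, IsAtom a) ∧ s.sup id = x) {i : ℕ}
    (hi : i + 1 ≤ n) {x : L} {E : Finset L} {ρ : ℕ → ℕ} (hP : PG (x, E))
    (hE : jn x E ≤ Lv W e i) (hI : Iv W e i (x, E) ρ) :
    ∃ G : Finset (L × Finset L),
      Fam G (fun z => El (x, E) z ∨ ∃ w ∈ W (i + 1), ∃ S ⊆ E, z = jn x S ⊔ e (i + 1) w) ∧
      ∀ g ∈ G, rk x + rk (jn x E) + 1 ≤ rk g.1 + rk (jn g.1 g.2) ∧
        ∃ ρ', Iv W e (i + 1) g ρ' := by
  classical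
  have hle : ∀ S ⊆ E, jn x S ≤ Lv W e i := fun S hS => (jn_mono x hS).trans hE
  let κ : ℕ → ℕ ×ₗ ℕ := fun u => toLex (ρ u, u)
  have hκ : ∀ u, κ u = toLex (ρ u, u) := fun _ => rfl
  have hκi : ∀ u v, κ u = κ v → u = v := by
    intro u v h
    have h1 : (ρ u, u) = (ρ v, v) := toLex.injective h
    exact congrArg Prod.snd h1
  obtain ⟨a, haW, hamax⟩ := Finset.exists_max_image (W (i + 1)) κ (hG.ne (i + 1) (by omega) hi)
  have haa := (hG.at1 _ _ haW).2
  have hnot : ∀ w ∈ W (i + 1), ∀ z ≤ Lv W e i, ¬ e (i + 1) w ≤ z := fun w hw z hz h =>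
    hG.not_le_Lv hat hi hw (h.trans hz)
  have haE : ¬ e (i + 1) a ≤ jn x E := hnot a haW _ hE
  have hmaxρ : ∀ w ∈ W (i + 1), ρ w ≤ ρ a := by
    intro w hw
    have h := hamax w hw
    rw [hκ, hκ, Prod.Lex.toLex_le_toLex] at h
    rcases h with h | ⟨h, -⟩
    · exact h.le
    · exact h.le
  have hone := fun w (hw : w ∈ W (i + 1)) => hG.piece_one hat hi hw hP hE hI κ hκ
  choose! G hGF hGq using hone
  let Z : ℕ → L → Prop := fun w z => ∃ S ⊆ E, z = jn x S ⊔ e (i + 1) w ∧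
    ∀ w' ∈ W (i + 1), κ w < κ w' → ¬ Cn e (jn x S) w w'
  have hbi : Fam (((W (i + 1)).erase a).biUnion G)
      (fun z => ∃ w ∈ (W (i + 1)).erase a, Z w z) := by
    apply Fam.biUnion _ G Z
    · intro w hw
      exact hGF w (Finset.mem_of_mem_erase hw)
    · rintro w hw w' hw' z ⟨S, hS, rfl, hd⟩ ⟨S', hS', hz, hd'⟩
      have hw := Finset.mem_of_mem_erase hw
      have hw' := Finset.mem_of_mem_erase hw'
      obtain ⟨h1, h2⟩ := (hG.sup_eq_iff hat hi hw hw' (hle S hS) (hle S' hS')).mp hz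
      by_contra hne
      rcases lt_trichotomy (κ w) (κ w') with h | h | h
      · exact hd w' hw' h h2
      · exact hne (hκi _ _ h)
      · rw [h1] at h2
        exact hd' w hw h h2.symm
  have hone' : Fam {(x, insert (e (i + 1) a) E)} (El (x, insert (e (i + 1) a) E)) :=
    Fam.single (PG.insert hP haa haE)
  have hEla : ∀ z, El (x, insert (e (i + 1) a) E) z ↔
      El (x, E) z ∨ ∃ S ⊆ E, z = jn x S ⊔ e (i + 1) a := by
    intro z
    rw [el_insert]
    constructor
    · rintro (h | h)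
      · exact Or.inl h
      · obtain ⟨y, ⟨S, hS, rfl⟩, rfl⟩ := el_sup h
        exact Or.inr ⟨S, hS, rfl⟩
    · rintro (h | ⟨S, hS, rfl⟩)
      · exact Or.inl h
      · exact Or.inr (el_sup' ⟨S, hS, rfl⟩)
  have hun := hone'.union hbi (by
    rintro z hz ⟨w, hw, S, hS, rfl, hd⟩
    have hwW := Finset.mem_of_mem_erase hw
    have hwa := Finset.ne_of_mem_erase hw
    rcases (hEla _).mp hz with h | ⟨S', hS', h⟩
    · exact hnot w hwW _ (h.le.trans hE) le_sup_right
    · obtain ⟨h1, h2⟩ := (hG.sup_eq_iff hat hi hwW haW (hle S hS) (hle S' hS')).mp h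
      exact hd a haW (lt_of_le_of_ne (hamax w hwW) (fun h => hwa (hκi _ _ h))) h2)
  refine ⟨_, hun.congr ?_, ?_⟩
  · intro z
    constructor
    · rintro (h | ⟨w, hw, S, hS, rfl, -⟩)
      · rcases (hEla z).mp h with h | ⟨S, hS, rfl⟩
        · exact Or.inl h
        · exact Or.inr ⟨a, haW, S, hS, rfl⟩
      · exact Or.inr ⟨w, Finset.mem_of_mem_erase hw, S, hS, rfl⟩
    · rintro (h | ⟨w, hw, S, hS, rfl⟩)
      · exact Or.inl ((hEla z).mpr (Or.inl h))
      · obtain ⟨v, hv, hvmax⟩ := Finset.exists_max_image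
          ((W (i + 1)).filter (fun w' => Cn e (jn x S) w w')) κ
          ⟨w, Finset.mem_filter.mpr ⟨hw, Cn.refl e _ w⟩⟩
        obtain ⟨hvW, hvc⟩ := Finset.mem_filter.mp hv
        have heq : jn x S ⊔ e (i + 1) w = jn x S ⊔ e (i + 1) v :=
          (hG.sup_eq_iff hat hi hw hvW (hle S hS) (hle S hS)).mpr ⟨rfl, hvc⟩
        by_cases hva : v = a
        · left
          rw [heq, hva]
          exact (hEla _).mpr (Or.inr ⟨S, hS, rfl⟩)
        · right
          refine ⟨v, Finset.mem_erase.mpr ⟨hva, hvW⟩, S, hS, heq, ?_⟩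
          intro w' hw' hk hc
          have h1 := hG.Cn_trans (hG.Ad_of_mem hw hvW) (hG.Ad_of_mem hw hw')
            (hG.Ad_of_mem hvW hw') hvc hc
          exact absurd (hvmax w' (Finset.mem_filter.mpr ⟨hw', h1⟩)) (not_le.mpr hk)
  · intro g hg
    rcases Finset.mem_union.mp hg with hg | hg
    · rw [Finset.mem_singleton.mp hg]
      refine ⟨?_, ?_⟩
      · change _ ≤ rk x + rk (jn x (insert (e (i + 1) a) E))
        rw [jn_insert', rk_sup_atom haa haE]
        omega
      · refine ⟨_, hG.Iv_ins hat hi haW hE hI hmaxρ (N := (Finset.range (i + 1)).sup ρ + 1) ?_⟩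
        intro u hu
        have h : ρ u ≤ (Finset.range (i + 1)).sup ρ :=
          Finset.le_sup (f := ρ) (Finset.mem_range.mpr (by omega))
        omega
    · obtain ⟨w, hw, hgw⟩ := Finset.mem_biUnion.mp hg
      exact hGq w (Finset.mem_of_mem_erase hw) g hgw

/-- The packing of a level. -/
theorem level (hG : CG n W e)
    (hat : ∀ x : L, ∃ s : Finset L, (∀ a ∈ s, IsAtom a) ∧ s.sup id = x) :
    ∀ i ≤ n, ∃ Q : Finset (L × Finset L), Fam Q (fun z => z ≤ Lv W e i) ∧
      ∀ q ∈ Q, i ≤ rk q.1 + rk (jn q.1 q.2) ∧ ∃ ρ, Iv W e i q ρ := by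
  classical
  intro i
  induction i with
  | zero =>
    intro _
    have h0 : PG ((⊥, ∅) : L × Finset L) := by
      refine ⟨fun a ha => absurd ha (Finset.notMem_empty a), ?_⟩
      change rk (jn ⊥ ∅) = rk (⊥ : L) + (∅ : Finset L).card
      rw [jn_empty, Finset.card_empty, add_zero]
    refine ⟨{(⊥, ∅)}, (Fam.single h0).congr ?_, ?_⟩
    · intro z
      rw [el_empty, hG.Lv_zero, le_bot_iff]
    · intro q hq
      refine ⟨Nat.zero_le _, fun _ => 0, ?_⟩
      intro u v w hu hv hw _ _ _ _ _ _ _ S _ _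
      have h1 : u = v := by omega
      exact Or.inl h1
  | succ i ih =>
    intro hi
    obtain ⟨Q, hQ, hq⟩ := ih (by omega)
    have hQL : ∀ q ∈ Q, ∀ z, El q z → z ≤ Lv W e i := fun q hqQ z hz =>
      (hQ.cov z).mpr ⟨q, hqQ, hz⟩
    have hall : ∀ q ∈ Q, ∃ G : Finset (L × Finset L),
        Fam G (fun z => El q z ∨ ∃ w ∈ W (i + 1), ∃ S ⊆ q.2, z = jn q.1 S ⊔ e (i + 1) w) ∧
        ∀ g ∈ G, rk q.1 + rk (jn q.1 q.2) + 1 ≤ rk g.1 + rk (jn g.1 g.2) ∧
          ∃ ρ', Iv W e (i + 1) g ρ' := by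
      intro q hqQ
      obtain ⟨-, ρ, hI⟩ := hq q hqQ
      exact hG.piece_all hat hi (hQ.pg q hqQ) (hQL q hqQ _ (El.top q)) hI
    choose! G hGF hGq using hall
    have hbi := Fam.biUnion Q G _ hGF (by
      rintro q hqQ q' hq'Q z h h'
      rcases h with h | ⟨w, hw, S, hS, rfl⟩
      · rcases h' with h' | ⟨w', hw', S', hS', rfl⟩
        · exact hQ.dis q hqQ q' hq'Q z h h'
        · exfalso
          exact hG.not_le_Lv hat hi hw' (le_sup_right.trans (hQL q hqQ _ h))
      · rcases h' with h' | ⟨w', hw', S', hS', h'⟩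
        · exfalso
          exact hG.not_le_Lv hat hi hw (le_sup_right.trans (hQL q' hq'Q _ h'))
        · have h1 := ((hG.sup_eq_iff hat hi hw hw' (hQL q hqQ _ ⟨S, hS, rfl⟩)
            (hQL q' hq'Q _ ⟨S', hS', rfl⟩)).mp h').1
          exact hQ.dis q hqQ q' hq'Q (jn q.1 S) ⟨S, hS, rfl⟩ ⟨S', hS', h1.symm⟩)
    refine ⟨_, hbi.congr ?_, ?_⟩
    · intro z
      constructor
      · rintro ⟨q, hqQ, h | ⟨w, hw, S, hS, rfl⟩⟩
        · exact (hQL q hqQ z h).trans (Lv_mono (by omega))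
        · exact sup_le ((hQL q hqQ _ ⟨S, hS, rfl⟩).trans (Lv_mono (by omega)))
            (edge_le_Lv le_rfl hw)
      · intro hz
        by_cases hzi : z ≤ Lv W e i
        · obtain ⟨q, hqQ, h⟩ := (hQ.cov z).mp hzi
          exact ⟨q, hqQ, Or.inl h⟩
        · obtain ⟨w, hw, h, hh, rfl⟩ := hG.exists_of_le hat hi hz hzi
          obtain ⟨q, hqQ, S, hS, rfl⟩ := (hQ.cov h).mp hh
          exact ⟨q, hqQ, Or.inr ⟨w, hw, S, hS, rfl⟩⟩
    · intro g hg
      obtain ⟨q, hqQ, hgq⟩ := Finset.mem_biUnion.mp hg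
      obtain ⟨h1, h2⟩ := hGq q hqQ g hgq
      have h3 := (hq q hqQ).1
      exact ⟨by omega, h2⟩

end CG

/-- Bond lattices of chordal graphs have Boolean packings. -/
theorem chordal_packing {L : Type} [Lattice L] [BoundedOrder L] [Fintype L]
    [IsUpperModularLattice L]
    (hat : ∀ x : L, ∃ s : Finset L, (∀ a ∈ s, IsAtom a) ∧ s.sup id = x) {n : ℕ}
    {W : ℕ → Finset ℕ} {e : ℕ → ℕ → L} (hG : CG n W e) : BooleanPacking L ⊤ := by
  classical
  obtain ⟨Q, hQ, hq⟩ := hG.level hat n le_rfl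
  have hJ : ∀ w : L, Jn (Finset.univ.filter IsAtom) w := by
    intro w
    obtain ⟨s, hs, hsw⟩ := hat w
    exact ⟨s, fun a ha => Finset.mem_filter.mpr ⟨Finset.mem_univ a, hs a ha⟩, hsw⟩
  have hPk : Pk (Finset.univ.filter (IsAtom : L → Prop)) := by
    refine ⟨Q, hQ.congr (fun z => ⟨fun _ => hJ z, fun _ => ?_⟩), ?_⟩
    · rw [hG.Lv_top hat]
      exact le_top
    · intro q hqQ
      have h0 : rk ((Finset.univ.filter (IsAtom : L → Prop)).sup id) ≤ rk (⊤ : L) := rk_mono le_top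
      have h1 := (hq q hqQ).1
      rw [hG.top] at h0
      omega
  exact pk_packing hat hPk (by simp)

end Pool.Agent.Helper19.TW
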