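import Pool.Agent.Helper19.TW.Base

/-!
# The class of lattices of the closure theorem

A finite geometric lattice is a finite upper semimodular lattice in which every element is a join
of atoms (`Atomic`).
-/

set_option autoImplicit false

namespace Pool.Agent.Helper19.TW

/-- Every element is a join of atoms. -/
def Atomic (L : Type) [Lattice L] [BoundedOrder L] : Prop :=
  ∀ x : L, ∃ s : Finset L, (∀ a ∈ s, IsAtom a) ∧ s.sup id = x

/-- `L` has a Boolean packing (the conclusion of the frozen statement). -/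
def Packed (L : Type) [Lattice L] [BoundedOrder L] : Prop :=
  ∃ (t : ℕ) (n : Fin t → ℕ) (φ : ∀ i : Fin t, Set (Fin (n i)) → L),
    (∀ i, Function.Injective (φ i)) ∧
    (∀ i (a b : Set (Fin (n i))), a ⋖ b → φ i a ⋖ φ i b) ∧
    (∀ i, Order.height (⊤ : L) ≤ Order.height (φ i ⊥) + Order.height (φ i ⊤)) ∧
    (∀ x : L, ∃! p : (Σ i : Fin t, Set (Fin (n i))), φ p.1 p.2 = x)

/-- `L` is the bond lattice (the lattice of flats of the cycle matroid) of a connected chordal
graph: the vertices are `0, ..., n`, `W i` is the set of the neighbours of `i` that are smaller than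
`i`, a nonempty clique for `1 ≤ i ≤ n`, the atoms are the edges `e i w`, any two edges of a triangle
have the same join, and the rank is `n`. -/
def IsChordal (L : Type) [Lattice L] [BoundedOrder L] : Prop :=
  ∃ (n : ℕ) (W : ℕ → Finset ℕ) (e : ℕ → ℕ → L), Order.height (⊤ : L) = n ∧
    (∀ i, 1 ≤ i → i ≤ n → (W i).Nonempty) ∧
    (∀ i, ∀ w ∈ W i, w < i ∧ IsAtom (e i w)) ∧
    (∀ i, ∀ w ∈ W i, ∀ w' ∈ W i, w < w' → w ∈ W w' ∧
      e i w ⊔ e w' w = e i w ⊔ e i w' ∧ e i w' ⊔ e w' w = e i w ⊔ e i w') ∧
    (∀ a, IsAtom a → ∃ i ≤ n, ∃ w ∈ W i, e i w = a)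

/-- The basic lattices: bond lattices of connected chordal graphs; or rank three; or rank four with
a modular line `v`, or more generally with two skew lines `u`, `v` such that every plane through `u`
not meeting `v` has at most one atom off `u`, and no line that meets `u` but not `v` has more atoms
than `u`; or any rank, with a basis `B` of atoms such that every atom is below the join of two
elements of `B`. -/
def Seed (L : Type) [Lattice L] [BoundedOrder L] : Prop :=
  IsChordal L ∨ Order.height (⊤ : L) = 3 ∨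
  (Order.height (⊤ : L) = 4 ∧
    ((∃ v : L, Order.height v = 2 ∧ ∀ P : L, P ⋖ ⊤ → P ⊓ v ≠ ⊥) ∨
      ∃ u v : L, Order.height u = 2 ∧ Order.height v = 2 ∧ u ⊔ v = ⊤ ∧
        (∀ P, P ⋖ ⊤ → u ≤ P → P ⊓ v = ⊥ → ∀ q q', IsAtom q → IsAtom q' → q ≤ P → q' ≤ P →
          ¬ q ≤ u → ¬ q' ≤ u → q = q') ∧
        (∀ w, Order.height w = 2 → w ⊓ u ≠ ⊥ → w ⊓ v = ⊥ →
          Nat.card {a : L // IsAtom a ∧ a ≤ w} ≤ Nat.card {a : L // IsAtom a ∧ a ≤ u}))) ∨
  ∃ B : Finset L, (∀ b ∈ B, IsAtom b) ∧ Order.height (⊤ : L) = B.card ∧ B.sup id = ⊤ ∧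
    ∀ p : L, IsAtom p → ∃ b ∈ B, ∃ b' ∈ B, p ≤ b ⊔ b'

/-- `L` is (isomorphic to) a truncation of `K`. -/
def IsTruncation (K L : Type) [Lattice K] [BoundedOrder K] [Lattice L] : Prop :=
  ∃ r : ℕ, 1 ≤ r ∧ Nonempty ({x : K // Order.height x < (r : ℕ∞) ∨ x = ⊤} ≃o L)

/-- `L` is a good one-element extension of `K`: there is an atom `p` of `L` such that the joins of
the other atoms form a lattice isomorphic to `K` (by `j`), and, with `n` the rank of `L` and new
meaning not in `K`,
* every new element is covered by at most one element of `K` (this holds if `p` is a coloop, or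
  if `L` is a principal extension of `K`); or
* `p` is below the top of `K`, and for some `F` in `L` the element `w ⊔ p` is new for all `w` in
  `K` with `rank (F ⊔ w) ≥ rank w + 2`, and all other new elements have rank at least `n / 2`; or
* `p` is below the top of `K`, and for some set `E` of at least `n - 2` independent atoms of `K` all
  `S ⊔ p` with `S ⊆ E` are new and all other new elements have rank at least `n / 2`. -/
def IsExtension (K L : Type) [Lattice K] [BoundedOrder K] [Lattice L] [BoundedOrder L] : Prop :=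
  ∃ (p : L) (j : K → L), IsAtom p ∧ j ⊥ = ⊥ ∧ (∀ x y, j (x ⊔ y) = j x ⊔ j y) ∧
    Function.Injective j ∧ (∀ a, (∃ b, IsAtom b ∧ j b = a) ↔ IsAtom a ∧ a ≠ p) ∧
    ((∀ v : L, (∀ z, j z ≠ v) → ∀ z z', v ⋖ j z → v ⋖ j z' → z = z') ∨
      (p ≤ j ⊤ ∧ ∃ F : L,
        (∀ w, Order.height (j w) + 2 ≤ Order.height (F ⊔ j w) →
          ¬ p ≤ j w ∧ ∀ z, j z ≠ j w ⊔ p) ∧
        (∀ w, ¬ p ≤ j w → Order.height (F ⊔ j w) ≤ Order.height (j w) + 1 →
          2 * (Order.height (j w) + 1) < Order.height (⊤ : L) → ∃ z, j z = j w ⊔ p)) ∨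
      (p ≤ j ⊤ ∧ ∃ E : Finset K, (∀ a ∈ E, IsAtom a) ∧ Order.height (E.sup id) = E.card ∧
        Order.height (⊤ : L) ≤ E.card + 2 ∧
        (∀ S ⊆ E, ∀ z, j z ≠ j (S.sup id) ⊔ p) ∧
        (∀ w, (∀ z, j z ≠ j w ⊔ p) → 2 * Order.height (j w ⊔ p) < Order.height (⊤ : L) →
          ∃ S ⊆ E, j w ⊔ p = j (S.sup id) ⊔ p)))

/-- `L` is obtained from `K` by relaxing dependencies above the middle: `K` and `L` have the same
rank `n` and the same atoms (`β`), every set of atoms has at least the same rank in `L` as in `K`,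
and every element of `K` of rank less than `n / 2` is (as a set of atoms) an element of `L` of the
same rank. -/
def IsRelaxation (K L : Type) [Lattice K] [BoundedOrder K] [Lattice L] [BoundedOrder L] : Prop :=
  ∃ β : K → L, (∀ a, (∃ b, IsAtom b ∧ β b = a) ↔ IsAtom a) ∧
    Order.height (⊤ : K) = Order.height (⊤ : L) ∧
    (∀ E : Finset K, (∀ a ∈ E, IsAtom a) → Order.height (E.sup id) ≤ Order.height (E.sup β)) ∧
    (∀ y : K, 2 * Order.height y < Order.height (⊤ : K) →
      ∃ z : L, Order.height z = Order.height y ∧ ∀ a, IsAtom a → (β a ≤ z ↔ a ≤ y))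

/-- `L` is a locally free lift of `K`: there is an atom `e` of `L` such that the interval above `e`
is isomorphic to `K` and `2 |C| ≥ n + 2` for every set `C` of atoms other than `e` whose join is
above `e`, where `n` is the rank of `L`. -/
def IsLift (K L : Type) [Lattice K] [Lattice L] [BoundedOrder L] : Prop :=
  ∃ e : L, IsAtom e ∧ (∀ C : Finset L, (∀ b ∈ C, IsAtom b ∧ ¬ e ≤ b) → e ≤ C.sup id →
    Order.height (⊤ : L) + 2 ≤ 2 * (C.card : ℕ∞)) ∧ Nonempty (K ≃o Set.Ici e)

/-- The smallest class of finite geometric lattices that contains all those which have a Boolean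
packing, the modular ones and the basic ones (`Seed`), and is closed under isomorphism, direct
products, truncations, good one-element extensions, locally free lifts and relaxations above the
middle. (The main theorem says that it is the class of all those which have a Boolean packing.) -/
inductive Cls : (L : Type) → [Lattice L] → [BoundedOrder L] → Prop
  | packed (L : Type) [Lattice L] [BoundedOrder L] [Fintype L] [IsUpperModularLattice L]
      (hL : Atomic L) (h : Packed L) : Cls L
  | modular (L : Type) [Lattice L] [BoundedOrder L] [Fintype L] [IsModularLattice L]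
      (hL : Atomic L) : Cls L
  | seed (L : Type) [Lattice L] [BoundedOrder L] [Fintype L] [IsUpperModularLattice L]
      (hL : Atomic L) (h : Seed L) : Cls L
  | prod (K₁ K₂ L : Type) [Lattice K₁] [BoundedOrder K₁] [Fintype K₁]
      [Lattice K₂] [BoundedOrder K₂] [Fintype K₂] [Lattice L] [BoundedOrder L]
      (h₁ : Cls K₁) (h₂ : Cls K₂) (e : Nonempty (K₁ × K₂ ≃o L)) : Cls L
  | trunc (K L : Type) [Lattice K] [BoundedOrder K] [Fintype K] [IsUpperModularLattice K]
      [Lattice L] [BoundedOrder L] (hK : Atomic K) (h : Cls K) (ht : IsTruncation K L) : Cls L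
  | ext (K L : Type) [Lattice K] [BoundedOrder K] [Fintype K] [IsUpperModularLattice K]
      [Lattice L] [BoundedOrder L] [Fintype L] [IsUpperModularLattice L]
      (hK : Atomic K) (hL : Atomic L) (h : Cls K) (he : IsExtension K L) : Cls L
  | lift (K L : Type) [Lattice K] [BoundedOrder K] [Lattice L] [BoundedOrder L] [Fintype L]
      [IsUpperModularLattice L] (hL : Atomic L) (h : Cls K) (hl : IsLift K L) : Cls L
  | relax (K L : Type) [Lattice K] [BoundedOrder K] [Fintype K] [IsUpperModularLattice K]
      [Lattice L] [BoundedOrder L] [Fintype L] [IsUpperModularLattice L]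
      (hK : Atomic K) (hL : Atomic L) (h : Cls K) (hr : IsRelaxation K L) : Cls L

end Pool.Agent.Helper19.TW
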