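import Pool.Agent.Helper19.TW.Fam

/-!
# The cut lemma and the truncation lemmas
-/

set_option autoImplicit false
set_option linter.unusedSectionVars false

namespace Pool.Agent.Helper19.TW

open Pool.Agent.Helper28.BPack

variable {L : Type} [Lattice L] [BoundedOrder L] [Finite L] [IsUpperModularLattice L]

/-- `F` has corank at least two over `z`. -/
def Cd (F z : L) : Prop := rk z + 2 ≤ rk (F ⊔ z)

theorem El.rk_le_of {x z F : L} {E : Finset L} (h : PG (x, E)) (hz : El (x, E) z) :
    rk (F ⊔ jn x E) + rk z ≤ rk (F ⊔ z) + rk (jn x E) := by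
  classical
  obtain ⟨S, hS, rfl⟩ := hz
  change S ⊆ E at hS
  change rk (F ⊔ jn x E) + rk (jn x S) ≤ rk (F ⊔ jn x S) + rk (jn x E)
  have h1 : jn x E = jn (jn x S) (E \ S) := by
    rw [jn_jn, Finset.union_sdiff_of_subset hS]
  have h2 := rk_jn_le (F ⊔ jn x S) (E \ S) (fun a ha => h.1 a (Finset.mem_sdiff.mp ha).1)
  rw [← sup_jn, ← h1, Finset.card_sdiff_of_subset hS] at h2
  have h3 : rk (jn x S) = rk x + S.card := h.sub hS
  have h4 : rk (jn x E) = rk x + E.card := h.2
  have h5 := Finset.card_le_card hS
  omega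

theorem sup_inj_of_not_le {x e z z' : L} {E : Finset L} (he : IsAtom e) (hn : ¬ e ≤ jn x E)
    (hz : El (x, E) z) (hz' : El (x, E) z') (h : z ⊔ e = z' ⊔ e) : z = z' := by
  have key : ∀ u v : L, El (x, E) u → El (x, E) v → u ⊔ e = v ⊔ e → v ≤ u := by
    intro u v hu hv huv
    by_contra hc
    have h1 : ¬ e ≤ u := fun hh => hn (hh.trans hu.le)
    have h2 := covBy_sup_atom he h1
    have h3 : u < u ⊔ v := lt_of_le_of_ne le_sup_left (fun hh => hc (hh ▸ le_sup_right))
    have h4 : u ⊔ v ≤ u ⊔ e := sup_le le_sup_left (huv ▸ le_sup_left)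
    rcases h4.lt_or_eq with h5 | h5
    · exact h2.2 h3 h5
    · exact hn ((h5 ▸ le_sup_right : e ≤ u ⊔ v).trans (sup_le hu.le hv.le))
  exact le_antisymm (key z' z hz' hz h.symm) (key z z' hz hz' h)

theorem cut (F : L) (E : Finset L) : ∀ (x : L), PG (x, E) →
    ∃ Q : Finset (L × Finset L), Fam Q (fun z => El (x, E) z ∧ Cd F z) ∧
      ∀ q ∈ Q, x ≤ q.1 ∧ q.2 ⊆ E ∧ (rk (jn x E) ≤ rk (jn q.1 q.2) ∨
        rk (F ⊔ jn x E) ≤ rk (jn q.1 q.2) + 2) := by
  classical
  induction E using Finset.induction_on with
  | empty =>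
    intro x hx
    by_cases hc : Cd F x
    · refine ⟨{(x, ∅)}, (Fam.single hx).congr ?_, ?_⟩
      · intro z
        constructor
        · intro h
          refine ⟨h, ?_⟩
          rw [el_empty.mp h]
          exact hc
        · exact fun h => h.1
      · intro q hq
        rw [Finset.mem_singleton.mp hq]
        exact ⟨le_refl _, Finset.Subset.refl _, Or.inl (le_refl _)⟩
    · refine ⟨∅, Fam.empty.congr ?_, fun q hq => absurd hq (Finset.notMem_empty q)⟩
      intro z
      constructor
      · exact fun h => h.elim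
      · rintro ⟨h1, h2⟩
        rw [el_empty.mp h1] at h2
        exact hc h2
  | insert e E he ih =>
    intro x hx
    have hxE : PG (x, E) := hx.mono (Finset.subset_insert e E)
    have heat : IsAtom e := hx.1 e (Finset.mem_insert_self e E)
    have hen : ¬ e ≤ jn x E :=
      hx.not_le (Finset.subset_insert e E) (Finset.mem_insert_self e E) he
    have htop : jn x (insert e E) = jn x E ⊔ e := jn_insert' x e E
    have hrtop : rk (jn x (insert e E)) = rk (jn x E) + 1 := by
      rw [htop, rk_sup_atom heat hen]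
    by_cases hc : Cd F (jn x (insert e E))
    · refine ⟨{(x, insert e E)}, (Fam.single hx).congr ?_, ?_⟩
      · intro z
        constructor
        · intro h
          refine ⟨h, ?_⟩
          have h1 := El.rk_le_of (F := F) hx h
          unfold Cd at hc ⊢
          omega
        · exact fun h => h.1
      · intro q hq
        rw [Finset.mem_singleton.mp hq]
        exact ⟨le_refl _, Finset.Subset.refl _, Or.inl (le_refl _)⟩
    · by_cases heF : e ≤ F ⊔ jn x E
      · obtain ⟨Q1, hQ1, hq1⟩ := ih x hxE
        obtain ⟨Q2, hQ2, hq2⟩ := ih (x ⊔ e) (hx.shift he)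
        have hF : rk (F ⊔ jn x (insert e E)) = rk (F ⊔ jn x E) := by
          rw [htop, ← sup_assoc, sup_eq_left.mpr heF]
        refine ⟨Q1 ∪ Q2, (hQ1.union hQ2 ?_).congr ?_, ?_⟩
        · rintro z ⟨hz, -⟩ ⟨hz', -⟩
          exact hen ((le_sup_right.trans hz'.ge).trans hz.le)
        · intro z
          rw [el_insert]
          tauto
        · intro q hq
          rcases Finset.mem_union.mp hq with hq | hq
          · obtain ⟨h1, h2, h3⟩ := hq1 q hq
            refine ⟨h1, h2.trans (Finset.subset_insert e E), ?_⟩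
            unfold Cd at hc
            rcases h3 with h3 | h3
            · right; omega
            · right; omega
          · obtain ⟨h1, h2, h3⟩ := hq2 q hq
            refine ⟨le_sup_left.trans h1, h2.trans (Finset.subset_insert e E), ?_⟩
            rwa [← jn_insert] at h3
      · obtain ⟨Q1, hQ1, hq1⟩ := ih x hxE
        have hnQ : ∀ q ∈ Q1, ¬ e ≤ jn q.1 q.2 := by
          intro q hq hle
          have h1 : El (x, E) (jn q.1 q.2) := ((hQ1.cov _).mpr ⟨q, hq, El.top q⟩).1
          exact hen (hle.trans h1.le)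
        have hCd : ∀ z, El (x, E) z → (Cd F (z ⊔ e) ↔ Cd F z) := by
          intro z hz
          have h1 : ¬ e ≤ z := fun hh => hen (hh.trans hz.le)
          have h2 : ¬ e ≤ F ⊔ z := fun hh => heF (hh.trans (sup_le_sup_left hz.le F))
          have h3 : F ⊔ (z ⊔ e) = (F ⊔ z) ⊔ e := sup_assoc F z e ▸ rfl
          unfold Cd
          rw [h3, rk_sup_atom heat h1, rk_sup_atom heat h2]
          omega
        refine ⟨_, (hQ1.double heat hnQ ?_).congr ?_, ?_⟩
        · rintro z z' ⟨hz, -⟩ ⟨hz', -⟩ h
          exact sup_inj_of_not_le heat hen hz hz' h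
        · intro z
          rw [el_insert]
          constructor
          · rintro (⟨h1, h2⟩ | ⟨w, ⟨h1, h2⟩, rfl⟩)
            · exact ⟨Or.inl h1, h2⟩
            · exact ⟨Or.inr (el_sup' h1), (hCd w h1).mpr h2⟩
          · rintro ⟨h1 | h1, h2⟩
            · exact Or.inl ⟨h1, h2⟩
            · obtain ⟨w, hw, rfl⟩ := el_sup h1
              exact Or.inr ⟨w, ⟨hw, (hCd w hw).mp h2⟩, rfl⟩
        · intro q' hq'
          obtain ⟨q, hq, rfl⟩ := Finset.mem_image.mp hq'
          obtain ⟨h1, h2, h3⟩ := hq1 q hq
          refine ⟨h1, Finset.insert_subset_insert e h2, ?_⟩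
          change rk (jn x (insert e E)) ≤ rk (jn q.1 (insert e q.2)) ∨
            rk (F ⊔ jn x (insert e E)) ≤ rk (jn q.1 (insert e q.2)) + 2
          have h4 : rk (jn q.1 (insert e q.2)) = rk (jn q.1 q.2) + 1 := by
            rw [jn_insert', rk_sup_atom heat (hnQ q hq)]
          have h5 : rk (F ⊔ jn x (insert e E)) = rk (F ⊔ jn x E) + 1 := by
            rw [htop, ← sup_assoc, rk_sup_atom heat heF]
          omega

theorem tcut (E : Finset L) : ∀ (x : L) (k : ℕ), PG (x, E) →
    ∃ Q : Finset (L × Finset L), Fam Q (fun z => El (x, E) z ∧ rk z ≤ rk x + k) ∧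
      ∀ q ∈ Q, x ≤ q.1 ∧ (rk (jn x E) ≤ rk (jn q.1 q.2) ∨ rk x + k ≤ rk (jn q.1 q.2)) := by
  classical
  induction E using Finset.induction_on with
  | empty =>
    intro x k hx
    refine ⟨{(x, ∅)}, (Fam.single hx).congr ?_, ?_⟩
    · intro z
      constructor
      · intro h
        refine ⟨h, ?_⟩
        rw [el_empty.mp h]
        omega
      · exact fun h => h.1
    · intro q hq
      rw [Finset.mem_singleton.mp hq]
      exact ⟨le_refl _, Or.inl (le_refl _)⟩
  | insert e E he ih =>
    intro x k hx
    have hxE : PG (x, E) := hx.mono (Finset.subset_insert e E)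
    have heat : IsAtom e := hx.1 e (Finset.mem_insert_self e E)
    have hen : ¬ e ≤ jn x E :=
      hx.not_le (Finset.subset_insert e E) (Finset.mem_insert_self e E) he
    have htop : jn x (insert e E) = jn x E ⊔ e := jn_insert' x e E
    have hrtop : rk (jn x (insert e E)) = rk (jn x E) + 1 := by
      rw [htop, rk_sup_atom heat hen]
    have hrE : rk (jn x E) = rk x + E.card := hxE.2
    have hcard : (insert e E).card = E.card + 1 := Finset.card_insert_of_notMem he
    have hex : ¬ e ≤ x := fun hh => hen (hh.trans (le_jn _ _))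
    have hrxe : rk (x ⊔ e) = rk x + 1 := rk_sup_atom heat hex
    by_cases hk : (insert e E).card ≤ k
    · refine ⟨{(x, insert e E)}, (Fam.single hx).congr ?_, ?_⟩
      · intro z
        constructor
        · intro h
          refine ⟨h, ?_⟩
          have h1 := rk_mono h.le
          change rk z ≤ rk (jn x (insert e E)) at h1
          omega
        · exact fun h => h.1
      · intro q hq
        rw [Finset.mem_singleton.mp hq]
        exact ⟨le_refl _, Or.inl (le_refl _)⟩
    · rcases k with _ | k
      · have hx0 : PG ((x, ∅) : L × Finset L) := hx.mono (Finset.empty_subset _)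
        refine ⟨{(x, ∅)}, (Fam.single hx0).congr ?_, ?_⟩
        · intro z
          rw [el_empty]
          constructor
          · rintro rfl
            exact ⟨⟨∅, Finset.empty_subset _, jn_empty _⟩, by omega⟩
          · rintro ⟨h1, h2⟩
            exact (eq_of_le_of_rk h1.ge (by simpa using h2)).symm
        · intro q hq
          rw [Finset.mem_singleton.mp hq]
          refine ⟨le_refl _, Or.inr ?_⟩
          change rk x + 0 ≤ rk (jn x ∅)
          rw [jn_empty]
          omega
      · obtain ⟨Q1, hQ1, hq1⟩ := ih x (k + 1) hxE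
        obtain ⟨Q2, hQ2, hq2⟩ := ih (x ⊔ e) k (hx.shift he)
        refine ⟨Q1 ∪ Q2, (hQ1.union hQ2 ?_).congr ?_, ?_⟩
        · rintro z ⟨hz, -⟩ ⟨hz', -⟩
          exact hen ((le_sup_right.trans hz'.ge).trans hz.le)
        · intro z
          rw [el_insert, hrxe]
          have h1 : rk x + 1 + k = rk x + (k + 1) := by ring
          rw [h1]
          tauto
        · intro q hq
          rcases Finset.mem_union.mp hq with hq | hq
          · obtain ⟨h1, h2⟩ := hq1 q hq
            refine ⟨h1, ?_⟩
            right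
            omega
          · obtain ⟨h1, h2⟩ := hq2 q hq
            refine ⟨le_sup_left.trans h1, ?_⟩
            rw [← jn_insert] at h2
            omega

theorem tcut2 [DecidableEq L] (E' : Finset L) (D : Finset L) : ∀ (x : L) (k : ℕ), PG (x, E' ∪ D) →
    Disjoint E' D → k + 1 ≤ E'.card →
    ∃ Q : Finset (L × Finset L),
      Fam Q (fun z => El (x, E' ∪ D) z ∧ ¬ El (x, E') z ∧ rk z ≤ rk x + k) ∧
      ∀ q ∈ Q, rk x + 1 ≤ rk q.1 ∧ rk x + k ≤ rk (jn q.1 q.2) := by
  classical
  induction D using Finset.induction_on with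
  | empty =>
    intro x k hx _ _
    refine ⟨∅, Fam.empty.congr ?_, fun q hq => absurd hq (Finset.notMem_empty q)⟩
    intro z
    rw [Finset.union_empty]
    tauto
  | insert e D he ih =>
    intro x k hx hd hk
    rw [Finset.union_insert] at hx ⊢
    have heE : e ∉ E' ∪ D := by
      rw [Finset.mem_union]
      rintro (h | h)
      · exact (Finset.disjoint_left.mp hd) h (Finset.mem_insert_self e D)
      · exact he h
    have hxE : PG (x, E' ∪ D) := hx.mono (Finset.subset_insert e _)
    have heat : IsAtom e := hx.1 e (Finset.mem_insert_self e _)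
    have hen : ¬ e ≤ jn x (E' ∪ D) :=
      hx.not_le (Finset.subset_insert e _) (Finset.mem_insert_self e _) heE
    have hex : ¬ e ≤ x := fun hh => hen (hh.trans (le_jn _ _))
    have hrxe : rk (x ⊔ e) = rk x + 1 := rk_sup_atom heat hex
    have hshift : PG (x ⊔ e, E' ∪ D) := hx.shift heE
    have hE'n : ∀ z, El (x, E') z → ¬ e ≤ z := fun z hz hle =>
      hen ((hle.trans hz.le).trans (jn_mono x Finset.subset_union_left))
    obtain ⟨Q1, hQ1, hq1⟩ := ih x k hxE
      (Finset.disjoint_of_subset_right (Finset.subset_insert e D) hd) hk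
    rcases k with _ | k
    · refine ⟨Q1, hQ1.congr ?_, hq1⟩
      intro z
      rw [el_insert]
      constructor
      · rintro ⟨h1, h2⟩
        exact ⟨Or.inl h1, h2⟩
      · rintro ⟨h1 | h1, h2, h3⟩
        · exact ⟨h1, h2, h3⟩
        · exfalso
          have h4 := rk_mono h1.ge
          change rk (x ⊔ e) ≤ rk z at h4
          omega
    · obtain ⟨Q2, hQ2, hq2⟩ := tcut (E' ∪ D) (x ⊔ e) k hshift
      refine ⟨Q1 ∪ Q2, (hQ1.union hQ2 ?_).congr ?_, ?_⟩
      · rintro z ⟨hz, -⟩ ⟨hz', -⟩
        exact hen ((le_sup_right.trans hz'.ge).trans hz.le)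
      · intro z
        rw [el_insert, hrxe]
        have h1 : rk x + 1 + k = rk x + (k + 1) := by ring
        rw [h1]
        constructor
        · rintro (⟨h1, h2, h3⟩ | ⟨h1, h2⟩)
          · exact ⟨Or.inl h1, h2, h3⟩
          · exact ⟨Or.inr h1, fun h => hE'n z h (le_sup_right.trans h1.ge), h2⟩
        · rintro ⟨h1 | h1, h2, h3⟩
          · exact Or.inl ⟨h1, h2, h3⟩
          · exact Or.inr ⟨h1, h3⟩
      · intro q hq
        rcases Finset.mem_union.mp hq with hq | hq
        · exact hq1 q hq
        · obtain ⟨h1, h2⟩ := hq2 q hq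
          have h3 := rk_mono h1
          have h4 : rk (jn (x ⊔ e) (E' ∪ D)) = rk (x ⊔ e) + (E' ∪ D).card := hshift.2
          have h5 : E'.card ≤ (E' ∪ D).card := Finset.card_le_card Finset.subset_union_left
          omega

end Pool.Agent.Helper19.TW
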