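import Pool.Agent.Helper28.BPack.Pack

/-!
# Families of Boolean pieces in a finite geometric lattice

A piece is a pair `(x, E)`: a bottom element and a set of atoms independent over it.
-/

set_option autoImplicit false
set_option linter.unusedSectionVars false

namespace Pool.Agent.Helper19.TW

open Pool.Agent.Helper28.BPack

section

variable {L : Type} [Lattice L] [BoundedOrder L]

/-- The join of `x` and the elements of `S`. -/
def jn (x : L) (S : Finset L) : L := x ⊔ S.sup id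

theorem jn_empty (x : L) : jn x ∅ = x := by simp [jn]

theorem le_jn (x : L) (S : Finset L) : x ≤ jn x S := le_sup_left

theorem mem_le_jn (x : L) {S : Finset L} {a : L} (h : a ∈ S) : a ≤ jn x S :=
  (Finset.le_sup (f := id) h).trans le_sup_right

theorem jn_mono (x : L) {S T : Finset L} (h : S ⊆ T) : jn x S ≤ jn x T :=
  sup_le_sup_left (Finset.sup_mono h) _

theorem jn_insert [DecidableEq L] (x e : L) (S : Finset L) : jn x (insert e S) = jn (x ⊔ e) S := by
  rw [jn, jn, Finset.sup_insert, id, sup_assoc]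

theorem jn_insert' [DecidableEq L] (x e : L) (S : Finset L) :
    jn x (insert e S) = jn x S ⊔ e := by
  rw [jn, jn, Finset.sup_insert, id, sup_comm e, sup_assoc]

theorem jn_sup (x e : L) (S : Finset L) : jn (x ⊔ e) S = jn x S ⊔ e := by
  rw [jn, jn, sup_assoc, sup_comm e, sup_assoc]

theorem sup_jn (F x : L) (S : Finset L) : F ⊔ jn x S = jn (F ⊔ x) S := by
  rw [jn, jn, sup_assoc]

theorem jn_jn [DecidableEq L] (x : L) (S T : Finset L) : jn (jn x S) T = jn x (S ∪ T) := by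
  rw [jn, jn, jn, Finset.sup_union, sup_assoc]

/-- `z` is an element of the piece `q`. -/
def El (q : L × Finset L) (z : L) : Prop := ∃ S ⊆ q.2, jn q.1 S = z

theorem El.bot (q : L × Finset L) : El q q.1 := ⟨∅, Finset.empty_subset _, jn_empty _⟩

theorem El.top (q : L × Finset L) : El q (jn q.1 q.2) := ⟨q.2, Finset.Subset.refl _, rfl⟩

theorem El.ge {q : L × Finset L} {z : L} (h : El q z) : q.1 ≤ z := by
  obtain ⟨S, -, rfl⟩ := h
  exact le_jn _ _

theorem El.le {q : L × Finset L} {z : L} (h : El q z) : z ≤ jn q.1 q.2 := by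
  obtain ⟨S, hS, rfl⟩ := h
  exact jn_mono _ hS

theorem el_empty {x z : L} : El (x, ∅) z ↔ z = x := by
  constructor
  · rintro ⟨S, hS, rfl⟩
    rw [Finset.subset_empty.mp hS, jn_empty]
  · rintro rfl
    exact El.bot (z, ∅)

theorem el_insert [DecidableEq L] {x e z : L} {E : Finset L} :
    El (x, insert e E) z ↔ El (x, E) z ∨ El (x ⊔ e, E) z := by
  constructor
  · rintro ⟨S, hS, rfl⟩
    by_cases he : e ∈ S
    · right
      refine ⟨S.erase e, ?_, ?_⟩
      · intro a ha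
        rw [Finset.mem_erase] at ha
        rcases Finset.mem_insert.mp (hS ha.2) with h | h
        · exact absurd h ha.1
        · exact h
      · rw [← jn_insert, Finset.insert_erase he]
    · left
      refine ⟨S, ?_, rfl⟩
      intro a ha
      rcases Finset.mem_insert.mp (hS ha) with h | h
      · exact absurd (h ▸ ha) he
      · exact h
  · rintro (⟨S, hS, rfl⟩ | ⟨S, hS, rfl⟩)
    · exact ⟨S, hS.trans (Finset.subset_insert e E), rfl⟩
    · exact ⟨insert e S, Finset.insert_subset_insert e hS, jn_insert x e S⟩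

theorem el_sup {x e z : L} {E : Finset L} (h : El (x ⊔ e, E) z) :
    ∃ w, El (x, E) w ∧ z = w ⊔ e := by
  obtain ⟨S, hS, rfl⟩ := h
  exact ⟨jn x S, ⟨S, hS, rfl⟩, jn_sup x e S⟩

theorem el_sup' {x e w : L} {E : Finset L} (h : El (x, E) w) : El (x ⊔ e, E) (w ⊔ e) := by
  obtain ⟨S, hS, rfl⟩ := h
  exact ⟨S, hS, jn_sup x e S⟩

end

section

variable {L : Type} [Lattice L] [BoundedOrder L] [Finite L] [IsUpperModularLattice L]

theorem rk_jn_le (x : L) (S : Finset L) (hS : ∀ a ∈ S, IsAtom a) :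
    rk (jn x S) ≤ rk x + S.card := rk_sup_finset_le x S id hS

/-- `q` is a Boolean piece. -/
def PG (q : L × Finset L) : Prop := (∀ a ∈ q.2, IsAtom a) ∧ rk (jn q.1 q.2) = rk q.1 + q.2.card

theorem PG.sub {q : L × Finset L} (h : PG q) {S : Finset L} (hS : S ⊆ q.2) :
    rk (jn q.1 S) = rk q.1 + S.card := by
  classical
  have h1 := rk_jn_le q.1 S (fun a ha => h.1 a (hS ha))
  have h2 := rk_jn_le (jn q.1 S) (q.2 \ S) (fun a ha => h.1 a (Finset.mem_sdiff.mp ha).1)
  rw [jn_jn, Finset.union_sdiff_of_subset hS, h.2, Finset.card_sdiff_of_subset hS] at h2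
  have h3 := Finset.card_le_card hS
  omega

theorem PG.mono {x : L} {E S : Finset L} (h : PG (x, E)) (hS : S ⊆ E) : PG (x, S) :=
  ⟨fun a ha => h.1 a (hS ha), h.sub hS⟩

theorem PG.not_le {q : L × Finset L} (h : PG q) {S : Finset L} (hS : S ⊆ q.2) {a : L}
    (ha : a ∈ q.2) (haS : a ∉ S) : ¬ a ≤ jn q.1 S := by
  classical
  intro hle
  have h1 := h.sub (Finset.insert_subset ha hS)
  rw [jn_insert', sup_eq_left.mpr hle, Finset.card_insert_of_notMem haS, h.sub hS] at h1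
  omega

theorem PG.inj {q : L × Finset L} (h : PG q) {S T : Finset L} (hS : S ⊆ q.2) (hT : T ⊆ q.2)
    (he : jn q.1 S = jn q.1 T) : S = T := by
  ext a
  constructor
  · intro ha
    by_contra hc
    exact h.not_le hT (hS ha) hc (he ▸ mem_le_jn _ ha)
  · intro ha
    by_contra hc
    exact h.not_le hS (hT ha) hc (he ▸ mem_le_jn _ ha)

theorem PG.insert [DecidableEq L] {x e : L} {E : Finset L} (h : PG (x, E)) (he : IsAtom e)
    (hn : ¬ e ≤ jn x E) : PG (x, insert e E) := by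
  have heE : e ∉ E := fun hh => hn (mem_le_jn _ hh)
  constructor
  · intro a ha
    rcases Finset.mem_insert.mp ha with rfl | ha
    · exact he
    · exact h.1 a ha
  · change rk (jn x (Insert.insert e E)) = rk x + (Insert.insert e E).card
    have h2 : rk (jn x E) = rk x + E.card := h.2
    rw [jn_insert', rk_sup_atom he hn, h2, Finset.card_insert_of_notMem heE]
    ring

theorem PG.shift [DecidableEq L] {x e : L} {E : Finset L} (h : PG (x, Insert.insert e E))
    (heE : e ∉ E) : PG (x ⊔ e, E) := by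
  refine ⟨fun a ha => h.1 a (Finset.mem_insert_of_mem ha), ?_⟩
  have h2 : rk (jn x (Insert.insert e E)) = rk x + (Insert.insert e E).card := h.2
  have hn : ¬ e ≤ x := by
    have := h.not_le (Finset.empty_subset _) (Finset.mem_insert_self e E) (Finset.notMem_empty e)
    rwa [jn_empty] at this
  have h3 := rk_sup_atom (h.1 e (Finset.mem_insert_self e E)) hn
  rw [jn_insert, Finset.card_insert_of_notMem heE] at h2
  change rk (jn (x ⊔ e) E) = rk (x ⊔ e) + E.card
  omega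

/-- Adding an atom below everything. -/
theorem PG.add {q : L × Finset L} (h : PG q) {p : L} (hp : IsAtom p)
    (hn : ¬ p ≤ jn q.1 q.2) : PG (q.1 ⊔ p, q.2) := by
  refine ⟨h.1, ?_⟩
  change rk (jn (q.1 ⊔ p) q.2) = rk (q.1 ⊔ p) + q.2.card
  rw [jn_sup, rk_sup_atom hp hn, rk_sup_atom hp (fun hh => hn (hh.trans (le_jn _ _))), h.2]
  ring

/-- A family of pieces with union `Z`. -/
structure Fam (Q : Finset (L × Finset L)) (Z : L → Prop) : Prop where
  pg : ∀ q ∈ Q, PG q
  cov : ∀ z, Z z ↔ ∃ q ∈ Q, El q z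
  dis : ∀ q ∈ Q, ∀ q' ∈ Q, ∀ z, El q z → El q' z → q = q'

theorem Fam.congr {Q : Finset (L × Finset L)} {Z Z' : L → Prop} (h : Fam Q Z)
    (hZ : ∀ z, Z z ↔ Z' z) : Fam Q Z' :=
  ⟨h.pg, fun z => (hZ z).symm.trans (h.cov z), h.dis⟩

theorem Fam.single {q : L × Finset L} (h : PG q) : Fam {q} (El q) := by
  refine ⟨?_, ?_, ?_⟩
  · intro q' hq'
    rw [Finset.mem_singleton.mp hq']
    exact h
  · intro z
    constructor
    · intro hz
      exact ⟨q, Finset.mem_singleton_self q, hz⟩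
    · rintro ⟨q', hq', hz⟩
      rw [Finset.mem_singleton.mp hq'] at hz
      exact hz
  · intro a ha b hb _ _ _
    rw [Finset.mem_singleton.mp ha, Finset.mem_singleton.mp hb]

theorem Fam.empty : Fam (∅ : Finset (L × Finset L)) (fun _ => False) :=
  ⟨fun q hq => absurd hq (Finset.notMem_empty q),
    fun z => ⟨fun h => h.elim, fun ⟨q, hq, _⟩ => absurd hq (Finset.notMem_empty q)⟩,
    fun q hq => absurd hq (Finset.notMem_empty q)⟩

theorem Fam.union [DecidableEq L] {Q Q' : Finset (L × Finset L)} {Z Z' : L → Prop}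
    (h : Fam Q Z) (h' : Fam Q' Z') (hd : ∀ z, Z z → Z' z → False) :
    Fam (Q ∪ Q') (fun z => Z z ∨ Z' z) := by
  refine ⟨?_, ?_, ?_⟩
  · intro q hq
    rcases Finset.mem_union.mp hq with hq | hq
    · exact h.pg q hq
    · exact h'.pg q hq
  · intro z
    rw [h.cov, h'.cov]
    constructor
    · rintro (⟨q, hq, hz⟩ | ⟨q, hq, hz⟩)
      · exact ⟨q, Finset.mem_union_left _ hq, hz⟩
      · exact ⟨q, Finset.mem_union_right _ hq, hz⟩
    · rintro ⟨q, hq, hz⟩
      rcases Finset.mem_union.mp hq with hq | hq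
      · exact Or.inl ⟨q, hq, hz⟩
      · exact Or.inr ⟨q, hq, hz⟩
  · intro q hq q' hq' z hz hz'
    rcases Finset.mem_union.mp hq with hq | hq <;> rcases Finset.mem_union.mp hq' with hq' | hq'
    · exact h.dis q hq q' hq' z hz hz'
    · exact (hd z ((h.cov z).mpr ⟨q, hq, hz⟩) ((h'.cov z).mpr ⟨q', hq', hz'⟩)).elim
    · exact (hd z ((h.cov z).mpr ⟨q', hq', hz'⟩) ((h'.cov z).mpr ⟨q, hq, hz⟩)).elim
    · exact h'.dis q hq q' hq' z hz hz'

theorem Fam.biUnion [DecidableEq L] {ι : Type} (I : Finset ι)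
    (G : ι → Finset (L × Finset L)) (Z : ι → L → Prop) (h : ∀ i ∈ I, Fam (G i) (Z i))
    (hd : ∀ i ∈ I, ∀ j ∈ I, ∀ z, Z i z → Z j z → i = j) :
    Fam (I.biUnion G) (fun z => ∃ i ∈ I, Z i z) := by
  refine ⟨?_, ?_, ?_⟩
  · intro q hq
    obtain ⟨i, hi, hq⟩ := Finset.mem_biUnion.mp hq
    exact (h i hi).pg q hq
  · intro z
    constructor
    · rintro ⟨i, hi, hz⟩
      obtain ⟨q, hq, hz⟩ := ((h i hi).cov z).mp hz
      exact ⟨q, Finset.mem_biUnion.mpr ⟨i, hi, hq⟩, hz⟩
    · rintro ⟨q, hq, hz⟩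
      obtain ⟨i, hi, hq⟩ := Finset.mem_biUnion.mp hq
      exact ⟨i, hi, ((h i hi).cov z).mpr ⟨q, hq, hz⟩⟩
  · intro q hq q' hq' z hz hz'
    obtain ⟨i, hi, hq⟩ := Finset.mem_biUnion.mp hq
    obtain ⟨j, hj, hq'⟩ := Finset.mem_biUnion.mp hq'
    have hij := hd i hi j hj z (((h i hi).cov z).mpr ⟨q, hq, hz⟩)
      (((h j hj).cov z).mpr ⟨q', hq', hz'⟩)
    subst hij
    exact (h i hi).dis q hq q' hq' z hz hz'

/-- Doubling a family. -/
theorem Fam.double [DecidableEq L] {Q : Finset (L × Finset L)} {Z : L → Prop} (h : Fam Q Z)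
    {e : L} (he : IsAtom e) (hn : ∀ q ∈ Q, ¬ e ≤ jn q.1 q.2)
    (hinj : ∀ z z', Z z → Z z' → z ⊔ e = z' ⊔ e → z = z') :
    Fam (Q.image (fun q => (q.1, Insert.insert e q.2)))
      (fun z => Z z ∨ ∃ w, Z w ∧ z = w ⊔ e) := by
  have hnz : ∀ z, Z z → ¬ e ≤ z := by
    intro z hz hle
    obtain ⟨q, hq, hz⟩ := (h.cov z).mp hz
    exact hn q hq (hle.trans hz.le)
  refine ⟨?_, ?_, ?_⟩
  · intro q' hq'
    obtain ⟨q, hq, rfl⟩ := Finset.mem_image.mp hq'
    exact PG.insert (h.pg q hq) he (hn q hq)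
  · intro z
    constructor
    · rintro (hz | ⟨w, hw, rfl⟩)
      · obtain ⟨q, hq, hz⟩ := (h.cov z).mp hz
        exact ⟨_, Finset.mem_image_of_mem _ hq, el_insert.mpr (Or.inl hz)⟩
      · obtain ⟨q, hq, hw⟩ := (h.cov w).mp hw
        exact ⟨_, Finset.mem_image_of_mem _ hq, el_insert.mpr (Or.inr (el_sup' hw))⟩
    · rintro ⟨q', hq', hz⟩
      obtain ⟨q, hq, rfl⟩ := Finset.mem_image.mp hq'
      rcases el_insert.mp hz with hz | hz
      · exact Or.inl ((h.cov z).mpr ⟨q, hq, hz⟩)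
      · obtain ⟨w, hw, rfl⟩ := el_sup hz
        exact Or.inr ⟨w, (h.cov w).mpr ⟨q, hq, hw⟩, rfl⟩
  · intro a ha b hb z hz hz'
    obtain ⟨q, hq, rfl⟩ := Finset.mem_image.mp ha
    obtain ⟨q', hq', rfl⟩ := Finset.mem_image.mp hb
    have key : q = q' := by
      rcases el_insert.mp hz with hz | hz <;> rcases el_insert.mp hz' with hz' | hz'
      · exact h.dis q hq q' hq' z hz hz'
      · obtain ⟨w, hw, rfl⟩ := el_sup hz'
        exact absurd le_sup_right (hnz _ ((h.cov _).mpr ⟨q, hq, hz⟩))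
      · obtain ⟨w, hw, rfl⟩ := el_sup hz
        exact absurd le_sup_right (hnz _ ((h.cov _).mpr ⟨q', hq', hz'⟩))
      · obtain ⟨w, hw, rfl⟩ := el_sup hz
        obtain ⟨w', hw', hww⟩ := el_sup hz'
        have h1 := hinj w w' ((h.cov _).mpr ⟨q, hq, hw⟩) ((h.cov _).mpr ⟨q', hq', hw'⟩) hww
        subst h1
        exact h.dis q hq q' hq' w hw hw'
    rw [key]

/-- Shifting a family by an atom. -/
theorem Fam.shift [DecidableEq L] {Q : Finset (L × Finset L)} {Z : L → Prop} (h : Fam Q Z)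
    {p : L} (hp : IsAtom p) (hn : ∀ q ∈ Q, ¬ p ≤ jn q.1 q.2)
    (hinj : ∀ z z', Z z → Z z' → z ⊔ p = z' ⊔ p → z = z') :
    Fam (Q.image (fun q => (q.1 ⊔ p, q.2))) (fun z => ∃ w, Z w ∧ z = w ⊔ p) := by
  refine ⟨?_, ?_, ?_⟩
  · intro q' hq'
    obtain ⟨q, hq, rfl⟩ := Finset.mem_image.mp hq'
    exact PG.add (h.pg q hq) hp (hn q hq)
  · intro z
    constructor
    · rintro ⟨w, hw, rfl⟩
      obtain ⟨q, hq, hw⟩ := (h.cov w).mp hw
      exact ⟨_, Finset.mem_image_of_mem _ hq, el_sup' hw⟩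
    · rintro ⟨q', hq', hz⟩
      obtain ⟨q, hq, rfl⟩ := Finset.mem_image.mp hq'
      obtain ⟨w, hw, rfl⟩ := el_sup hz
      exact ⟨w, (h.cov w).mpr ⟨q, hq, hw⟩, rfl⟩
  · intro a ha b hb z hz hz'
    obtain ⟨q, hq, rfl⟩ := Finset.mem_image.mp ha
    obtain ⟨q', hq', rfl⟩ := Finset.mem_image.mp hb
    obtain ⟨w, hw, rfl⟩ := el_sup hz
    obtain ⟨w', hw', hww⟩ := el_sup hz'
    have h1 := hinj w w' ((h.cov _).mpr ⟨q, hq, hw⟩) ((h.cov _).mpr ⟨q', hq', hw'⟩) hww
    subst h1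
    rw [h.dis q hq q' hq' w hw hw']

end

end Pool.Agent.Helper19.TW
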