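import Pool.Agent.Helper19.TW.Iso

/-!
# Relaxing above the middle
-/

set_option autoImplicit false
set_option linter.unusedSectionVars false

namespace Pool.Agent.Helper19.TW

open Pool.Agent.Helper28.BPack

section ind

variable {K : Type} [Lattice K] [BoundedOrder K] [Fintype K] [IsUpperModularLattice K]

/-- An independent set of atoms. -/
def Ind (Z : Finset K) : Prop := (∀ a ∈ Z, IsAtom a) ∧ rk (Z.sup id) = Z.card

theorem exists_ind_subset [DecidableEq K] (s : Finset K) (hs : ∀ a ∈ s, IsAtom a) :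
    ∃ X ⊆ s, Ind X ∧ X.sup id = s.sup id := by
  induction s using Finset.induction_on with
  | empty =>
    refine ⟨∅, Finset.Subset.refl _, ⟨fun a ha => absurd ha (Finset.notMem_empty a), ?_⟩, rfl⟩
    rw [Finset.sup_empty, rk_bot, Finset.card_empty]
  | insert a s has ih =>
    obtain ⟨X, hXs, hX, hXe⟩ := ih (fun b hb => hs b (Finset.mem_insert_of_mem hb))
    by_cases hle : a ≤ X.sup id
    · refine ⟨X, hXs.trans (Finset.subset_insert a s), hX, ?_⟩
      rw [Finset.sup_insert, ← hXe]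
      exact (sup_eq_right.mpr hle).symm
    · refine ⟨insert a X, Finset.insert_subset_insert a hXs, ⟨?_, ?_⟩, ?_⟩
      · intro b hb
        rcases Finset.mem_insert.mp hb with rfl | hb
        · exact hs b (Finset.mem_insert_self b s)
        · exact hX.1 b hb
      · have haX : a ∉ X := fun h => hle (Finset.le_sup (f := id) h)
        rw [Finset.sup_insert, id, sup_comm, rk_sup_atom (hs a (Finset.mem_insert_self a s)) hle,
          hX.2, Finset.card_insert_of_notMem haX]
      · rw [Finset.sup_insert, Finset.sup_insert, hXe]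

theorem exists_basis [DecidableEq K]
    (hK : ∀ x : K, ∃ s : Finset K, (∀ a ∈ s, IsAtom a) ∧ s.sup id = x) (x : K) :
    ∃ X : Finset K, Ind X ∧ X.sup id = x := by
  obtain ⟨s, hs, rfl⟩ := hK x
  obtain ⟨X, -, hX, hXe⟩ := exists_ind_subset s hs
  exact ⟨X, hX, hXe⟩

theorem Ind.insert [DecidableEq K] {Z : Finset K} (h : Ind Z) {a : K} (ha : IsAtom a)
    (hn : ¬ a ≤ Z.sup id) : Ind (insert a Z) := by
  have haX : a ∉ Z := fun h => hn (Finset.le_sup (f := id) h)
  refine ⟨?_, ?_⟩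
  · intro b hb
    rcases Finset.mem_insert.mp hb with rfl | hb
    · exact ha
    · exact h.1 b hb
  · rw [Finset.sup_insert, id, sup_comm, rk_sup_atom ha hn, h.2, Finset.card_insert_of_notMem haX]

theorem card_le_of_sup {Z : Finset K} (hZ : ∀ a ∈ Z, IsAtom a) : rk (Z.sup id) ≤ Z.card := by
  have h := rk_jn_le (⊥ : K) Z hZ
  rwa [jn, bot_sup_eq, rk_bot, zero_add] at h

/-- A basis of the bottom with a part of the atoms of a piece. -/
theorem Ind.piece [DecidableEq K] {q : K × Finset K} (hq : PG q) {X : Finset K} (hX : Ind X)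
    (hXe : X.sup id = q.1) {S : Finset K} (hS : S ⊆ q.2) :
    Ind (X ∪ S) ∧ (X ∪ S).card = X.card + S.card ∧ (X ∪ S).sup id = jn q.1 S := by
  have h1 : (X ∪ S).sup id = jn q.1 S := by
    rw [Finset.sup_union, hXe]
    rfl
  have hat : ∀ a ∈ X ∪ S, IsAtom a := by
    intro a ha
    rcases Finset.mem_union.mp ha with ha | ha
    · exact hX.1 a ha
    · exact hq.1 a (hS ha)
  have h2 := hq.sub hS
  have h3 := card_le_of_sup hat
  have h4 := Finset.card_union_le X S
  have h5 : rk q.1 = X.card := by rw [← hXe]; exact hX.2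
  rw [h1] at h3
  refine ⟨⟨hat, ?_⟩, ?_, h1⟩
  · rw [h1]
    omega
  · omega

end ind

section relax

variable {K L : Type} [Lattice K] [BoundedOrder K] [Fintype K] [IsUpperModularLattice K]
  [Lattice L] [BoundedOrder L] [Fintype L] [IsUpperModularLattice L]

/-- An atom that is below the lift of an independent set is below the set. -/
theorem le_of_lift_le [DecidableEq K] {β : K → L}
    (hind : ∀ Z : Finset K, Ind Z → rk (Z.sup β) = Z.card) {Z : Finset K} (hZ : Ind Z)
    {a : K} (ha : IsAtom a) (hle : β a ≤ Z.sup β) : a ≤ Z.sup id := by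
  by_contra hn
  have haZ : a ∉ Z := fun h => hn (Finset.le_sup (f := id) h)
  have h1 := hind _ (hZ.insert ha hn)
  rw [Finset.sup_insert, sup_eq_right.mpr hle, hind Z hZ, Finset.card_insert_of_notMem haZ] at h1
  omega

theorem sup_eq_of_lift_eq [DecidableEq K] {β : K → L}
    (hind : ∀ Z : Finset K, Ind Z → rk (Z.sup β) = Z.card) {Z Z' : Finset K} (hZ : Ind Z)
    (hZ' : Ind Z') (h : Z.sup β = Z'.sup β) : Z.sup id = Z'.sup id := by
  apply le_antisymm
  · apply Finset.sup_le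
    intro a ha
    exact le_of_lift_le hind hZ' (hZ.1 a ha) (h ▸ Finset.le_sup (f := β) ha)
  · apply Finset.sup_le
    intro a ha
    exact le_of_lift_le hind hZ (hZ'.1 a ha) (h.symm ▸ Finset.le_sup (f := β) ha)

/-- Packings are preserved when the dependencies are relaxed above the middle. -/
theorem relax_closed
    (hK : ∀ x : K, ∃ s : Finset K, (∀ a ∈ s, IsAtom a) ∧ s.sup id = x)
    (hL : ∀ x : L, ∃ s : Finset L, (∀ a ∈ s, IsAtom a) ∧ s.sup id = x)
    (hP : BooleanPacking K ⊤) (β : K → L)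
    (hβ : ∀ a, (∃ b, IsAtom b ∧ β b = a) ↔ IsAtom a)
    (htop : Order.height (⊤ : K) = Order.height (⊤ : L))
    (hweak : ∀ E : Finset K, (∀ a ∈ E, IsAtom a) →
      Order.height (E.sup id) ≤ Order.height (E.sup β))
    (hlow : ∀ y : K, 2 * Order.height y < Order.height (⊤ : K) →
      ∃ z : L, Order.height z = Order.height y ∧ ∀ a, IsAtom a → (β a ≤ z ↔ a ≤ y)) :
    BooleanPacking L ⊤ := by
  classical
  have htop' : rk (⊤ : K) = rk (⊤ : L) := by
    rw [← coe_rk, ← coe_rk] at htop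
    exact_mod_cast htop
  have hβa : ∀ a, IsAtom a → IsAtom (β a) := fun a ha => (hβ _).mp ⟨a, ha, rfl⟩
  have hind : ∀ Z : Finset K, Ind Z → rk (Z.sup β) = Z.card := by
    intro Z hZ
    have h1 := hweak Z hZ.1
    rw [← coe_rk, ← coe_rk] at h1
    have h2 : rk (Z.sup id) ≤ rk (Z.sup β) := by exact_mod_cast h1
    rw [hZ.2] at h2
    have h3 : rk (Z.sup β) ≤ Z.card := by
      have h4 := rk_sup_finset_le (⊥ : L) Z β (fun a ha => hβa a (hZ.1 a ha))
      rwa [bot_sup_eq, rk_bot, zero_add] at h4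
    omega
  have hlow' : ∀ y : K, 2 * rk y < rk (⊤ : L) →
      ∃ z : L, rk z = rk y ∧ ∀ a, IsAtom a → (β a ≤ z ↔ a ≤ y) := by
    intro y hy
    obtain ⟨z, hz, hza⟩ := hlow y (by
      rw [← coe_rk, ← coe_rk, htop']
      exact_mod_cast hy)
    refine ⟨z, ?_, hza⟩
    rw [← coe_rk, ← coe_rk] at hz
    exact_mod_cast hz
  obtain ⟨Q, hQ, hq⟩ := pk_of_packing hK hP (Finset.univ.filter IsAtom) (by simp)
  have hJK : ∀ w : K, Jn (Finset.univ.filter IsAtom) w := by
    intro w
    obtain ⟨s, hs, hsw⟩ := hK w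
    exact ⟨s, fun a ha => Finset.mem_filter.mpr ⟨Finset.mem_univ a, hs a ha⟩, hsw⟩
  have htK : (Finset.univ.filter (IsAtom : K → Prop)).sup id = ⊤ :=
    le_antisymm le_top (hJK ⊤).le
  rw [htK, htop'] at hq
  choose X hX hXe using fun q : K × Finset K => exists_basis hK q.1
  have hpc : ∀ q ∈ Q, ∀ S ⊆ q.2, Ind (X q ∪ S) ∧ (X q ∪ S).card = (X q).card + S.card ∧
      (X q ∪ S).sup id = jn q.1 S := fun q hqQ S hS => (hX q).piece (hQ.pg q hqQ) (hXe q) hS
  let g : K × Finset K → L × Finset L := fun q => ((X q).sup β, q.2.image β)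
  have hgj : ∀ q, ∀ S : Finset K, jn (g q).1 (S.image β) = (X q ∪ S).sup β := by
    intro q S
    rw [jn, Finset.sup_image, Finset.sup_union]
    rfl
  have hgEl : ∀ q z, El (g q) z ↔ ∃ S ⊆ q.2, (X q ∪ S).sup β = z := by
    intro q z
    constructor
    · rintro ⟨S, hS, rfl⟩
      refine ⟨q.2.filter (fun a => β a ∈ S), Finset.filter_subset _ _, ?_⟩
      rw [← hgj]
      congr 1
      ext y
      simp only [Finset.mem_image, Finset.mem_filter]
      constructor
      · rintro ⟨k, ⟨-, hk⟩, rfl⟩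
        exact hk
      · intro hy
        obtain ⟨k, hk, rfl⟩ := Finset.mem_image.mp (hS hy)
        exact ⟨k, ⟨hk, hy⟩, rfl⟩
    · rintro ⟨S, hS, rfl⟩
      exact ⟨S.image β, Finset.image_subset_image hS, hgj q S⟩
  have hPG : ∀ q ∈ Q, PG (g q) ∧ rk (g q).1 = rk q.1 ∧ rk (jn (g q).1 (g q).2) = rk (jn q.1 q.2) := by
    intro q hqQ
    obtain ⟨h1, h2, h3⟩ := hpc q hqQ q.2 (Finset.Subset.refl _)
    have h4 : rk (g q).1 = (X q).card := hind _ (hX q)
    have h5 : rk q.1 = (X q).card := by rw [← hXe q]; exact (hX q).2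
    have h6 : rk (jn (g q).1 (g q).2) = (X q).card + q.2.card := by
      change rk (jn (g q).1 (q.2.image β)) = _
      rw [hgj, hind _ h1, h2]
    have hat : ∀ a ∈ (g q).2, IsAtom a := by
      intro a ha
      obtain ⟨b, hb, rfl⟩ := Finset.mem_image.mp ha
      exact hβa b ((hQ.pg q hqQ).1 b hb)
    have h7 := rk_jn_le (g q).1 (g q).2 hat
    have h8 : (g q).2.card ≤ q.2.card := Finset.card_image_le
    refine ⟨⟨hat, ?_⟩, ?_, ?_⟩
    · omega
    · omega
    · rw [(hQ.pg q hqQ).2]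
      omega
  have hgQ : Fam (Q.image g) (fun z => ∃ q ∈ Q, El (g q) z) := by
    refine ⟨?_, ?_, ?_⟩
    · intro q' hq'
      obtain ⟨q, hqQ, rfl⟩ := Finset.mem_image.mp hq'
      exact (hPG q hqQ).1
    · intro z
      constructor
      · rintro ⟨q, hqQ, hz⟩
        exact ⟨g q, Finset.mem_image_of_mem _ hqQ, hz⟩
      · rintro ⟨q', hq', hz⟩
        obtain ⟨q, hqQ, rfl⟩ := Finset.mem_image.mp hq'
        exact ⟨q, hqQ, hz⟩
    · intro q₁ h₁ q₂ h₂ z hz₁ hz₂
      obtain ⟨p₁, hp₁, rfl⟩ := Finset.mem_image.mp h₁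
      obtain ⟨p₂, hp₂, rfl⟩ := Finset.mem_image.mp h₂
      obtain ⟨S₁, hS₁, e₁⟩ := (hgEl p₁ z).mp hz₁
      obtain ⟨S₂, hS₂, e₂⟩ := (hgEl p₂ z).mp hz₂
      obtain ⟨i₁, -, k₁⟩ := hpc p₁ hp₁ S₁ hS₁
      obtain ⟨i₂, -, k₂⟩ := hpc p₂ hp₂ S₂ hS₂
      have h := sup_eq_of_lift_eq hind i₁ i₂ (e₁.trans e₂.symm)
      rw [k₁, k₂] at h
      rw [hQ.dis p₁ hp₁ p₂ hp₂ (jn p₁.1 S₁) ⟨S₁, hS₁, rfl⟩ ⟨S₂, hS₂, h.symm⟩]
  -- the low elements are covered
  have hcov : ∀ z : L, 2 * rk z < rk (⊤ : L) → ∃ q ∈ Q, El (g q) z := by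
    intro z hz
    obtain ⟨W, hW, hWz⟩ := exists_basis hL z
    have hWb : ∀ b ∈ W, ∃ a, IsAtom a ∧ β a = b := fun b hb => (hβ b).mpr (hW.1 b hb)
    choose! γ hγa hγ using hWb
    have hγi : W.card = (W.image γ).card := by
      rw [Finset.card_image_of_injOn]
      intro b hb c hc hbc
      rw [← hγ b hb, ← hγ c hc]
      exact congrArg β hbc
    have hZat : ∀ a ∈ W.image γ, IsAtom a := by
      intro a ha
      obtain ⟨b, hb, rfl⟩ := Finset.mem_image.mp ha
      exact hγa b hb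
    have hZz : (W.image γ).sup β = z := by
      rw [← hWz, Finset.sup_image]
      apply Finset.sup_congr rfl
      intro b hb
      exact hγ b hb
    have hk : rk z = W.card := by rw [← hWz]; exact hW.2
    have hy1 : rk ((W.image γ).sup id) ≤ rk z := by
      rw [hk, hγi]
      exact card_le_of_sup hZat
    obtain ⟨z', hz', hza⟩ := hlow' ((W.image γ).sup id) (by omega)
    have hzz : z ≤ z' := by
      rw [← hZz]
      apply Finset.sup_le
      intro a ha
      exact (hza a (hZat a ha)).mpr (Finset.le_sup (f := id) ha)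
    have hrz : rk z' = rk z := le_antisymm (hz'.le.trans hy1) (rk_mono hzz)
    have hzeq : z = z' := eq_of_le_of_rk hzz hrz.le
    obtain ⟨q, hqQ, hqy⟩ := (hQ.cov _).mp (hJK ((W.image γ).sup id))
    obtain ⟨S, hS, hSy⟩ := hqy
    obtain ⟨i1, i2, i3⟩ := hpc q hqQ S hS
    refine ⟨q, hqQ, (hgEl q z).mpr ⟨S, hS, ?_⟩⟩
    have hle : (X q ∪ S).sup β ≤ z' := by
      apply Finset.sup_le
      intro a ha
      refine (hza a (i1.1 a ha)).mpr ?_
      rw [← hSy, ← i3]
      exact Finset.le_sup (f := id) ha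
    rw [hzeq]
    apply eq_of_le_of_rk hle
    rw [hind _ i1, ← i1.2, i3, hSy, ← hz']
  have hJL : ∀ w : L, Jn (Finset.univ.filter IsAtom) w := by
    intro w
    obtain ⟨s, hs, hsw⟩ := hL w
    exact ⟨s, fun a ha => Finset.mem_filter.mpr ⟨Finset.mem_univ a, hs a ha⟩, hsw⟩
  have hPk : Pk (Finset.univ.filter (IsAtom : L → Prop)) := by
    let R : Finset L := Finset.univ.filter (fun z => ¬ ∃ q ∈ Q, El (g q) z)
    have hun := hgQ.union (Fam.singles R) (by
      intro z hz hzR
      exact (Finset.mem_filter.mp hzR).2 hz)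
    refine ⟨_, hun.congr (fun z => ⟨fun _ => hJL z, fun _ => ?_⟩), ?_⟩
    · by_cases hz : ∃ q ∈ Q, El (g q) z
      · exact Or.inl hz
      · exact Or.inr (Finset.mem_filter.mpr ⟨Finset.mem_univ z, hz⟩)
    · intro q' hq'
      have h0 : rk ((Finset.univ.filter (IsAtom : L → Prop)).sup id) ≤ rk (⊤ : L) := rk_mono le_top
      rcases Finset.mem_union.mp hq' with hq' | hq'
      · obtain ⟨q, hqQ, rfl⟩ := Finset.mem_image.mp hq'
        obtain ⟨-, h1, h2⟩ := hPG q hqQ
        rw [h1, h2]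
        exact h0.trans (hq q hqQ)
      · obtain ⟨z, hz, rfl⟩ := Finset.mem_image.mp hq'
        have h1 : ¬ 2 * rk z < rk (⊤ : L) := fun h => (Finset.mem_filter.mp hz).2 (hcov z h)
        change _ ≤ rk z + rk (jn z ∅)
        rw [jn_empty]
        omega
  exact pk_packing hL hPk (by simp)

end relax

end Pool.Agent.Helper19.TW
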