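import Pool.Agent.Helper19.TW.Iso
import Pool.Agent.Helper19.TW.Relax
import Pool.Agent.Helper19.TW.ChB
import Pool.Agent.Helper19.TW.Modular
import Pool.Agent.Helper19.TW.Cls
import Pool.Agent.Helper28.TW.Prod
import Pool.Agent.Helper50.TW.Lift
import Pool.Agent.Kept.MP_47cd0b_co.SkewLines

/-!
# The closure theorem
-/

set_option autoImplicit false

namespace Pool.Agent.Helper19.TW

open Pool.Agent.Helper28.BPack

theorem cls_packing (L : Type) [Lattice L] [BoundedOrder L] (h : Cls L) :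
    BooleanPacking L ⊤ := by
  induction h with
  | packed L _ h => exact h
  | modular L hL =>
    obtain ⟨t, n, φ, h1, h2, h3, h4⟩ := modular_symmetric L hL
    exact ⟨t, n, φ, h1, h2, fun i => (h3 i).ge, h4⟩
  | seed L hL h =>
    rcases h with ⟨n, W, e, h1, h2, h3, h4, h5⟩ | h3 | ⟨h4, h⟩ | ⟨B, hB, hc, ht, hp⟩
    · refine chordal_packing hL (n := n) (W := W) (e := e) ⟨?_, h2, h3, h4, h5⟩
      rw [← coe_rk] at h1
      exact_mod_cast h1
    · refine (hasPack_three hL (f := ⊥) ?_).to_packing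
      rw [rk_bot, zero_add]
      rw [← coe_rk] at h3
      exact_mod_cast h3
    · exact Pool.Agent.Results.MP_47cd0b_co.SkewLines.result L hL h4 h
    · exact frame_packing hL B hB hc ht hp
  | prod K₁ K₂ L _ _ e ih1 ih2 =>
    obtain ⟨e⟩ := e
    have h := (Pool.Agent.Helper28.TW.prod_packing ih1 ih2).of_iso e
    rwa [map_top] at h
  | trunc K L hK _ ht ih =>
    obtain ⟨r, hr, ⟨e⟩⟩ := ht
    have h := (trunc_closed hK ih r hr).of_iso e
    have h1 : e ⟨⊤, Or.inr rfl⟩ = ⊤ := by
      apply top_unique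
      have h2 : e.symm ⊤ ≤ ⟨⊤, Or.inr rfl⟩ := by
        change (e.symm ⊤).1 ≤ ⊤
        exact le_top
      have h3 := e.monotone h2
      rwa [OrderIso.apply_symm_apply] at h3
    rwa [h1] at h
  | ext K L hK hL _ he ih =>
    obtain ⟨p, j, hp, hj0, hjs, hji, hj, hstep⟩ := he
    exact ext_closed hK hL ih p hp j hj0 hjs hji hj hstep
  | lift K L hL _ hl ih =>
    obtain ⟨e, he, hfree, ⟨f⟩⟩ := hl
    apply Pool.Agent.Helper50.TW.lift_packing hL e he hfree
    have h := ih.of_iso f
    have h1 : f ⊤ = (⟨⊤, le_top⟩ : Set.Ici e) := by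
      apply le_antisymm
      · change (f ⊤).1 ≤ ⊤
        exact le_top
      · have h2 : f.symm ⟨⊤, le_top⟩ ≤ ⊤ := le_top
        have h3 := f.monotone h2
        rwa [OrderIso.apply_symm_apply] at h3
    rwa [h1] at h
  | relax K L hK hL _ hr ih =>
    obtain ⟨β, hβ, htop, hweak, hlow⟩ := hr
    exact relax_closed hK hL ih β hβ htop hweak hlow

end Pool.Agent.Helper19.TW
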