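import Pool.Agent.Helper19.TW.Cut

/-!
# Adding an atom: coloops and principal extensions
-/

set_option autoImplicit false
set_option linter.unusedSectionVars false

namespace Pool.Agent.Helper19.TW

open Pool.Agent.Helper28.BPack

section

variable {L : Type} [Lattice L] [BoundedOrder L]

/-- `z` is a join of elements of `A`. -/
def Jn (A : Finset L) (z : L) : Prop := ∃ S ⊆ A, S.sup id = z

theorem Jn.le {A : Finset L} {z : L} (h : Jn A z) : z ≤ A.sup id := by
  obtain ⟨S, hS, rfl⟩ := h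
  exact Finset.sup_mono hS

theorem Jn.sup {A : Finset L} {z w : L} (h : Jn A z) (h' : Jn A w) : Jn A (z ⊔ w) := by
  classical
  obtain ⟨S, hS, rfl⟩ := h
  obtain ⟨T, hT, rfl⟩ := h'
  exact ⟨S ∪ T, Finset.union_subset hS hT, Finset.sup_union⟩

theorem jn_insert_iff [DecidableEq L] {A : Finset L} {p z : L} :
    Jn (insert p A) z ↔ Jn A z ∨ ∃ w, Jn A w ∧ z = w ⊔ p := by
  constructor
  · rintro ⟨S, hS, rfl⟩
    by_cases hp : p ∈ S
    · right
      refine ⟨(S.erase p).sup id, ⟨S.erase p, ?_, rfl⟩, ?_⟩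
      · intro a ha
        rw [Finset.mem_erase] at ha
        rcases Finset.mem_insert.mp (hS ha.2) with h | h
        · exact absurd h ha.1
        · exact h
      · conv_lhs => rw [← Finset.insert_erase hp]
        rw [Finset.sup_insert, id, sup_comm]
    · left
      refine ⟨S, ?_, rfl⟩
      intro a ha
      rcases Finset.mem_insert.mp (hS ha) with h | h
      · exact absurd (h ▸ ha) hp
      · exact h
  · rintro (⟨S, hS, rfl⟩ | ⟨w, ⟨S, hS, rfl⟩, rfl⟩)
    · exact ⟨S, hS.trans (Finset.subset_insert p A), rfl⟩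
    · refine ⟨insert p S, Finset.insert_subset_insert p hS, ?_⟩
      rw [Finset.sup_insert, id, sup_comm]

end

section

variable {L : Type} [Lattice L] [BoundedOrder L] [Finite L] [IsUpperModularLattice L]

/-- The joins of elements of `A` have a Boolean packing. -/
def Pk (A : Finset L) : Prop :=
  ∃ Q : Finset (L × Finset L), Fam Q (Jn A) ∧
    ∀ q ∈ Q, rk (A.sup id) ≤ rk q.1 + rk (jn q.1 q.2)

theorem Pk.coloop [DecidableEq L] {A : Finset L} {p : L} (h : Pk A) (hp : IsAtom p)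
    (hn : ¬ p ≤ A.sup id) : Pk (insert p A) := by
  classical
  obtain ⟨Q, hQ, hq⟩ := h
  have hJ : ∀ q ∈ Q, Jn A (jn q.1 q.2) := fun q hqQ => (hQ.cov _).mpr ⟨q, hqQ, El.top q⟩
  have hnQ : ∀ q ∈ Q, ¬ p ≤ jn q.1 q.2 := fun q hqQ hle => hn (hle.trans (hJ q hqQ).le)
  have hinj : ∀ z z', Jn A z → Jn A z' → z ⊔ p = z' ⊔ p → z = z' := by
    have key : ∀ u v : L, Jn A u → Jn A v → u ⊔ p = v ⊔ p → v ≤ u := by
      intro u v hu hv huv
      by_contra hc
      have h2 := covBy_sup_atom hp (fun hh => hn (hh.trans hu.le) : ¬ p ≤ u)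
      have h3 : u < u ⊔ v := lt_of_le_of_ne le_sup_left (fun hh => hc (hh ▸ le_sup_right))
      have h4 : u ⊔ v ≤ u ⊔ p := sup_le le_sup_left (huv ▸ le_sup_left)
      rcases h4.lt_or_eq with h5 | h5
      · exact h2.2 h3 h5
      · exact hn ((h5 ▸ le_sup_right : p ≤ u ⊔ v).trans (hu.sup hv).le)
    intro z z' hz hz' h
    exact le_antisymm (key z' z hz' hz h.symm) (key z z' hz hz' h)
  refine ⟨_, (hQ.double hp hnQ hinj).congr (fun z => jn_insert_iff.symm), ?_⟩
  intro q' hq'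
  obtain ⟨q, hqQ, rfl⟩ := Finset.mem_image.mp hq'
  change rk ((insert p A).sup id) ≤ rk q.1 + rk (jn q.1 (insert p q.2))
  rw [Finset.sup_insert, id, sup_comm, rk_sup_atom hp hn, jn_insert', rk_sup_atom hp (hnQ q hqQ)]
  have := hq q hqQ
  omega

theorem Fam.singles [DecidableEq L] (X : Finset L) :
    Fam (X.image (fun z => (z, (∅ : Finset L)))) (fun z => z ∈ X) := by
  refine ⟨?_, ?_, ?_⟩
  · intro q hq
    obtain ⟨z, -, rfl⟩ := Finset.mem_image.mp hq
    refine ⟨fun a ha => absurd ha (Finset.notMem_empty a), ?_⟩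
    change rk (jn z ∅) = rk z + (∅ : Finset L).card
    rw [jn_empty, Finset.card_empty, add_zero]
  · intro z
    constructor
    · intro hz
      exact ⟨_, Finset.mem_image_of_mem _ hz, el_empty.mpr rfl⟩
    · rintro ⟨q, hq, hz⟩
      obtain ⟨w, hw, rfl⟩ := Finset.mem_image.mp hq
      rw [el_empty.mp hz]
      exact hw
  · intro q hq q' hq' z hz hz'
    obtain ⟨w, -, rfl⟩ := Finset.mem_image.mp hq
    obtain ⟨w', -, rfl⟩ := Finset.mem_image.mp hq'
    rw [← el_empty.mp hz, ← el_empty.mp hz']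

/-- The general step. -/
theorem Pk.step [DecidableEq L] {A : Finset L} {p F : L} (h : Pk A) (hp : IsAtom p)
    (hpA : p ≤ A.sup id)
    (h1 : ∀ w, Jn A w → rk w + 2 ≤ rk (F ⊔ w) → ¬ p ≤ w ∧ ¬ Jn A (w ⊔ p))
    (h2 : ∀ w, Jn A w → ¬ p ≤ w → rk (F ⊔ w) ≤ rk w + 1 →
      2 * (rk w + 1) < rk (A.sup id) → Jn A (w ⊔ p)) : Pk (insert p A) := by
  classical
  have := Fintype.ofFinite L
  obtain ⟨Q, hQ, hq⟩ := h
  have hcut := fun (q : L × Finset L) (hqQ : q ∈ Q) => cut F q.2 q.1 (hQ.pg q hqQ)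
  choose! G hG hG2 using hcut
  set Z : L → Prop := fun z => Jn A z ∧ Cd F z with hZdef
  have hfam : Fam (Q.biUnion G) Z := by
    refine (Fam.biUnion Q G (fun q z => El q z ∧ Cd F z) hG ?_).congr ?_
    · rintro q hqQ q' hq'Q z ⟨hz, -⟩ ⟨hz', -⟩
      exact hQ.dis q hqQ q' hq'Q z hz hz'
    · intro z
      rw [hZdef]
      constructor
      · rintro ⟨q, hqQ, h1, h2⟩
        exact ⟨(hQ.cov z).mpr ⟨q, hqQ, h1⟩, h2⟩
      · rintro ⟨h1, h2⟩
        obtain ⟨q, hqQ, h3⟩ := (hQ.cov z).mp h1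
        exact ⟨q, hqQ, h3, h2⟩
  have hnZ : ∀ z, Z z → ¬ p ≤ z := fun z hz => (h1 z hz.1 hz.2).1
  have hnQ : ∀ w ∈ Q.biUnion G, ¬ p ≤ jn w.1 w.2 := fun w hw =>
    hnZ _ ((hfam.cov _).mpr ⟨w, hw, El.top w⟩)
  -- a join with `p` of an element of `C` is new
  have hnew : ∀ w, Z w → ¬ Jn A (w ⊔ p) := fun w hw => (h1 w hw.1 hw.2).2
  have key : ∀ u v : L, Jn A u → Jn A v → ¬ p ≤ u → ¬ Jn A (u ⊔ p) → u ⊔ p = v ⊔ p → v ≤ u := by
    intro u v hu hv hpu hnu huv
    by_contra hc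
    have h2 := covBy_sup_atom hp hpu
    have h3 : u < u ⊔ v := lt_of_le_of_ne le_sup_left (fun hh => hc (hh ▸ le_sup_right))
    have h4 : u ⊔ v ≤ u ⊔ p := sup_le le_sup_left (huv ▸ le_sup_left)
    rcases h4.lt_or_eq with h5 | h5
    · exact h2.2 h3 h5
    · exact hnu (h5 ▸ hu.sup hv)
  have hinj : ∀ z z', Z z → Z z' → z ⊔ p = z' ⊔ p → z = z' := by
    intro z z' hz hz' h
    exact le_antisymm (key z' z hz'.1 hz.1 (hnZ _ hz') (hnew _ hz') h.symm)
      (key z z' hz.1 hz'.1 (hnZ _ hz) (hnew _ hz) h)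
  have hsh := hfam.shift hp hnQ hinj
  have htopeq : rk ((insert p A).sup id) = rk (A.sup id) := by
    rw [Finset.sup_insert, id, sup_eq_right.mpr hpA]
  -- the remaining new elements
  let X : Finset L := Finset.univ.filter (fun z => ∃ w, Jn A w ∧ ¬ Z w ∧ ¬ p ≤ w ∧
    z = w ⊔ p ∧ ¬ Jn A z)
  have hX : ∀ z ∈ X, rk (A.sup id) ≤ rk z + rk z := by
    intro z hz
    obtain ⟨w, hw, hnw, hpw, rfl, hnj⟩ := (Finset.mem_filter.mp hz).2
    have h3 : ¬ Cd F w := fun h => hnw ⟨hw, h⟩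
    unfold Cd at h3
    have h0 := rk_sup_atom hp hpw
    by_contra hc
    exact hnj (h2 w hw hpw (by omega) (by omega))
  have hall := (hQ.union hsh (by
    rintro z h1 ⟨w, hw, rfl⟩
    exact hnew w hw h1)).union (Fam.singles X) (by
    rintro z (h1 | ⟨w, hw, rfl⟩) hz
    · obtain ⟨w, -, -, -, -, hnj⟩ := (Finset.mem_filter.mp hz).2
      exact hnj h1
    · obtain ⟨v, hv, hnv, hpv, hwv, hnj⟩ := (Finset.mem_filter.mp hz).2
      have h1 := key w v hw.1 hv (hnZ w hw) hnj hwv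
      have h2 := key v w hv hw.1 hpv (hwv ▸ hnj) hwv.symm
      exact hnv (le_antisymm h1 h2 ▸ hw))
  refine ⟨_, hall.congr ?_, ?_⟩
  · intro z
    rw [jn_insert_iff]
    constructor
    · rintro ((h1 | ⟨w, ⟨hw1, -⟩, rfl⟩) | hz)
      · exact Or.inl h1
      · exact Or.inr ⟨w, hw1, rfl⟩
      · obtain ⟨w, hw, -, -, rfl, -⟩ := (Finset.mem_filter.mp hz).2
        exact Or.inr ⟨w, hw, rfl⟩
    · rintro (h1 | ⟨w, hw, rfl⟩)
      · exact Or.inl (Or.inl h1)
      · by_cases hj : Jn A (w ⊔ p)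
        · exact Or.inl (Or.inl hj)
        · by_cases hc : Z w
          · exact Or.inl (Or.inr ⟨w, hc, rfl⟩)
          · right
            refine Finset.mem_filter.mpr ⟨Finset.mem_univ _, w, hw, hc, ?_, rfl, hj⟩
            intro hpw
            rw [sup_eq_left.mpr hpw] at hj
            exact hj hw
  · intro q' hq'
    rw [htopeq]
    rcases Finset.mem_union.mp hq' with hq' | hq'
    · rcases Finset.mem_union.mp hq' with hq' | hq'
      · exact hq q' hq'
      · obtain ⟨w, hw, rfl⟩ := Finset.mem_image.mp hq'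
        obtain ⟨q, hqQ, hwq⟩ := Finset.mem_biUnion.mp hw
        obtain ⟨h1, -, h3⟩ := hG2 q hqQ w hwq
        have h4 := hq q hqQ
        have h5 := hnQ w hw
        have h6 : ¬ p ≤ w.1 := fun hh => h5 (hh.trans (le_jn _ _))
        change rk (A.sup id) ≤ rk (w.1 ⊔ p) + rk (jn (w.1 ⊔ p) w.2)
        rw [jn_sup, rk_sup_atom hp h6, rk_sup_atom hp h5]
        have h7 := rk_mono h1
        have h8 : rk (jn q.1 q.2) ≤ rk (F ⊔ jn q.1 q.2) := rk_mono le_sup_right
        omega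
    · obtain ⟨z, hz, rfl⟩ := Finset.mem_image.mp hq'
      change rk (A.sup id) ≤ rk z + rk (jn z ∅)
      rw [jn_empty]
      exact hX z hz

/-- Principal extensions. -/
theorem Pk.principal [DecidableEq L] {A : Finset L} {p F : L} (h : Pk A) (hp : IsAtom p)
    (hF : Jn A F) (hpF : p ≤ F) (hfree : ∀ z, Jn A z → p ≤ z → F ≤ z) : Pk (insert p A) := by
  apply h.step hp (hpF.trans hF.le) (F := F)
  · intro w hw hc
    constructor
    · intro hle
      have h3 := hfree w hw hle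
      rw [sup_eq_right.mpr h3] at hc
      omega
    · intro hj
      have h2 : F ≤ w ⊔ p := hfree _ hj le_sup_right
      have h3 : rk (F ⊔ w) ≤ rk (w ⊔ p) := rk_mono (sup_le h2 le_sup_left)
      have h4 := rk_sup_atom_le (x := w) hp
      omega
  · intro w hw hpw hc _
    have h2 : w ⊔ p ≤ F ⊔ w := sup_le le_sup_right (hpF.trans le_sup_left)
    have h3 : w ⊔ p = F ⊔ w := by
      apply eq_of_le_of_rk h2
      rw [rk_sup_atom hp hpw]
      exact hc
    rw [h3]
    exact hF.sup hw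

end

end Pool.Agent.Helper19.TW
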