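import Pool.Agent.Helper19.TW.Base

/-!
# Towers
-/

set_option autoImplicit false
set_option linter.unusedSectionVars false

namespace Pool.Agent.Helper19.TW

open Pool.Agent.Helper28.BPack

/-- Sets of atoms of `L` that are built up from a lattice with a Boolean packing by adding
atoms one at a time. -/
inductive Tower (L : Type) [Lattice L] [BoundedOrder L] [DecidableEq L] : Finset L → Prop
  /-- the joins of elements of `A` form a geometric lattice `K` with a Boolean packing -/
  | base (K : Type) [Lattice K] [BoundedOrder K] [Fintype K] [IsUpperModularLattice K]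
      (hK : ∀ x : K, ∃ s : Finset K, (∀ a ∈ s, IsAtom a) ∧ s.sup id = x)
      (hP : BooleanPacking K ⊤) (j : K → L) (hj0 : j ⊥ = ⊥)
      (hjs : ∀ x y, j (x ⊔ y) = j x ⊔ j y) (hji : Function.Injective j) (A : Finset L)
      (hA : ∀ a, a ∈ A ↔ ∃ b, IsAtom b ∧ j b = a) (hAt : ∀ a ∈ A, IsAtom a) : Tower L A
  /-- coloops -/
  | coloop (A : Finset L) (p : L) (h : Tower L A) (hp : IsAtom p) (hn : ¬ p ≤ A.sup id) :
      Tower L (insert p A)
  /-- principal extensions -/
  | principal (A : Finset L) (p F : L) (h : Tower L A) (hp : IsAtom p) (hF : Jn A F)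
      (hpF : p ≤ F) (hfree : ∀ z, Jn A z → p ≤ z → F ≤ z) : Tower L (insert p A)
  /-- the general step -/
  | step (A : Finset L) (p F : L) (h : Tower L A) (hp : IsAtom p) (hpA : p ≤ A.sup id)
      (h1 : ∀ w, Jn A w → Order.height w + 2 ≤ Order.height (F ⊔ w) →
        ¬ p ≤ w ∧ ¬ Jn A (w ⊔ p))
      (h2 : ∀ w, Jn A w → ¬ p ≤ w → Order.height (F ⊔ w) ≤ Order.height w + 1 →
        2 * (Order.height w + 1) < Order.height (A.sup id) → Jn A (w ⊔ p)) :
      Tower L (insert p A)

theorem Tower.pk {L : Type} [Lattice L] [BoundedOrder L] [DecidableEq L] [Finite L]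
    [IsUpperModularLattice L] {A : Finset L} (h : Tower L A) : Pk A := by
  induction h with
  | base K hK hP j hj0 hjs hji A hA hAt => exact Pk.base hK hP j hj0 hjs hji A hA hAt
  | coloop A p _ hp hn ih => exact ih.coloop hp hn
  | principal A p F _ hp hF hpF hfree ih => exact ih.principal hp hF hpF hfree
  | step A p F _ hp hpA h1 h2 ih =>
    apply ih.step hp hpA (F := F)
    · intro w hw hc
      apply h1 w hw
      rw [← coe_rk, ← coe_rk]
      exact_mod_cast hc
    · intro w hw hpw hc hs
      apply h2 w hw hpw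
      · rw [← coe_rk, ← coe_rk]
        exact_mod_cast hc
      · rw [← coe_rk, ← coe_rk]
        exact_mod_cast hs

end Pool.Agent.Helper19.TW
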